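import Pool.Agent.Work.MP_6cc3c8_lc.Mor

/-!
# Capturing countable sets of levels.  Size: M.

`cap`: for every `c ∈ C` there are (`M.cover` at `ω₁`) maps with `c`, resp. `τ`, in the range, and `M.limit` (for `η = ω₁`, which is a limit) gives
`γ c < ω₁` and `h ∈ F (γ c) ω₁` with `c, τ ∈ range h`.  Let `ζ₀ < ω₁` be larger than all `γ c` (countable supremum; the cofinality of `ω₁` is uncountable; if `C`
is empty use `insert τ C` instead of `C`).  Let `ζ₀ ≤ ζ < ω₁`.  For `c ∈ C` `factor` gives `h = k ∘ g`, `k ∈ F ζ ω₁`, so `c, τ ∈ range k`; in particular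
some `k ∈ F ζ ω₁` has `τ ∈ range k`.  Now let `f ∈ F ζ ω₁`, `τ = f x`.  For `c ∈ C` take `k` as above, `τ = k y`, `c = k z`; `c ≤ τ` gives `z ≤ y`
(strictly monotone); by `agree` `y = x` and `k = f` on `≤ x`; so `c = k z = f z`.
-/

namespace Pool.Agent.Work.MP_6cc3c8_lc

open Cardinal Ordinal Set

variable {M : Morass}

private theorem pair_cap (τ c : Iio (M.θ ω₁)) :
    ∃ γ, γ < ω₁ ∧ ∃ h ∈ M.F γ ω₁, c ∈ range h ∧ τ ∈ range h := by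
  have hpos : (0 : Ordinal.{0}) < ω₁ := omega0_pos.trans omega0_lt_omega_one
  obtain ⟨ζ1, h1, f, hf, x, hx⟩ := M.cover ω₁ hpos le_rfl c
  obtain ⟨ζ2, h2, g, hg, y, hy⟩ := M.cover ω₁ hpos le_rfl τ
  obtain ⟨γ, _, _, hγ, k, hk, f', _, g', _, hfk, hgk⟩ :=
    M.limit ω₁ le_rfl (isSuccLimit_omega 1) ζ1 h1 ζ2 h2 f hf g hg
  refine ⟨γ, hγ, k, hk, ⟨f' x, ?_⟩, ⟨g' y, ?_⟩⟩
  · rw [← hx, hfk, Function.comp_apply]
  · rw [← hy, hgk, Function.comp_apply]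

theorem cap (C : Set (Iio (M.θ ω₁))) (hC : C.Countable) (τ : Iio (M.θ ω₁)) (hτ : ∀ c ∈ C, c ≤ τ) :
    ∃ ζ₀, ζ₀ < ω₁ ∧ ∀ ζ, ζ₀ ≤ ζ → ζ < ω₁ → (∃ f ∈ M.F ζ ω₁, τ ∈ range f) ∧
      ∀ f ∈ M.F ζ ω₁, τ ∈ range f → C ⊆ range f := by
  choose γ hγ h hh hc hτ' using fun c => pair_cap τ c
  have hD : (insert τ C).Countable := hC.insert τ
  have : Countable (insert τ C : Set (Iio (M.θ ω₁))) := hD.to_subtype
  refine ⟨⨆ c : (insert τ C : Set (Iio (M.θ ω₁))), (γ c + 1), ?_, ?_⟩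
  · exact Ordinal.iSup_lt_omega_one fun c => (isSuccLimit_omega 1).add_one_lt (hγ c)
  · intro ζ hζ hζω
    have hlt : ∀ c ∈ insert τ C, γ c < ζ := by
      intro c hcD
      have h1 : γ c + 1 ≤ ⨆ c : (insert τ C : Set (Iio (M.θ ω₁))), (γ c + 1) :=
        Ordinal.le_iSup (fun c : (insert τ C : Set (Iio (M.θ ω₁))) => γ c + 1) ⟨c, hcD⟩
      exact lt_of_lt_of_le (Order.lt_add_one_iff.2 le_rfl) (h1.trans hζ)
    have key : ∀ c ∈ insert τ C, ∃ k ∈ M.F ζ ω₁, c ∈ range k ∧ τ ∈ range k := by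
      intro c hcD
      obtain ⟨g, _, k, hk, hgk⟩ := factor (hlt c hcD) hζω le_rfl (hh c)
      obtain ⟨x, hx⟩ := hc c
      obtain ⟨y, hy⟩ := hτ' c
      refine ⟨k, hk, ⟨g x, ?_⟩, ⟨g y, ?_⟩⟩
      · rw [← hx, hgk, Function.comp_apply]
      · rw [← hy, hgk, Function.comp_apply]
    constructor
    · obtain ⟨k, hk, _, h2⟩ := key τ (Set.mem_insert τ C)
      exact ⟨k, hk, h2⟩
    · rintro f hf ⟨x, hx⟩ c hcC
      obtain ⟨k, hk, ⟨z, hz⟩, ⟨y, hy⟩⟩ := key c (Set.mem_insert_of_mem τ hcC)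
      have hzy : z ≤ y := by
        rw [← (M.mono ζ ω₁ hζω le_rfl k hk).le_iff_le, hz, hy]
        exact hτ c hcC
      obtain ⟨_, h2⟩ := agree hζω le_rfl hk hf (hy.trans hx.symm)
      exact ⟨z, by rw [← h2 z hzy, hz]⟩

end Pool.Agent.Work.MP_6cc3c8_lc
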