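import Pool.Agent.Work.MP_6cc3c8_lc.IA
import Pool.Agent.Work.MP_6cc3c8_lc.Cap

/-!
# Capturing nodes.  Size: M.

`raise`: if `ζ = ξ`: `f a'.1 = g x` gives `a'.1 = x` (`agree`), so `ap f a' = ap g a'`.  If `ζ < ξ`: `f = k ∘ e`, `e ∈ F ζ ξ`, `k ∈ F ξ ω₁` (`factor`), `a'' = ap e a'` is a node (`lift`), `k a''.1 = f a'.1 = g x`, so
`a''.1 = x` (`agree`) and `ap g a'' = ap f a'`.
`node`: `r_lim` (`ω₁` is a limit): `a = ap f a'`, `a = ap f c'`, `R D ζ a' c'`; `refl`.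
`nodes`: for every `a ∈ C` a stage `ζ a` from `node`; `cap` for the levels of the elements of `C`; `ζ₀` an upper bound `< ω₁` of these countably many ordinals; `raise`.
`lvl`: by `node` and `Inv.birth` the birth of a node is `< ω₁`; so the set is contained in a product `Iio τ × (Iio ω₁ × ℕ)` of cardinality `≤ ℵ₁` (`τ < θ ω₁ = ω_ 2`, so `#(Iio τ) ≤ ℵ₁`).
`all`: the same with `Iio (ω_ 2)`, `≤ ℵ_ 2`.
-/

namespace Pool.Agent.Work.MP_6cc3c8_lc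

open Cardinal Ordinal Set

variable {M : Morass} {D : Dat M}

private theorem raiseAux {ζ ξ : Ordinal.{0}} (h : ζ ≤ ξ) (hξ : ξ < ω₁) {f : Iio (M.θ ζ) → Iio (M.θ ω₁)}
    (hf : f ∈ M.F ζ ω₁)
    {g : Iio (M.θ ξ) → Iio (M.θ ω₁)} (hg : g ∈ M.F ξ ω₁) {a' : Nd M ζ} (ha : R D ζ a' a')
    (hr : (ap f a').1 ∈ range g) : ∃ a'', R D ξ a'' a'' ∧ ap f a' = ap g a'' := by
  rcases h.eq_or_lt with heq | hlt
  · subst heq
    obtain ⟨x, hx⟩ := hr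
    have h1 : f a'.1 = g x := hx.symm
    obtain ⟨-, h2⟩ := agree hξ le_rfl hf hg h1
    refine ⟨a', ha, ?_⟩
    show (f a'.1, a'.2) = (g a'.1, a'.2)
    rw [h2 _ le_rfl]
  · obtain ⟨e, he, k, hk, hfk⟩ := factor hlt hξ le_rfl hf
    subst hfk
    obtain ⟨x, hx⟩ := hr
    have h1 : k (ap e a').1 = g x := hx.symm
    obtain ⟨-, h2⟩ := agree hξ le_rfl hk hg h1
    refine ⟨ap e a', lift hlt he ha, ?_⟩
    exact Prod.ext (h2 _ le_rfl) rfl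

private theorem nodeAux {a : Nd M ω₁} (ha : R D ω₁ a a) :
    ∃ ζ, ζ < ω₁ ∧ ∃ f ∈ M.F ζ ω₁, ∃ a', R D ζ a' a' ∧ a = ap f a' := by
  obtain ⟨ζ, hζ, f, hf, a', c', hr, h1, -⟩ := (r_lim (isSuccLimit_omega 1) a a).1 ha
  exact ⟨ζ, hζ, f, hf, a', ((inv hζ.le).refl a' c' hr).1, h1⟩

private theorem birthAux {a : Nd M ω₁} (ha : R D ω₁ a a) : a.2.1 < ω₁ := by
  obtain ⟨ζ, hζ, f, hf, a', hr, h1⟩ := nodeAux ha
  have h2 := ((inv hζ.le).birth a' a' hr).1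
  rw [h1]
  exact lt_of_le_of_lt h2 hζ

private theorem cardIio (o : Ordinal.{0}) (ho : o < ω_ 2) : #(Iio o) ≤ (ℵ₁ : Cardinal.{1}) := by
  rw [Cardinal.mk_Iio_ordinal]
  have h1 : o.card < ℵ_ 2 := lt_omega_iff_card_lt.1 ho
  have h2 : (ℵ_ 2 : Cardinal.{0}) = Order.succ ℵ₁ := by
    rw [succ_aleph]
    norm_num
  rw [h2] at h1
  have h3 : o.card ≤ ℵ₁ := Order.lt_succ_iff.1 h1
  calc Cardinal.lift.{1} o.card ≤ Cardinal.lift.{1} (ℵ₁ : Cardinal.{0}) := Cardinal.lift_le.2 h3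
    _ = ℵ₁ := by rw [lift_aleph, Ordinal.lift_one]

private theorem cardIio1 : #(Iio (ω₁ : Ordinal.{0})) ≤ (ℵ₁ : Cardinal.{1}) :=
  cardIio _ (omega_lt_omega.2 (by norm_num))

private theorem cardIio2 : #(Iio (ω_ 2 : Ordinal.{0})) ≤ (ℵ_ 2 : Cardinal.{1}) := by
  rw [Cardinal.mk_Iio_ordinal, Ordinal.card_omega, lift_aleph]
  simp

/-- Counting of nodes with levels in a small set. -/
private theorem countAux (κ : Cardinal.{1}) (hκ : ℵ₁ ≤ κ) (S : Set (Iio (M.θ ω₁))) (hS : #S ≤ κ) :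
    #{a : Nd M ω₁ | R D ω₁ a a ∧ a.1 ∈ S} ≤ κ := by
  let F : {a : Nd M ω₁ | R D ω₁ a a ∧ a.1 ∈ S} → S × (Iio (ω₁ : Ordinal.{0}) × ℕ) :=
    fun a => (⟨a.1.1, a.2.2⟩, (⟨a.1.2.1, birthAux a.2.1⟩, a.1.2.2))
  have hF : Function.Injective F := by
    intro a b hab
    have h1 : a.1.1 = b.1.1 := by
      have := congrArg (fun t => (t.1 : Iio (M.θ ω₁))) hab
      exact this
    have h2 : a.1.2.1 = b.1.2.1 := by
      have := congrArg (fun t => (t.2.1 : Ordinal.{0})) hab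
      exact this
    have h3 : a.1.2.2 = b.1.2.2 := by
      have := congrArg (fun t => t.2.2) hab
      exact this
    exact Subtype.ext (Prod.ext h1 (Prod.ext h2 h3))
  have h4 := Cardinal.mk_le_of_injective hF
  refine h4.trans ?_
  have hκ0 : ℵ₀ ≤ κ := (aleph0_le_aleph 1).trans hκ
  rw [Cardinal.mk_prod, Cardinal.mk_prod]
  simp only [Cardinal.lift_uzero, Cardinal.lift_id, Cardinal.mk_nat, Cardinal.lift_aleph0]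
  exact Cardinal.mul_le_of_le hκ0 hS (Cardinal.mul_le_of_le hκ0 (cardIio1.trans hκ) hκ0)

theorem raise {ζ ξ : Ordinal.{0}} (h : ζ ≤ ξ) (hξ : ξ < ω₁) {f : Iio (M.θ ζ) → Iio (M.θ ω₁)} (hf : f ∈ M.F ζ ω₁)
    {g : Iio (M.θ ξ) → Iio (M.θ ω₁)} (hg : g ∈ M.F ξ ω₁) {a' : Nd M ζ} (ha : R D ζ a' a')
    (hr : (ap f a').1 ∈ range g) : ∃ a'', R D ξ a'' a'' ∧ ap f a' = ap g a'' :=
  raiseAux h hξ hf hg ha hr

theorem node {a : Nd M ω₁} (ha : R D ω₁ a a) : ∃ ζ, ζ < ω₁ ∧ ∃ f ∈ M.F ζ ω₁, ∃ a', R D ζ a' a' ∧ a = ap f a' :=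
  nodeAux ha

theorem nodes (C : Set (Nd M ω₁)) (hC : C.Countable) (hv : ∀ a ∈ C, R D ω₁ a a) (τ : Iio (M.θ ω₁))
    (hτ : ∀ a ∈ C, a.1 ≤ τ) :
    ∃ ζ₀, ζ₀ < ω₁ ∧ ∀ ζ, ζ₀ ≤ ζ → ζ < ω₁ → (∃ f ∈ M.F ζ ω₁, τ ∈ range f) ∧
      ∀ f ∈ M.F ζ ω₁, τ ∈ range f → ∀ a ∈ C, ∃ a', R D ζ a' a' ∧ a = ap f a' := by
  have h1 : ∀ a : C, ∃ ζ, ζ < ω₁ ∧ ∃ f ∈ M.F ζ ω₁, ∃ a', R D ζ a' a' ∧ a.1 = ap f a' :=
    fun a => nodeAux (hv a.1 a.2)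
  choose z hz f hf a' ha' hfa using h1
  haveI : Countable C := hC.to_subtype
  obtain ⟨ζ₁, hζ₁, hcap⟩ := cap (Prod.fst '' C) (hC.image _) τ (by
    rintro _ ⟨a, ha, rfl⟩
    exact hτ a ha)
  have hsup : ⨆ i, z i < ω₁ := Ordinal.iSup_lt_omega_one hz
  refine ⟨max ζ₁ (⨆ i, z i), max_lt hζ₁ hsup, ?_⟩
  intro ζ hζ hζ'
  obtain ⟨hc1, hc2⟩ := hcap ζ ((le_max_left _ _).trans hζ) hζ'
  refine ⟨hc1, ?_⟩
  intro g hg hτg a ha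
  have hsub := hc2 g hg hτg
  have hle : z ⟨a, ha⟩ ≤ ζ := ((Ordinal.le_iSup z ⟨a, ha⟩).trans (le_max_right _ _)).trans hζ
  obtain ⟨a'', h2, h3⟩ := raiseAux hle hζ' (hf ⟨a, ha⟩) hg (ha' ⟨a, ha⟩) (by
    rw [← hfa ⟨a, ha⟩]
    exact hsub ⟨a, ha, rfl⟩)
  exact ⟨a'', h2, (hfa ⟨a, ha⟩).trans h3⟩

theorem lvl (τ : Iio (M.θ ω₁)) : #{a : Nd M ω₁ | R D ω₁ a a ∧ a.1 < τ} ≤ ℵ₁ := by
  have hτ : (τ : Ordinal.{0}) < ω_ 2 := lt_of_lt_of_eq τ.2 M.top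
  have h1 : #(Iio τ) ≤ (ℵ₁ : Cardinal.{1}) := by
    refine le_trans (Cardinal.mk_le_of_injective (f := fun x : Iio τ => (⟨x.1.1, x.2⟩ : Iio (τ : Ordinal.{0})))
      ?_) (cardIio _ hτ)
    intro x y hxy
    have := congrArg Subtype.val hxy
    exact Subtype.ext (Subtype.ext this)
  exact countAux ℵ₁ le_rfl (Iio τ) h1

theorem all : #{a : Nd M ω₁ | R D ω₁ a a} ≤ ℵ_ 2 := by
  have h0 : #(Iio (M.θ ω₁)) ≤ (ℵ_ 2 : Cardinal.{1}) := by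
    rw [M.top]
    exact cardIio2
  have h1 := countAux (D := D) (ℵ_ 2) (aleph_le_aleph.2 (by norm_num)) (univ : Set (Iio (M.θ ω₁)))
    ((Cardinal.mk_set_le _).trans h0)
  simpa using h1

end Pool.Agent.Work.MP_6cc3c8_lc
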