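import Pool.Agent.Work.MP_6cc3c8_lc.Tn
import Pool.Agent.Work.MP_6cc3c8_lc.Nod

/-!
# Maximal antichains.  Size: S-M.

For every `n` let `A n` be as in `h n`, and `B' n ⊇ A n` a maximal antichain of `Tn D n` (Zorn: `zorn_subset_nonempty`; the union of a chain of antichains is an antichain), and `B n = Subtype.val '' B' n`
(or `{b | ∃ t ∈ B' n, t.1 = b}`).  `mem`: the property of the elements of `Tn`.  `anti`: `B' n` is an antichain (`R D ω₁ b b'` is `b ≤ b'`).
`max`: `a` gives `t : Tn D n`; if no element of `B' n` is comparable with `t`, then `insert t (B' n)` is an antichain, so `t ∈ B' n` by maximality, and `t` is comparable with itself.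
`unb`: otherwise all elements of `B n` are in `{a | R D ω₁ a a ∧ a.1 < γ}`, of cardinality `≤ ℵ₁` by `lvl`; but `ℵ_ 2 ≤ #(A n) ≤ #(B' n) = #(B n)`.
-/

namespace Pool.Agent.Work.MP_6cc3c8_lc

open Cardinal Ordinal Set

variable {M : Morass}

private theorem maxAnti {P : Type*} [PartialOrder P] (A : Set P) (hA : IsAntichain (· ≤ ·) A) :
    ∃ B : Set P, A ⊆ B ∧ IsAntichain (· ≤ ·) B ∧ ∀ t : P, ∃ b ∈ B, t ≤ b ∨ b ≤ t := by
  obtain ⟨B, hAB, hB⟩ := zorn_subset_nonempty {S : Set P | IsAntichain (· ≤ ·) S} (by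
    intro c hc hchain _
    refine ⟨⋃₀ c, ?_, fun s hs => subset_sUnion_of_mem hs⟩
    intro x hx y hy hxy
    obtain ⟨s, hs, hxs⟩ := hx
    obtain ⟨t, ht, hyt⟩ := hy
    rcases hchain.total hs ht with hst | hts
    · exact hc ht (hst hxs) hyt hxy
    · exact hc hs hxs (hts hyt) hxy) A hA
  refine ⟨B, hAB, hB.prop, ?_⟩
  intro t
  by_contra hcon
  push Not at hcon
  have hins : IsAntichain (· ≤ ·) (insert t B) := by
    intro x hx y hy hxy
    rcases hx with rfl | hx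
    · rcases hy with rfl | hy
      · exact absurd rfl hxy
      · exact (hcon y hy).1
    · rcases hy with rfl | hy
      · exact (hcon x hx).2
      · exact hB.prop hx hy hxy
  have hsub : insert t B ⊆ B := hB.le_of_ge hins (subset_insert t B)
  exact (hcon t (hsub (mem_insert t B))).1 le_rfl

theorem advE (D : Dat M) (h : ∀ n, ∃ A : Set (Tn D n), IsAntichain (· ≤ ·) A ∧ ℵ_ 2 ≤ #A) :
    ∃ B : ℕ → Set (Nd M ω₁), Adv D B := by
  choose A hA hcard using h
  choose B' hAB hB hmax using fun n => maxAnti (A n) (hA n)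
  refine ⟨fun n => Subtype.val '' B' n, ?_, ?_, ?_, ?_⟩
  · rintro n _ ⟨t, -, rfl⟩
    exact t.2
  · rintro n _ ⟨t, ht, rfl⟩ _ ⟨t', ht', rfl⟩ hr
    by_contra hne
    exact hB n ht ht' (fun heq => hne (by rw [heq])) hr
  · intro n a ha hc
    obtain ⟨b, hb, hcmp⟩ := hmax n ⟨a, ha, hc⟩
    refine ⟨b.1, ⟨b, hb, rfl⟩, ?_⟩
    rcases hcmp with h1 | h1
    · exact Or.inl h1
    · exact Or.inr h1
  · intro n γ
    by_contra hcon
    push Not at hcon
    have hsub : (Subtype.val '' B' n : Set (Nd M ω₁)) ⊆ {a : Nd M ω₁ | R D ω₁ a a ∧ a.1 < γ} := by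
      rintro _ ⟨t, ht, rfl⟩
      exact ⟨t.2.1, hcon t.1 ⟨t, ht, rfl⟩⟩
    have h1 : #(Subtype.val '' B' n : Set (Nd M ω₁)) ≤ ℵ₁ := (Cardinal.mk_le_mk_of_subset hsub).trans (lvl γ)
    have h2 : #(Subtype.val '' B' n : Set (Nd M ω₁)) = #(B' n) :=
      Cardinal.mk_image_eq Subtype.val_injective
    have h3 : #(A n) ≤ #(B' n) := Cardinal.mk_le_mk_of_subset (hAB n)
    have h4 : (ℵ_ 2 : Cardinal.{1}) ≤ ℵ₁ := (hcard n).trans (h3.trans (h2 ▸ h1))
    have h5 : (ℵ₁ : Cardinal.{1}) < ℵ_ 2 := aleph_lt_aleph.2 (by norm_num)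
    exact absurd h4 (not_le.2 h5)

end Pool.Agent.Work.MP_6cc3c8_lc
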