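import Mathlib

/-!
# Simplified `(ω₁, 1)`-morasses and `ℵ₂`-Suslin trees: definitions
-/

namespace Pool.Agent.Work.MP_6cc3c8_lc

open Cardinal Ordinal Set

/-- A simplified `(ω₁, 1)`-morass (Velleman).  Only `θ ζ`, `F ζ η` with `ζ < η ≤ ω₁` matter; for larger indices nothing
is required, except `0 < θ ζ`. -/
structure Morass where
  /-- the ordinals `θ ζ`, `ζ ≤ ω₁` -/
  θ : Ordinal.{0} → Ordinal.{0}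
  /-- the sets of maps `θ ζ → θ η`, `ζ < η ≤ ω₁` -/
  F : (ζ η : Ordinal.{0}) → Set (Iio (θ ζ) → Iio (θ η))
  pos : ∀ ζ, 0 < θ ζ
  small : ∀ ζ, ζ < ω₁ → θ ζ < ω₁
  top : θ ω₁ = ω_ 2
  mono : ∀ ζ η, ζ < η → η ≤ ω₁ → ∀ f ∈ F ζ η, StrictMono f
  countable : ∀ ζ η, ζ < η → η < ω₁ → (F ζ η).Countable
  comp : ∀ ζ ξ η, ζ < ξ → ξ < η → η ≤ ω₁ → ∀ h, h ∈ F ζ η ↔ ∃ g ∈ F ζ ξ, ∃ f ∈ F ξ η, h = f ∘ g
  succ : ∀ ζ, ζ < ω₁ →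
    (∃ i, F ζ (ζ + 1) = {i} ∧ ∀ x, (i x : Ordinal.{0}) = x) ∨
    (∃ i b, F ζ (ζ + 1) = {i, b} ∧ (∀ x, (i x : Ordinal.{0}) = x) ∧
      ∃ s : Iio (θ ζ), (∀ x < s, (b x : Ordinal.{0}) = x) ∧ θ ζ ≤ b s)
  limit : ∀ η, η ≤ ω₁ → Order.IsSuccLimit η → ∀ ζ < η, ∀ ξ < η, ∀ f ∈ F ζ η, ∀ g ∈ F ξ η,
    ∃ γ, ζ < γ ∧ ξ < γ ∧ γ < η ∧ ∃ h ∈ F γ η, ∃ f' ∈ F ζ γ, ∃ g' ∈ F ξ γ, f = h ∘ f' ∧ g = h ∘ g'
  cover : ∀ η, 0 < η → η ≤ ω₁ → ∀ y : Iio (θ η), ∃ ζ < η, ∃ f ∈ F ζ η, y ∈ range f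

/-- `T` is a tree of height `ω₂` (the predecessors of every element are well-ordered, with order type
less than `ω₂`, and every order type less than `ω₂` occurs) without chains or antichains of cardinality
`ℵ₂`. -/
structure IsSuslin (T : Type*) [PartialOrder T] : Prop where
  tree : ∀ t : T, ∃ α : Ordinal.{0}, α < ω_ 2 ∧ Nonempty (Iio t ≃o Iio α)
  height : ∀ α : Ordinal.{0}, α < ω_ 2 → ∃ t : T, Nonempty (Iio t ≃o Iio α)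
  chain : ∀ C : Set T, IsChain (· ≤ ·) C → #C < ℵ_ 2
  antichain : ∀ A : Set T, IsAntichain (· ≤ ·) A → #A < ℵ_ 2

end Pool.Agent.Work.MP_6cc3c8_lc
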