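import Pool.Agent.Work.MP_6cc3c8_lc.Nod

/-!
# A closure point.  Size: M.

Choose for all `n, a` (`a` a node of the cone `n`) an element `β n a ∈ B n` comparable with `a` (`hA.max`), and for all `n`, `α` an element `b n α ∈ B n` with `α ≤ (b n α).1` (`hA.unb`).
For `α < ω_ 2` (`= θ ω₁`, `M.top`) the set of the nodes of level `< α` (or `≤ α`) has cardinality `≤ ℵ₁` (`lvl`), so the supremum `g α` of the ordinals `(β n a).1 + 1`, `(b n α).1 + 1` over all `n` and these `a` is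
`< ω_ 2` (regularity of `ℵ_ 2`; `Ordinal.iSup_lt_ord` or similar).  `τ₀ = γ`, `τ_{k+1} = max (g (τ_k + 1)) (τ_k + 1)`, `τ = sup_k τ_k < ω_ 2`.  A node of level `< τ` has level `< τ_k` for some `k`, so the chosen
element has level `< τ_{k+1} ≤ τ`; `b n γ` has level `< τ₁ ≤ τ`.
-/

namespace Pool.Agent.Work.MP_6cc3c8_lc

open Cardinal Ordinal Set

variable {M : Morass} {D : Dat M}

private theorem bd {β : Type 1} (hβ : #β ≤ ℵ₁) (f : β → Ordinal.{0}) (hf : ∀ i, f i < ω_ 2) :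
    ∃ s, s < ω_ 2 ∧ ∀ i, f i ≤ s := by
  refine ⟨⨆ i, f i, lift_iSup_lt_of_lt_cof ?_ hf, fun i => le_ciSup ⟨ω_ 2, ?_⟩ i⟩
  · have h2 : (Ordinal.lift.{1} (ω_ 2 : Ordinal.{0})) = ω_ 2 := by
      rw [lift_omega]
      congr 1
      exact Ordinal.lift_ofNat 2
    have h3 : (ℵ_ 2 : Cardinal.{1}).IsRegular := by
      have := isRegular_aleph_add_one (1 : Ordinal.{1})
      rwa [one_add_one_eq_two] at this
    rw [h2, h3.cof_omega_eq]
    have h4 : Cardinal.lift.{0} #β = #β := Cardinal.lift_uzero _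
    rw [h4]
    refine hβ.trans_lt ?_
    rw [aleph_lt_aleph]
    exact one_lt_two
  · rintro _ ⟨j, rfl⟩
    exact (hf j).le

private theorem bdN (f : ℕ → Ordinal.{0}) (hf : ∀ i, f i < ω_ 2) : ∃ s, s < ω_ 2 ∧ ∀ i, f i ≤ s := by
  obtain ⟨s, hs, h⟩ := bd (β := ULift.{1} ℕ) (by
    rw [Cardinal.mk_uLift, Cardinal.mk_nat, Cardinal.lift_aleph0]
    exact aleph0_lt_aleph_one.le) (fun i => f i.down) (fun i => hf _)
  exact ⟨s, hs, fun i => h ⟨i⟩⟩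

private theorem lt_top (x : Iio (M.θ ω₁)) : (x : Ordinal.{0}) < ω_ 2 := by
  have h : (x : Ordinal.{0}) < M.θ ω₁ := x.2
  exact lt_of_lt_of_eq h M.top

private theorem step {β : ℕ → Nd M ω₁ → Nd M ω₁} {b : ℕ → Nd M ω₁} (τ : Iio (M.θ ω₁)) :
    ∃ τ' : Iio (M.θ ω₁), τ < τ' ∧ (∀ n a, R D ω₁ a a → a.1 < τ → (β n a).1 < τ') ∧
      ∀ n, (b n).1 < τ' := by
  have h1 := fun n : ℕ => bd (β := {a : Nd M ω₁ | R D ω₁ a a ∧ a.1 < τ}) (lvl τ)
    (fun a => ((β n a.1).1 : Ordinal.{0})) (fun a => lt_top _)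
  choose s hs1 hs2 using h1
  obtain ⟨s', hs1', hs2'⟩ := bdN s hs1
  obtain ⟨u, hu1, hu2⟩ := bdN (fun n => ((b n).1 : Ordinal.{0})) (fun n => lt_top _)
  have hlim : Order.IsSuccLimit (ω_ 2 : Ordinal.{0}) := isSuccLimit_omega 2
  have h3 : max (max s' u) (τ : Ordinal.{0}) + 1 < ω_ 2 := by
    rw [← Order.succ_eq_add_one]
    exact hlim.succ_lt (max_lt (max_lt hs1' hu1) (lt_top τ))
  refine ⟨⟨max (max s' u) (τ : Ordinal.{0}) + 1, by rw [← M.top] at h3; exact h3⟩, ?_, ?_, ?_⟩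
  · show (τ : Ordinal.{0}) < max (max s' u) (τ : Ordinal.{0}) + 1
    exact Order.lt_add_one_iff.2 (le_max_right _ _)
  · intro n a ha hlt
    show ((β n a).1 : Ordinal.{0}) < max (max s' u) (τ : Ordinal.{0}) + 1
    refine Order.lt_add_one_iff.2 ?_
    exact ((hs2 n ⟨a, ha, hlt⟩).trans (hs2' n)).trans ((le_max_left _ _).trans (le_max_left _ _))
  · intro n
    show ((b n).1 : Ordinal.{0}) < max (max s' u) (τ : Ordinal.{0}) + 1
    refine Order.lt_add_one_iff.2 ?_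
    exact (hu2 n).trans ((le_max_right _ _).trans (le_max_left _ _))

theorem clo {B : ℕ → Set (Nd M ω₁)} (hA : Adv D B) (γ : Iio (M.θ ω₁)) :
    ∃ τ : Iio (M.θ ω₁), γ < τ ∧ (∀ n, ∃ b ∈ B n, γ ≤ b.1 ∧ b.1 < τ) ∧
      ∀ n a, R D ω₁ a a → Cone (R D ω₁) n a → a.1 < τ → ∃ b ∈ B n, b.1 < τ ∧ Cmp D ω₁ a b := by
  have : Nonempty (Nd M ω₁) := ⟨(γ, 0, 0)⟩
  have hmax := hA.max
  choose! β hβ1 hβ2 using hmax
  have hunb := fun n => hA.unb n γ
  choose b hb1 hb2 using hunb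
  have hst := fun τ : Iio (M.θ ω₁) => step (D := D) (β := β) (b := b) τ
  choose st hs1 hs2 hs3 using hst
  set t : ℕ → Iio (M.θ ω₁) := fun k => st^[k] γ with ht
  have ht1 : ∀ k, t (k + 1) = st (t k) := fun k => Function.iterate_succ_apply' st k γ
  have hbdd : BddAbove (range fun k => (t k : Ordinal.{0})) := by
    refine ⟨ω_ 2, ?_⟩
    rintro _ ⟨k, rfl⟩
    exact (lt_top _).le
  obtain ⟨s, hs, hsle⟩ := bdN (fun k => (t k : Ordinal.{0})) (fun k => lt_top _)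
  have hsup : (⨆ k, (t k : Ordinal.{0})) < M.θ ω₁ :=
    ((ciSup_le hsle).trans_lt hs).trans_eq M.top.symm
  have hle : ∀ k, t k < (⟨⨆ k, (t k : Ordinal.{0}), hsup⟩ : Iio (M.θ ω₁)) := by
    intro k
    refine lt_of_lt_of_le (hs1 (t k)) ?_
    show ((st (t k) : Iio (M.θ ω₁)) : Ordinal.{0}) ≤ ⨆ k, (t k : Ordinal.{0})
    rw [← ht1]
    exact le_ciSup hbdd (k + 1)
  refine ⟨⟨⨆ k, (t k : Ordinal.{0}), hsup⟩, hle 0, ?_, ?_⟩
  · intro n
    exact ⟨b n, hb1 n, hb2 n, (hs3 (t 0) n).trans (by rw [← ht1]; exact hle 1)⟩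
  · intro n a ha hc hlt
    have hlt' : (a.1 : Ordinal.{0}) < ⨆ k, (t k : Ordinal.{0}) := hlt
    obtain ⟨k, hk⟩ := (lt_ciSup_iff hbdd).1 hlt'
    refine ⟨β n a, hβ1 n a ha hc, ?_, hβ2 n a ha hc⟩
    exact (hs2 (t k) n a ha hk).trans (by rw [← ht1]; exact hle (k + 1))

end Pool.Agent.Work.MP_6cc3c8_lc
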