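import Pool.Agent.Work.MP_6cc3c8_lc.IA

/-!
# A correct guess makes the copies comparable.  Size: S-M.

`Q.1 < s`: `b Q.1 = Q.1`, so `ap b Q = ap i Q`, and `Cmp D ζ P Q` with `lift`.
`s ≤ Q.1`, `P.1 < s`: `Cmp D ζ P Q` and `P.1 < Q.1` give `R D ζ P Q` (`R D ζ Q P` contradicts `Inv.lev`), so `R (ap b P) (ap b Q)` by `lift`, and `ap b P = ap i P`.
`s ≤ Q.1`, `s ≤ P.1`: let `u` be the predecessor of `Q` of level `s` (`Inv.ex`).  `u ≤ P`: if `P ≤ Q` by `down`; if `Q ≤ P` by transitivity.  `u` is in the cone `n`: `P` is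
(`Cone`, and `down` for the node of level `0`).  `u ≤ pot (gs n) = P`, so `spec u = gs n` (`spec_eq`), `pot (spec u) = P`.  So `ap i P` is in `Cr u` (first alternative, `a' = P`), hence
below `ap b Q` by `sc_right` (births: `Inv.birth`).
-/

namespace Pool.Agent.Work.MP_6cc3c8_lc

open Cardinal Ordinal Set

variable {M : Morass} {D : Dat M}

theorem cstep {ζ : Ordinal.{0}} (hζ : ζ < ω₁) {i b : Iio (M.θ ζ) → Iio (M.θ (ζ + 1))} (hi : i ∈ M.F ζ (ζ + 1))
    (hinc : IsInc i) (hb : b ∈ M.F ζ (ζ + 1)) {s : Iio (M.θ ζ)} (hs : IsSplit b s) {P Q : Nd M ζ} {n : ℕ}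
    (hP : R D ζ P P) (hQ : R D ζ Q Q) (hn : Cone (R D ζ) n P) (hc : Cmp D ζ P Q)
    (hg : D.pot ζ (D.gs ζ n) = P) : Cmp D (ζ + 1) (ap i P) (ap b Q) := by
  have hlt : ζ < ζ + 1 := Order.lt_add_one_iff.mpr le_rfl
  have I : Inv D ζ := inv hζ.le
  have hsame : ∀ x : Nd M ζ, x.1 < s → ap b x = ap i x := by
    intro x hx
    refine Prod.ext (Subtype.ext ?_) rfl
    exact (hs.1 x.1 hx).trans (hinc x.1).symm
  rcases lt_or_ge Q.1 s with hQs | hQs
  · rw [hsame Q hQs]
    rcases hc with h | h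
    · exact Or.inl (lift hlt hi h)
    · exact Or.inr (lift hlt hi h)
  · rcases lt_or_ge P.1 s with hPs | hPs
    · rcases hc with h | h
      · rw [← hsame P hPs]
        exact Or.inl (lift hlt hb h)
      · exact absurd (hQs.trans (I.lev _ _ h)) (not_le.mpr hPs)
    · obtain ⟨u, hu, hus⟩ := I.ex Q hQ s hQs
      have huP : R D ζ u P := by
        rcases hc with h | h
        · exact down hζ.le hu h (by rw [hus]; exact hPs)
        · exact I.trans _ _ _ hu h
      have hcone : Cone (R D ζ) n u := by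
        obtain ⟨a, h0, h1, h2⟩ := hn
        refine ⟨a, h0, h1, down hζ.le h2 huP ?_⟩
        have h3 : (a.1 : Ordinal.{0}) ≤ (u.1 : Ordinal.{0}) := by rw [h0]; exact zero_le
        exact h3
      have hsp : spec D ζ (R D ζ) u = D.gs ζ n := spec_eq I hcone (by rw [hg]; exact huP)
      left
      refine (sc_right hζ I hb hs Q (I.birth Q Q hQ).1 u hu hus (ap i P)).mpr (Or.inr ⟨?_, ?_, Or.inl ⟨P, ?_, ?_⟩⟩)
      · have h4 : ((ap i P).1 : Ordinal.{0}) = P.1 := hinc P.1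
        rw [h4, hus]
        exact hPs
      · have h4 : ((ap i P).1 : Ordinal.{0}) = P.1 := hinc P.1
        rw [h4]
        exact P.1.2
      · rw [hsp, hg]
        exact hP
      · exact ⟨hinc P.1, rfl⟩

end Pool.Agent.Work.MP_6cc3c8_lc
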