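import Pool.Agent.Work.MP_6cc3c8_lc.Cne
import Pool.Agent.Work.MP_6cc3c8_lc.Cs

/-!
# The comparability theorem.  Size: M-L.

Write `t l i = D.pot δ (r ν (Nat.pair l i))`, `n = Nat.pair l i`; '(V)' means: `R D δ t t` and `Cone (R D δ) n t`.
Claim `P(η)`, for `ζ0 < η ≤ ω₁`: for all `e, e' ∈ F ζ0 η` there is a finite set `q` of pairs `(ζ, a)` with `ζ0 ≤ ζ < η` and pairwise different first coordinates, such that for all `l` with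
`ρ ζ l = a` for all `(ζ, a) ∈ q`, and all `i` with (V): `Cmp D η (ap e (ap k t)) (ap e' (ap k t))`.  The theorem is `P(ω₁)` and `Indep ρ` (`ω₁` is a limit; the first coordinates are `< ω₁`).
Induction on `η`.
Successor `η = ζ + 1`, `ζ0 ≤ ζ < ω₁`.  If `ζ0 < ζ` write `e = c ∘ e₁`, `e' = c' ∘ e₁'` (`factor`), `c, c' ∈ F ζ (ζ + 1)`, and take `q₁` from `P(ζ)` for `e₁, e₁'`; if `ζ0 = ζ` put `c = e`, `c' = e'`,
`q₁ = ∅` and use `k` itself instead of `e₁ ∘ k`, `e₁' ∘ k`.  Let `P = ap e₁ (ap k t)`, `Q = ap e₁' (ap k t)` (nodes by `lift`, in the cone `n` by `cone_ap`), `Cmp D ζ P Q`.  By `succ_form` `c`, `c'` are the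
inclusion `i` or split maps; two split maps are equal (`split_unique`).  `c = c'`: `q = q₁`, `lift`.  `c = i`, `c' = b`: `e₁ ∘ k ∈ F δ ζ` (`compose`); by `Good` the task `(ν, δ, e₁ ∘ k)` has a number `a`; `q = q₁ ∪ {(ζ, a)}`;
if `ρ ζ l = a` then `D.pot ζ (D.gs ζ n) = ap (e₁ ∘ k) t = P`: `cstep`.  `c = b`, `c' = i`: the same with `e₁'` (`Cmp` is symmetric).
Limit `η`: `M.limit` for `e, e'` (both from the stage `ζ0`): `e = h ∘ e₁`, `e' = h ∘ e₁'`, `h ∈ F γ η`, `ζ0 < γ < η`: `q` from `P(γ)`, `lift`.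
-/

namespace Pool.Agent.Work.MP_6cc3c8_lc

open Cardinal Ordinal Set

variable {M : Morass} {D : Dat M}

private theorem lt1 (ζ : Ordinal.{0}) : ζ < ζ + 1 := Order.lt_add_one_iff.mpr le_rfl

private theorem cmp_lift {ζ η : Ordinal.{0}} (h : ζ < η) {f : Iio (M.θ ζ) → Iio (M.θ η)}
    (hf : f ∈ M.F ζ η) {a c : Nd M ζ} (hr : Cmp D ζ a c) : Cmp D η (ap f a) (ap f c) := by
  rcases hr with hr | hr
  · exact Or.inl (lift h hf hr)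
  · exact Or.inr (lift h hf hr)

/-- the statement to be proved at the stage `η` -/
private def St (D : Dat M) (r ρ : Ordinal.{0} → ℕ → ℕ) (δ ν ζ0 η : Ordinal.{0})
    (κ κ' : Iio (M.θ δ) → Iio (M.θ η)) : Prop :=
  ∃ q : Finset (Ordinal.{0} × ℕ), (∀ p ∈ q, ζ0 ≤ p.1 ∧ p.1 < η) ∧
    (∀ p ∈ q, ∀ p' ∈ q, p.1 = p'.1 → p = p') ∧
    ∀ l : ℕ, (∀ p ∈ q, ρ p.1 l = p.2) → ∀ i : ℕ,
      R D δ (D.pot δ (r ν (Nat.pair l i))) (D.pot δ (r ν (Nat.pair l i))) →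
      Cone (R D δ) (Nat.pair l i) (D.pot δ (r ν (Nat.pair l i))) →
      Cmp D η (ap κ (D.pot δ (r ν (Nat.pair l i)))) (ap κ' (D.pot δ (r ν (Nat.pair l i))))

private theorem St.symm {r ρ : Ordinal.{0} → ℕ → ℕ} {δ ν ζ0 η : Ordinal.{0}}
    {κ κ' : Iio (M.θ δ) → Iio (M.θ η)} (h : St D r ρ δ ν ζ0 η κ κ') : St D r ρ δ ν ζ0 η κ' κ := by
  obtain ⟨q, h1, h2, h3⟩ := h
  exact ⟨q, h1, h2, fun l hl i hV hC => (h3 l hl i hV hC).symm⟩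

private theorem St.lft {r ρ : Ordinal.{0} → ℕ → ℕ} {δ ν ζ0 ζ η : Ordinal.{0}} (h : ζ < η)
    {κ κ' : Iio (M.θ δ) → Iio (M.θ ζ)} {c : Iio (M.θ ζ) → Iio (M.θ η)} (hc : c ∈ M.F ζ η)
    (hs : St D r ρ δ ν ζ0 ζ κ κ') : St D r ρ δ ν ζ0 η (c ∘ κ) (c ∘ κ') := by
  obtain ⟨q, h1, h2, h3⟩ := hs
  exact ⟨q, fun p hp => ⟨(h1 p hp).1, (h1 p hp).2.trans h⟩, h2,
    fun l hl i hV hC => cmp_lift h hc (h3 l hl i hV hC)⟩

private theorem St.mixed {r ρ : Ordinal.{0} → ℕ → ℕ} (hG : Good D r ρ) {δ ν ζ0 ζ : Ordinal.{0}}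
    (hζ : ζ < ω₁) (hδ : δ < ζ) (hν : ν < ζ) (h0 : ζ0 ≤ ζ) {κ κ' : Iio (M.θ δ) → Iio (M.θ ζ)}
    (hκ : κ ∈ M.F δ ζ) (hκ' : κ' ∈ M.F δ ζ) {c c' : Iio (M.θ ζ) → Iio (M.θ (ζ + 1))}
    (hc : c ∈ M.F ζ (ζ + 1)) (hinc : IsInc c) (hc' : c' ∈ M.F ζ (ζ + 1)) {s : Iio (M.θ ζ)}
    (hsp : IsSplit c' s) (hs : St D r ρ δ ν ζ0 ζ κ κ') :
    St D r ρ δ ν ζ0 (ζ + 1) (c ∘ κ) (c' ∘ κ') := by
  classical
  obtain ⟨q, h1, h2, h3⟩ := hs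
  obtain ⟨a, ha⟩ := hG ζ hζ ν hν δ hδ κ hκ
  refine ⟨insert (ζ, a) q, ?_, ?_, ?_⟩
  · intro p hp
    rw [Finset.mem_insert] at hp
    rcases hp with rfl | hp
    · exact ⟨h0, lt1 ζ⟩
    · exact ⟨(h1 p hp).1, (h1 p hp).2.trans (lt1 ζ)⟩
  · intro p hp p' hp' he
    rw [Finset.mem_insert] at hp hp'
    rcases hp with rfl | hp <;> rcases hp' with rfl | hp'
    · rfl
    · exact absurd he (h1 p' hp').2.ne'
    · exact absurd he (h1 p hp).2.ne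
    · exact h2 p hp p' hp' he
  · intro l hl i hV hC
    have hla : ρ ζ l = a := hl (ζ, a) (Finset.mem_insert_self _ _)
    have hcmp := h3 l (fun p hp => hl p (Finset.mem_insert_of_mem hp)) i hV hC
    have hP := lift hδ hκ hV
    have hQ := lift hδ hκ' hV
    have hn := (cone_ap hδ hζ.le hκ hV (n := Nat.pair l i)).2 hC
    exact cstep hζ hc hinc hc' hsp hP hQ hn hcmp (ha l i hla)

private theorem St.step {r ρ : Ordinal.{0} → ℕ → ℕ} (hG : Good D r ρ) {δ ν ζ0 ζ : Ordinal.{0}}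
    (hζ : ζ < ω₁) (hδ : δ < ζ) (hν : ν < ζ) (h0 : ζ0 ≤ ζ) {κ κ' : Iio (M.θ δ) → Iio (M.θ ζ)}
    (hκ : κ ∈ M.F δ ζ) (hκ' : κ' ∈ M.F δ ζ) {c c' : Iio (M.θ ζ) → Iio (M.θ (ζ + 1))}
    (hc : c ∈ M.F ζ (ζ + 1)) (hc' : c' ∈ M.F ζ (ζ + 1)) (hs : St D r ρ δ ν ζ0 ζ κ κ') :
    St D r ρ δ ν ζ0 (ζ + 1) (c ∘ κ) (c' ∘ κ') := by
  obtain ⟨i0, hi0, hinc, hall⟩ := succ_form (M := M) hζ
  rcases hall c hc with h1 | ⟨s, h1⟩ <;> rcases hall c' hc' with h2 | ⟨s', h2⟩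
  · rw [h1, h2]
    exact hs.lft (lt1 ζ) hi0
  · rw [h1]
    exact St.mixed hG hζ hδ hν h0 hκ hκ' hi0 hinc hc' h2 hs
  · rw [h2]
    exact (St.mixed hG hζ hδ hν h0 hκ' hκ hi0 hinc hc h1 hs.symm).symm
  · obtain ⟨h3, -⟩ := split_unique hζ hc hc' h1 h2
    rw [h3]
    exact hs.lft (lt1 ζ) hc'

private theorem St.main {r ρ : Ordinal.{0} → ℕ → ℕ} (hG : Good D r ρ) {δ ν ζ0 : Ordinal.{0}}
    (hδ : δ < ζ0) (hν : ν < ζ0) {k : Iio (M.θ δ) → Iio (M.θ ζ0)} (hk : k ∈ M.F δ ζ0)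
    (η : Ordinal.{0}) : ζ0 < η → η ≤ ω₁ → ∀ e ∈ M.F ζ0 η, ∀ e' ∈ M.F ζ0 η,
      St D r ρ δ ν ζ0 η (e ∘ k) (e' ∘ k) := by
  induction η using WellFoundedLT.induction with
  | ind η ih =>
    intro h0 hη e he e' he'
    rcases Ordinal.zero_or_succ_or_isSuccLimit η with hz | ⟨ζ, hz⟩ | hl
    · subst hz
      exact absurd h0 (not_lt.2 zero_le)
    · have hz' : η = ζ + 1 := by rw [← hz, Order.succ_eq_add_one]
      subst hz'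
      have hζ : ζ < ω₁ := lt_of_lt_of_le (lt1 ζ) hη
      have hle : ζ0 ≤ ζ := Order.lt_add_one_iff.1 h0
      rcases hle.eq_or_lt with heq | hlt
      · subst heq
        have hb : St D r ρ δ ν ζ0 ζ0 k k := by
          refine ⟨∅, by simp, by simp, ?_⟩
          intro l _ i hV _
          exact Or.inl (lift hδ hk hV)
        exact St.step hG hζ hδ hν le_rfl hk hk he he' hb
      · obtain ⟨g, hg, c, hc, rfl⟩ := factor hlt (lt1 ζ) hη he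
        obtain ⟨g', hg', c', hc', rfl⟩ := factor hlt (lt1 ζ) hη he'
        have hb := ih ζ (lt1 ζ) hlt hζ.le g hg g' hg'
        exact St.step hG hζ (hδ.trans hlt) (hν.trans hlt) hle (compose hδ hlt hζ.le hk hg)
          (compose hδ hlt hζ.le hk hg') hc hc' hb
    · obtain ⟨γ, h1, -, h2, h, hh, f', hf', g', hg', rfl, rfl⟩ := M.limit η hη hl ζ0 h0 ζ0 h0 e he e' he'
      have hb := ih γ h2 h1 (h2.le.trans hη) f' hf' g' hg'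
      exact hb.lft h2 hh

theorem comp {r ρ : Ordinal.{0} → ℕ → ℕ} (hG : Good D r ρ) (hI : Indep ρ) {δ ν ζ0 : Ordinal.{0}} (hδ : δ < ζ0)
    (hν : ν < ζ0) (hζ0 : ζ0 < ω₁) {k : Iio (M.θ δ) → Iio (M.θ ζ0)} (hk : k ∈ M.F δ ζ0)
    {h h' : Iio (M.θ ζ0) → Iio (M.θ ω₁)} (hh : h ∈ M.F ζ0 ω₁) (hh' : h' ∈ M.F ζ0 ω₁) :
    ∃ l : ℕ, ∀ i : ℕ, R D δ (D.pot δ (r ν (Nat.pair l i))) (D.pot δ (r ν (Nat.pair l i))) →
      Cone (R D δ) (Nat.pair l i) (D.pot δ (r ν (Nat.pair l i))) →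
      Cmp D ω₁ (ap h (ap k (D.pot δ (r ν (Nat.pair l i))))) (ap h' (ap k (D.pot δ (r ν (Nat.pair l i))))) := by
  obtain ⟨q, h1, h2, h3⟩ := St.main hG hδ hν hk ω₁ hζ0 le_rfl h hh h' hh'
  obtain ⟨l, hl⟩ := hI q (fun p hp => (h1 p hp).2) h2
  exact ⟨l, fun i hV hC => h3 l hl i hV hC⟩

end Pool.Agent.Work.MP_6cc3c8_lc
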