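import Pool.Agent.Work.MP_6cc3c8_lc.IA

/-!
# Cones

The cone of a node is the number of the root below it; the maps of the morass keep it.
-/

namespace Pool.Agent.Work.MP_6cc3c8_lc

open Cardinal Ordinal Set

variable {M : Morass} {D : Dat M}

/-- The root of the cone `n` at the stage `η`. -/
def rt (M : Morass) (η : Ordinal.{0}) (n : ℕ) : Nd M η := (⟨0, M.pos η⟩, (0, n))

private theorem cne_zero {α : Ordinal.{0}} (h : α ≤ 0) : α = 0 := le_antisymm h zero_le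

private theorem cne_ap {ζ η : Ordinal.{0}} {f : Iio (M.θ ζ) → Iio (M.θ η)}
    (h : (f ⟨0, M.pos ζ⟩ : Ordinal.{0}) = 0) (n : ℕ) : ap f (rt M ζ n) = rt M η n := by
  unfold ap rt
  exact Prod.ext (Subtype.ext h) rfl

private theorem cne_rt {η : Ordinal.{0}} {a : Nd M η} {n : ℕ} (h : (a.1 : Ordinal.{0}) = 0)
    (h' : a.2 = (0, n)) : a = rt M η n := by
  unfold rt
  exact Prod.ext (Subtype.ext h) h'

private theorem cne_map0 {ζ η : Ordinal.{0}} (h : ζ < η) (hη : η ≤ ω₁) {f : Iio (M.θ ζ) → Iio (M.θ η)}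
    (hf : f ∈ M.F ζ η) {x : Iio (M.θ ζ)} (hx : (f x : Ordinal.{0}) = 0) :
    (x : Ordinal.{0}) = 0 ∧ (f ⟨0, M.pos ζ⟩ : Ordinal.{0}) = 0 := by
  have h1 : (x : Ordinal.{0}) = 0 := cne_zero ((le_map h hη hf x).trans hx.le)
  have h2 : x = ⟨0, M.pos ζ⟩ := Subtype.ext h1
  rw [← h2]
  exact ⟨h1, hx⟩

theorem root {η : Ordinal.{0}} (hη : η ≤ ω₁) (n : ℕ) : R D η (rt M η n) (rt M η n) := by
  induction η using WellFoundedLT.induction with
  | ind η ih =>
    rcases Ordinal.zero_or_succ_or_isSuccLimit η with h0 | ⟨ζ, hζ⟩ | hl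
    · subst h0
      rw [r_zero]
      exact ⟨le_rfl, rfl, rfl⟩
    · rw [Order.succ_eq_add_one] at hζ
      subst hζ
      have hlt : ζ < ζ + 1 := Order.lt_add_one_iff.2 le_rfl
      have hζ1 : ζ < ω₁ := lt_of_lt_of_le hlt hη
      obtain ⟨i, hi, hinc, _⟩ := succ_form (M := M) hζ1
      have h1 := lift hlt hi (ih ζ hlt hζ1.le)
      rwa [cne_ap (hinc _)] at h1
    · have hpos : 0 < η := by
        rcases eq_or_ne η 0 with h | h
        · subst h
          exact absurd isMin_bot hl.not_isMin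
        · exact pos_iff_ne_zero.2 h
      obtain ⟨ζ, hζ, f, hf, x, hx⟩ := M.cover η hpos hη ⟨0, M.pos η⟩
      have h1 := lift hζ hf (ih ζ hζ (hζ.le.trans hη))
      rwa [cne_ap (cne_map0 hζ hη hf (congrArg Subtype.val hx)).2] at h1

theorem cone_iff {η : Ordinal.{0}} {n : ℕ} {a : Nd M η} : Cone (R D η) n a ↔ R D η (rt M η n) a := by
  constructor
  · rintro ⟨b, h1, h2, h3⟩
    rwa [cne_rt h1 h2] at h3
  · intro h
    exact ⟨rt M η n, rfl, rfl, h⟩

theorem zero_name {η : Ordinal.{0}} (hη : η ≤ ω₁) {a : Nd M η} (ha : R D η a a) (h0 : (a.1 : Ordinal.{0}) = 0) :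
    ∃ n, a.2 = (0, n) := by
  induction η using WellFoundedLT.induction with
  | ind η ih =>
    rcases Ordinal.zero_or_succ_or_isSuccLimit η with h | ⟨ζ, hζ⟩ | hl
    · subst h
      rw [r_zero] at ha
      exact ⟨a.2.2, Prod.ext ha.2.2 rfl⟩
    · rw [Order.succ_eq_add_one] at hζ
      subst hζ
      have hlt : ζ < ζ + 1 := Order.lt_add_one_iff.2 le_rfl
      have hζ1 : ζ < ω₁ := lt_of_lt_of_le hlt hη
      have key : ∀ f ∈ M.F ζ (ζ + 1), ∀ c' : Nd M ζ, R D ζ c' c' → a = ap f c' → ∃ n, a.2 = (0, n) := by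
        intro f hf c' hc' hac
        have h1 : (f c'.1 : Ordinal.{0}) = 0 := by
          rw [hac] at h0
          exact h0
        obtain ⟨n, hn⟩ := ih ζ hlt hζ1.le hc' (cne_map0 hlt hη hf h1).1
        exact ⟨n, by rw [hac]; exact hn⟩
      rcases sc_class hζ1 (inv hζ1.le) ha with ⟨i, hi, _, c', hc', hac⟩ | ⟨b, hb, s, _, c', hc', _, hac⟩ | ⟨k, _, _, hk⟩
      · exact key i hi c' hc' hac
      · exact key b hb c' hc' hac
      · rw [h0] at hk
        exact absurd hk (not_lt_of_ge zero_le)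
    · obtain ⟨ζ, hζ, f, hf, a', c', hr, hac, _⟩ := (r_lim hl a a).1 ha
      have hζ1 : ζ ≤ ω₁ := hζ.le.trans hη
      have h1 : (f a'.1 : Ordinal.{0}) = 0 := by
        rw [hac] at h0
        exact h0
      obtain ⟨n, hn⟩ := ih ζ hζ hζ1 ((inv hζ1).refl _ _ hr).1 (cne_map0 hζ hη hf h1).1
      exact ⟨n, by rw [hac]; exact hn⟩

theorem cone_ex {η : Ordinal.{0}} (hη : η ≤ ω₁) {a : Nd M η} (ha : R D η a a) : ∃ n, Cone (R D η) n a := by
  obtain ⟨x, hx, hx1⟩ := (inv hη).ex a ha ⟨0, M.pos η⟩ (show (0 : Ordinal.{0}) ≤ (a.1 : Ordinal.{0}) from zero_le)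
  have hx0 : (x.1 : Ordinal.{0}) = 0 := congrArg Subtype.val hx1
  obtain ⟨n, hn⟩ := zero_name hη ((inv hη).refl _ _ hx).1 hx0
  exact ⟨n, x, hx0, hn, hx⟩

theorem cone_up {η : Ordinal.{0}} (hη : η ≤ ω₁) {a c : Nd M η} (hr : R D η a c) {n : ℕ} :
    Cone (R D η) n a ↔ Cone (R D η) n c := by
  rw [cone_iff, cone_iff]
  constructor
  · intro h
    exact (inv hη).trans _ _ _ h hr
  · intro h
    exact down hη h hr (show (0 : Ordinal.{0}) ≤ (a.1 : Ordinal.{0}) from zero_le)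

private theorem cne_step {ξ : Ordinal.{0}} (hξ : ξ < ω₁) {c : Iio (M.θ ξ) → Iio (M.θ (ξ + 1))}
    (hc : c ∈ M.F ξ (ξ + 1)) {m : ℕ} {a : Nd M ξ} (ha : R D ξ (rt M ξ m) a) :
    R D (ξ + 1) (rt M (ξ + 1) m) (ap c a) := by
  have hlt : ξ < ξ + 1 := Order.lt_add_one_iff.2 le_rfl
  obtain ⟨i, hi, hinc, hall⟩ := succ_form (M := M) hξ
  rcases hall c hc with h | ⟨s, hs⟩
  · have h1 := lift hlt hc ha
    have h0 : (c ⟨0, M.pos ξ⟩ : Ordinal.{0}) = 0 := by
      rw [h]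
      exact hinc _
    rwa [cne_ap h0] at h1
  · rcases eq_or_ne (s : Ordinal.{0}) 0 with h0 | h0
    · rw [sc_right hξ (inv hξ.le) hc hs a ((inv hξ.le).birth _ _ ha).2 (rt M ξ m) ha
        (Subtype.ext h0.symm)]
      right
      refine ⟨le_rfl, M.pos ξ, Or.inl ⟨rt M ξ m, spec_ge hξ (inv hξ.le) (root hξ.le m), rfl, rfl⟩⟩
    · have h1 := lift hlt hc ha
      have h2 : (⟨0, M.pos ξ⟩ : Iio (M.θ ξ)) < s := by
        change (0 : Ordinal.{0}) < s
        exact pos_iff_ne_zero.2 h0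
      rwa [cne_ap (hs.1 _ h2)] at h1

private theorem cne_key {η : Ordinal.{0}} (hη : η ≤ ω₁) : ∀ {ζ : Ordinal.{0}}, ζ < η →
    ∀ {f : Iio (M.θ ζ) → Iio (M.θ η)}, f ∈ M.F ζ η → ∀ m : ℕ,
    R D η (rt M η m) (ap f (rt M ζ m)) := by
  induction η using WellFoundedLT.induction with
  | ind η ih =>
    intro ζ hζ f hf m
    rcases Ordinal.zero_or_succ_or_isSuccLimit η with h | ⟨ξ, hξ⟩ | hl
    · subst h
      exact absurd hζ (not_lt_of_ge zero_le)
    · rw [Order.succ_eq_add_one] at hξ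
      subst hξ
      have hlt : ξ < ξ + 1 := Order.lt_add_one_iff.2 le_rfl
      have hξ1 : ξ < ω₁ := lt_of_lt_of_le hlt hη
      rcases eq_or_lt_of_le (Order.lt_add_one_iff.1 hζ) with h | h
      · subst h
        exact cne_step hξ1 hf (root hξ1.le m)
      · obtain ⟨g, hg, k, hk, rfl⟩ := factor h hlt hη hf
        exact cne_step hξ1 hk (ih ξ hlt hξ1.le h hg m)
    · have hpos : 0 < η := lt_of_le_of_lt zero_le hζ
      obtain ⟨ξ, hξ, g, hg, x, hx⟩ := M.cover η hpos hη ⟨0, M.pos η⟩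
      obtain ⟨γ, h1, h2, h3, h, hh, f', hf', g', hg', hf2, hg2⟩ := M.limit η hη hl ζ hζ ξ hξ f hf g hg
      have h4 : (h (g' x) : Ordinal.{0}) = 0 := by
        have h5 : g x = h (g' x) := by rw [hg2]; rfl
        rw [← h5, hx]
      have h6 := lift h3 hh (ih γ h3 (h3.le.trans hη) h1 hf' m)
      rw [cne_ap (cne_map0 h3 hη hh h4).2] at h6
      rw [hf2]
      exact h6

theorem cone_ap {ζ η : Ordinal.{0}} (h : ζ < η) (hη : η ≤ ω₁) {f : Iio (M.θ ζ) → Iio (M.θ η)} (hf : f ∈ M.F ζ η)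
    {a : Nd M ζ} (ha : R D ζ a a) {n : ℕ} : Cone (R D η) n (ap f a) ↔ Cone (R D ζ) n a := by
  have hζ : ζ ≤ ω₁ := h.le.trans hη
  have h1 : ∀ m, Cone (R D ζ) m a → Cone (R D η) m (ap f a) := by
    intro m hm
    rw [cone_iff] at hm ⊢
    exact (inv hη).trans _ _ _ (cne_key hη h hf m) (lift h hf hm)
  constructor
  · intro hn
    obtain ⟨m, hm⟩ := cone_ex hζ ha
    rwa [cone_unique (inv hη) hn (h1 m hm)]
  · exact h1 n

end Pool.Agent.Work.MP_6cc3c8_lc
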