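import Pool.Agent.Work.MP_6cc3c8_lc.Cap

/-!
# There are few restrictions of the maps `f ∈ F δ ω₁` with bounded values.  Size: M.

`β < ω_ 2 = θ ω₁` (`M.top`).  For every `ζ < ω₁` fix `h ζ ∈ F ζ ω₁` with `β ∈ range (h ζ)` if there is one (any function otherwise).  Let `f, x` be as in the
set, `φ = cut f x`.  The set `C = {f z | z < x}` is countable (`θ δ < ω₁` is countable), its elements are `≤ β`; `cap` with `τ = β` gives a `ζ` with `δ < ζ < ω₁`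
such that `h ζ ∈ F ζ ω₁`, `β ∈ range (h ζ)` and `C ⊆ range (h ζ)`.  `factor`: `f = k ∘ e`, `e ∈ F δ ζ`, `k ∈ F ζ ω₁`.  For `z < x`: `k (e z) = f z = h ζ w` for
some `w`, so `e z = w` (`agree`), `f z = h ζ (e z)`.  So `φ = cut (h ζ ∘ e) x`.  Hence the set is contained in the union over `ζ < ω₁`, `e ∈ F δ ζ`
(countable) and `x < θ δ` (countable) of singletons, of cardinality `≤ ℵ₁` (e.g. it is the image of a subset of a set of cardinality `≤ ℵ₁`;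
`#(Iio ω₁) = ℵ₁` by `Cardinal.mk_Iio_ordinal`; `Cardinal.mk_iUnion_le`, `Cardinal.mk_biUnion_le`).
-/

namespace Pool.Agent.Work.MP_6cc3c8_lc

open Cardinal Ordinal Set

variable {M : Morass}

private lemma countable_Iio {o : Ordinal.{0}} (h : o < ω₁) : (Iio o).Countable := by
  have h1 : o.card < ℵ₁ := by
    have h2 : o < (ℵ₁ : Cardinal.{0}).ord := by simpa using h
    exact Cardinal.lt_ord.mp h2
  have h3 : o.card ≤ ℵ₀ := by
    rw [← Cardinal.succ_aleph0] at h1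
    exact Order.lt_succ_iff.mp h1
  rw [← Cardinal.le_aleph0_iff_set_countable, Cardinal.mk_Iio_ordinal, Cardinal.lift_le_aleph0]
  exact h3

theorem cnt (δ : Ordinal.{0}) (hδ : δ < ω₁) (β : Ordinal.{0}) (hβ : β < ω_ 2) :
    #{φ : Ordinal.{0} → Ordinal.{0} | ∃ f ∈ M.F δ ω₁, ∃ x : Ordinal.{0}, x < M.θ δ ∧
      (∀ z : Iio (M.θ δ), (z : Ordinal.{0}) < x → (f z : Ordinal.{0}) ≤ β) ∧ φ = cut f x} ≤ ℵ₁ := by
  classical
  have hβ' : β < M.θ ω₁ := by rw [M.top]; exact hβ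
  have h0 : ∀ ζ : Ordinal.{0}, ∃ h : Iio (M.θ ζ) → Iio (M.θ ω₁),
      (∃ f ∈ M.F ζ ω₁, (⟨β, hβ'⟩ : Iio (M.θ ω₁)) ∈ range f) →
        h ∈ M.F ζ ω₁ ∧ (⟨β, hβ'⟩ : Iio (M.θ ω₁)) ∈ range h := by
    intro ζ
    by_cases hz : ∃ f ∈ M.F ζ ω₁, (⟨β, hβ'⟩ : Iio (M.θ ω₁)) ∈ range f
    · obtain ⟨f, hf, hr⟩ := hz
      exact ⟨f, fun _ => ⟨hf, hr⟩⟩
    · exact ⟨fun _ => ⟨β, hβ'⟩, fun h => absurd h hz⟩
  choose h hh using h0
  have hcδ : (Iio (M.θ δ)).Countable := countable_Iio (M.small δ hδ)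
  let G : Iio ω₁ → Set (Ordinal.{0} → Ordinal.{0}) := fun ζ =>
    {φ | δ < ζ.1 ∧ ∃ e ∈ M.F δ ζ.1, ∃ x : Ordinal.{0}, x < M.θ δ ∧ φ = cut (h ζ.1 ∘ e) x}
  have hG : ∀ ζ : Iio ω₁, (G ζ).Countable := by
    intro ζ
    by_cases hz : δ < ζ.1
    · have h1 : ((M.F δ ζ.1) ×ˢ (Iio (M.θ δ))).Countable :=
        (M.countable δ ζ.1 hz ζ.2).prod hcδ
      refine (h1.image (fun p => cut (h ζ.1 ∘ p.1) p.2)).mono ?_
      rintro φ ⟨_, e, he, x, hx, rfl⟩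
      exact ⟨(e, x), ⟨he, hx⟩, rfl⟩
    · refine countable_empty.mono ?_
      rintro φ ⟨hz', _⟩
      exact absurd hz' hz
  have hsub : {φ : Ordinal.{0} → Ordinal.{0} | ∃ f ∈ M.F δ ω₁, ∃ x : Ordinal.{0}, x < M.θ δ ∧
      (∀ z : Iio (M.θ δ), (z : Ordinal.{0}) < x → (f z : Ordinal.{0}) ≤ β) ∧ φ = cut f x} ⊆ ⋃ ζ, G ζ := by
    rintro φ ⟨f, hf, x, hx, hle, rfl⟩
    let C : Set (Iio (M.θ ω₁)) := {c | ∃ z : Iio (M.θ δ), (z : Ordinal.{0}) < x ∧ f z = c}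
    have hC : C.Countable := by
      have h1 : (univ : Set (Iio (M.θ δ))).Countable := by
        have : Countable (Iio (M.θ δ)) := hcδ.to_subtype
        exact countable_univ
      refine (h1.image f).mono ?_
      rintro c ⟨z, _, rfl⟩
      exact ⟨z, mem_univ z, rfl⟩
    obtain ⟨ζ₀, hζ₀, hcap⟩ := cap C hC ⟨β, hβ'⟩ (by
      rintro c ⟨z, hz, rfl⟩
      exact hle z hz)
    have hlim : Order.IsSuccLimit (ω₁ : Ordinal.{0}) := by
      simpa using Cardinal.isSuccLimit_omega 1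
    have hd : Order.succ δ < ω₁ := hlim.succ_lt hδ
    let ζ : Ordinal.{0} := max ζ₀ (Order.succ δ)
    have hζ : ζ < ω₁ := max_lt hζ₀ hd
    have hδζ : δ < ζ := lt_of_lt_of_le (Order.lt_succ δ) (le_max_right _ _)
    obtain ⟨hex, hall⟩ := hcap ζ (le_max_left _ _) hζ
    obtain ⟨hF, hr⟩ := hh ζ hex
    have hCr := hall (h ζ) hF hr
    obtain ⟨e, he, k, hk, hfk⟩ := factor hδζ hζ le_rfl hf
    refine mem_iUnion.mpr ⟨⟨ζ, hζ⟩, hδζ, e, he, x, hx, ?_⟩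
    funext z
    unfold cut
    by_cases hz : z < x ∧ z < M.θ δ
    · rw [dif_pos hz, dif_pos hz]
      have h1 : f ⟨z, hz.2⟩ ∈ range (h ζ) := hCr ⟨⟨z, hz.2⟩, hz.1, rfl⟩
      obtain ⟨w, hw⟩ := h1
      have h2 : k (e ⟨z, hz.2⟩) = h ζ w := by
        rw [hw, hfk]; rfl
      have h3 := (agree hζ le_rfl hk hF h2).1
      show ((f ⟨z, hz.2⟩ : Iio (M.θ ω₁)) : Ordinal.{0}) = (h ζ (e ⟨z, hz.2⟩) : Ordinal.{0})
      rw [h3, hw]
    · rw [dif_neg hz, dif_neg hz]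
  refine (Cardinal.mk_le_mk_of_subset hsub).trans ?_
  refine (Cardinal.mk_iUnion_le G).trans ?_
  have h1 : #(Iio (ω₁ : Ordinal.{0})) = ℵ₁ := by
    rw [Cardinal.mk_Iio_ordinal]; simp
  have h2 : (⨆ i, #(G i)) ≤ ℵ₀ := by
    refine ciSup_le' ?_
    intro i
    exact Cardinal.le_aleph0_iff_set_countable.mpr (hG i)
  rw [h1]
  calc ℵ₁ * (⨆ i, #(G i)) ≤ ℵ₁ * ℵ₁ := by
        exact mul_le_mul' le_rfl (h2.trans Cardinal.aleph0_lt_aleph_one.le)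
    _ = ℵ₁ := Cardinal.mul_eq_self Cardinal.aleph0_lt_aleph_one.le

end Pool.Agent.Work.MP_6cc3c8_lc
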