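import Pool.Agent.Work.MP_6cc3c8_lc.Base

/-!
# The trees built along a morass: definitions (FIXED)
-/

namespace Pool.Agent.Work.MP_6cc3c8_lc

open Cardinal Ordinal Set

/-- Nodes (level, name) of the stage `ζ`; a name is (birth, number). -/
abbrev Nd (M : Morass) (ζ : Ordinal.{0}) := Iio (M.θ ζ) × (Ordinal.{0} × ℕ)

variable {M : Morass}

/-- The map of nodes given by a map of levels; names are kept. -/
def ap {ζ η : Ordinal.{0}} (f : Iio (M.θ ζ) → Iio (M.θ η)) (a : Nd M ζ) : Nd M η := (f a.1, a.2)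

/-- Inclusion map. -/
def IsInc {ζ η : Ordinal.{0}} (i : Iio (M.θ ζ) → Iio (M.θ η)) : Prop := ∀ x, (i x : Ordinal.{0}) = x

/-- Right map with splitting point `s`. -/
def IsSplit {ζ η : Ordinal.{0}} (b : Iio (M.θ ζ) → Iio (M.θ η)) (s : Iio (M.θ ζ)) : Prop :=
  (∀ x < s, (b x : Ordinal.{0}) = x) ∧ M.θ ζ ≤ b s

/-- Enumerations of the possible nodes, and the guesses (indices). -/
structure Dat (M : Morass) where
  pot : (ζ : Ordinal.{0}) → ℕ → Nd M ζ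
  gs : Ordinal.{0} → ℕ → ℕ
  hpot : ∀ ζ, ζ < ω₁ → ∀ a : Nd M ζ, a.2.1 ≤ ζ → ∃ k, pot ζ k = a

/-- `u` is a node of the cone `n`, with respect to the relation `r`. -/
def Cone {ζ : Ordinal.{0}} (r : Nd M ζ → Nd M ζ → Prop) (n : ℕ) (u : Nd M ζ) : Prop :=
  ∃ a : Nd M ζ, (a.1 : Ordinal.{0}) = 0 ∧ a.2 = (0, n) ∧ r a u

open Classical in
/-- The index of the node to which the copies climb, above `u`. -/
noncomputable def spec (D : Dat M) (ζ : Ordinal.{0}) (r : Nd M ζ → Nd M ζ → Prop) (u : Nd M ζ) : ℕ :=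
  if h : ∃ n, Cone r n u ∧ r u (D.pot ζ (D.gs ζ n)) then D.gs ζ h.choose
  else if h' : ∃ k, D.pot ζ k = u then h'.choose else 0

/-- Same level (as an ordinal) and same name. -/
def Same {ζ η : Ordinal.{0}} (a : Nd M ζ) (b : Nd M η) : Prop := (a.1 : Ordinal.{0}) = b.1 ∧ a.2 = b.2

/-- The predecessors (on the left levels) of a right node which passes through the node `u` of the
splitting level: up to the node `P = pot k`, `k = spec u`, then along the new chain over `P`. -/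
def Cr (D : Dat M) (ζ η : Ordinal.{0}) (r : Nd M ζ → Nd M ζ → Prop) (u : Nd M ζ) (a : Nd M η) : Prop :=
  (u.1 : Ordinal.{0}) ≤ a.1 ∧ (a.1 : Ordinal.{0}) < M.θ ζ ∧
    ((∃ a', r a' (D.pot ζ (spec D ζ r u)) ∧ Same a a') ∨
      (((D.pot ζ (spec D ζ r u)).1 : Ordinal.{0}) < a.1 ∧ a.2 = (η, spec D ζ r u)))

/-- The crossing relation at a successor stage. -/
def Cross (D : Dat M) (ζ η : Ordinal.{0}) (r : Nd M ζ → Nd M ζ → Prop) (a c : Nd M η) : Prop :=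
  ∃ b ∈ M.F ζ η, ∃ s : Iio (M.θ ζ), IsSplit b s ∧
    ∃ u c' : Nd M ζ, u.1 = s ∧ r u c' ∧ c = ap b c' ∧ Cr D ζ η r u a

/-- The predecessors of the nodes of the new chains at a successor stage. -/
def New (D : Dat M) (ζ η : Ordinal.{0}) (r : Nd M ζ → Nd M ζ → Prop) (a c : Nd M η) : Prop :=
  ∃ k : ℕ, r (D.pot ζ k) (D.pot ζ k) ∧ c.2 = (η, k) ∧ ((D.pot ζ k).1 : Ordinal.{0}) < c.1 ∧
    ((∃ a', r a' (D.pot ζ k) ∧ Same a a') ∨
      (a.2 = (η, k) ∧ ((D.pot ζ k).1 : Ordinal.{0}) < a.1 ∧ a.1 ≤ c.1))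

/-- The tree order of the stage `η`. -/
def R (D : Dat M) (η : Ordinal.{0}) : Nd M η → Nd M η → Prop := fun a c =>
  (η = 0 ∧ a.1 ≤ c.1 ∧ a.2 = c.2 ∧ c.2.1 = 0) ∨
  (∃ ζ, ∃ _ : ζ < η, ∃ f ∈ M.F ζ η, ∃ a' c', R D ζ a' c' ∧ a = ap f a' ∧ c = ap f c') ∨
  (∃ ζ, ∃ _ : η = ζ + 1, Cross D ζ η (R D ζ) a c) ∨
  (∃ ζ, ∃ _ : η = ζ + 1, New D ζ η (R D ζ) a c)
termination_by η
decreasing_by
  · assumption
  · have h : η = ζ + 1 := by assumption
    rw [h]; exact Order.lt_add_one_iff.mpr le_rfl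
  · have h : η = ζ + 1 := by assumption
    rw [h]; exact Order.lt_add_one_iff.mpr le_rfl

/-- `R D η` is a tree order: every node `c` has exactly one predecessor on every level `≤ c.1`. -/
structure Inv (D : Dat M) (η : Ordinal.{0}) : Prop where
  lev : ∀ a c, R D η a c → a.1 ≤ c.1
  birth : ∀ a c, R D η a c → a.2.1 ≤ η ∧ c.2.1 ≤ η
  refl : ∀ a c, R D η a c → R D η a a ∧ R D η c c
  uniq : ∀ a a' c, R D η a c → R D η a' c → a.1 = a'.1 → a = a'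
  ex : ∀ c, R D η c c → ∀ y ≤ c.1, ∃ a, R D η a c ∧ a.1 = y
  trans : ∀ a b c, R D η a b → R D η b c → R D η a c

/-- Comparable nodes of the stage `η`. -/
def Cmp (D : Dat M) (η : Ordinal.{0}) (a b : Nd M η) : Prop := R D η a b ∨ R D η b a

/-- `f` restricted to the ordinals `< x`, as a function on all ordinals. -/
noncomputable def cut {ζ η : Ordinal.{0}} (f : Iio (M.θ ζ) → Iio (M.θ η)) (x : Ordinal.{0}) :
    Ordinal.{0} → Ordinal.{0} := fun z => open Classical in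
  if h : z < x ∧ z < M.θ ζ then (f ⟨z, h.2⟩ : Ordinal.{0}) else 0

/-- The guesses are correct: the task `(ν, δ, e)` of the stage `ζ` has a number `a`; if `ρ ζ l = a` then in all
cones `pair l i` the guess is `e (pot δ (r ν (pair l i)))`. -/
def Good (D : Dat M) (r ρ : Ordinal.{0} → ℕ → ℕ) : Prop :=
  ∀ ζ, ζ < ω₁ → ∀ ν < ζ, ∀ δ < ζ, ∀ e ∈ M.F δ ζ, ∃ a : ℕ, ∀ l i : ℕ, ρ ζ l = a →
    D.pot ζ (D.gs ζ (Nat.pair l i)) = ap e (D.pot δ (r ν (Nat.pair l i)))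

/-- Independence of the functions `ρ ζ`, `ζ < ω₁`. -/
def Indep (ρ : Ordinal.{0} → ℕ → ℕ) : Prop :=
  ∀ q : Finset (Ordinal.{0} × ℕ), (∀ p ∈ q, p.1 < ω₁) → (∀ p ∈ q, ∀ p' ∈ q, p.1 = p'.1 → p = p') →
    ∃ l : ℕ, ∀ p ∈ q, ρ p.1 l = p.2

/-- Maximal antichains of size `ℵ₂` in all cones (the levels are unbounded). -/
structure Adv (D : Dat M) (B : ℕ → Set (Nd M ω₁)) : Prop where
  mem : ∀ n, ∀ b ∈ B n, R D ω₁ b b ∧ Cone (R D ω₁) n b
  anti : ∀ n, ∀ b ∈ B n, ∀ b' ∈ B n, R D ω₁ b b' → b = b'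
  max : ∀ n a, R D ω₁ a a → Cone (R D ω₁) n a → ∃ b ∈ B n, Cmp D ω₁ a b
  unb : ∀ n, ∀ γ : Iio (M.θ ω₁), ∃ b ∈ B n, γ ≤ b.1

/-- The nodes of level `x` of the cone `n` of the stage `δ` which are above no node `b` of level `< x` with
`f b ∈ B n`. -/
def U (D : Dat M) (B : ℕ → Set (Nd M ω₁)) {δ : Ordinal.{0}} (f : Iio (M.θ δ) → Iio (M.θ ω₁))
    (x : Iio (M.θ δ)) (n : ℕ) : Set (Nd M δ) :=
  {v | R D δ v v ∧ Cone (R D δ) n v ∧ v.1 = x ∧ ∀ b, R D δ b v → b.1 < x → ap f b ∉ B n}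

end Pool.Agent.Work.MP_6cc3c8_lc
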