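import Pool.Agent.Work.MP_6cc3c8_lc.Ind

/-!
# Existence of the guesses.  Size: M.

`ρ` from `ind`.  For `ζ < ω₁` the set `{a : Nd M ζ | a.2.1 ≤ ζ}` is countable (`θ ζ < ω₁`, `ζ < ω₁`, `ℕ` are countable) and nonempty (`M.pos`; `(⟨0, _⟩, (0, 0))`); let `pot ζ : ℕ → Nd M ζ` have exactly this range; for other `ζ` let
`pot ζ` be constant.  For `ζ < ω₁` the tasks `(ν, δ, e)`, `ν < ζ`, `δ < ζ`, `e ∈ F δ ζ`, form a countable type (`Σ (_ : Iio ζ) (δ : Iio ζ), M.F δ ζ`, `M.countable`), so there is an injective numbering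
`num ζ` of the tasks by natural numbers.  For `n : ℕ`, `l = n.unpair.1`, let `gs ζ n` be some `k` such that there is a task `(ν, δ, e)` with `num ζ (ν, δ, e) = ρ ζ l` and `pot ζ k = ap e (pot δ (r ν n))`, if there is such a `k`
(and `0` otherwise, and for `ζ ≥ ω₁`).
`Good`: let `a = num ζ (ν, δ, e)`, `ρ ζ l = a`, `n = Nat.pair l i`, `n.unpair.1 = l`.  The birth of `ap e (pot δ (r ν n))` is that of `pot δ (..)`, `≤ δ ≤ ζ`, so there is such a `k` (with this task); and for the chosen `k` the task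
has the number `ρ ζ l = a`, so it is `(ν, δ, e)` (injectivity; the task is an element of a sigma type, use `obtain rfl` / `Sigma.mk.inj`), hence `pot ζ (gs ζ n) = ap e (pot δ (r ν n))`.
-/

namespace Pool.Agent.Work.MP_6cc3c8_lc

open Cardinal Ordinal Set

private theorem dex_cnt {o : Ordinal.{0}} (ho : o < ω₁) : Countable (Iio o) := by
  rw [← Cardinal.mk_le_aleph0_iff, Cardinal.mk_Iio_ordinal]
  have h1 : o.card ≤ ℵ₀ := by
    have h2 : o.card < ℵ₁ := by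
      rw [← Cardinal.ord_aleph] at ho
      exact Cardinal.lt_ord.mp ho
    rw [← Cardinal.succ_aleph0] at h2
    exact Order.lt_succ_iff.mp h2
  exact Cardinal.lift_le_aleph0.mpr h1

/-- The tasks of the stage `ζ`. -/
private abbrev dexT (M : Morass) (ζ : Ordinal.{0}) := Iio ζ × (Σ δ : Iio ζ, M.F δ ζ)

private theorem dexT_cnt (M : Morass) {ζ : Ordinal.{0}} (h : ζ < ω₁) : Countable (dexT M ζ) := by
  have := dex_cnt h
  have : ∀ δ : Iio ζ, Countable (M.F δ ζ) := fun δ => (M.countable δ ζ δ.2 h).to_subtype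
  infer_instance

private theorem dex_pot (M : Morass) (ζ : Ordinal.{0}) :
    ∃ p : ℕ → Nd M ζ, ζ < ω₁ → {a : Nd M ζ | a.2.1 ≤ ζ} = range p := by
  by_cases h : ζ < ω₁
  · have hc : {a : Nd M ζ | a.2.1 ≤ ζ}.Countable := by
      have := dex_cnt (M.small ζ h)
      have h1 : (Iic ζ).Countable := by
        have h2 : Iic ζ = insert ζ (Iio ζ) := by
          ext x
          simp [le_iff_eq_or_lt]
        rw [h2]
        have := dex_cnt h
        exact (Set.to_countable (Iio ζ)).insert ζ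
      have h3 : ((univ : Set (Iio (M.θ ζ))) ×ˢ ((Iic ζ) ×ˢ (univ : Set ℕ))).Countable :=
        (Set.countable_univ).prod (h1.prod Set.countable_univ)
      refine h3.mono ?_
      intro a ha
      simp only [mem_prod, mem_univ, true_and, and_true, mem_Iic]
      exact ha
    have hn : {a : Nd M ζ | a.2.1 ≤ ζ}.Nonempty := ⟨(⟨0, M.pos ζ⟩, (0, 0)), (zero_le : (0 : Ordinal.{0}) ≤ ζ)⟩
    obtain ⟨p, hp⟩ := hc.exists_eq_range hn
    exact ⟨p, fun _ => hp⟩
  · exact ⟨fun _ => (⟨0, M.pos ζ⟩, (0, 0)), fun h' => absurd h' h⟩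

private theorem dex_num (M : Morass) (ζ : Ordinal.{0}) :
    ∃ f : dexT M ζ → ℕ, ζ < ω₁ → Function.Injective f := by
  by_cases h : ζ < ω₁
  · have := dexT_cnt M h
    obtain ⟨f, hf⟩ := Countable.exists_injective_nat (dexT M ζ)
    exact ⟨f, fun _ => hf⟩
  · exact ⟨fun _ => 0, fun h' => absurd h' h⟩

theorem dex (M : Morass) (r : Ordinal.{0} → ℕ → ℕ) :
    ∃ (D : Dat M) (ρ : Ordinal.{0} → ℕ → ℕ), Good D r ρ ∧ Indep ρ := by
  classical
  obtain ⟨ρ, hρ⟩ := ind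
  choose pot hpot using dex_pot M
  choose num hnum using dex_num M
  let Q : Ordinal.{0} → ℕ → ℕ → Prop := fun ζ n k =>
    ∃ t : dexT M ζ, num ζ t = ρ ζ n.unpair.1 ∧ pot ζ k = ap t.2.2.1 (pot t.2.1 (r t.1 n))
  let gs : Ordinal.{0} → ℕ → ℕ := fun ζ n => if h : ∃ k, Q ζ n k then h.choose else 0
  have hgs : ∀ ζ n, (∃ k, Q ζ n k) → Q ζ n (gs ζ n) := by
    intro ζ n h
    have : gs ζ n = h.choose := by simp only [gs, dif_pos h]
    rw [this]
    exact h.choose_spec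
  let D : Dat M := ⟨pot, gs, by
    intro ζ hζ a ha
    have h1 : a ∈ {a : Nd M ζ | a.2.1 ≤ ζ} := ha
    rw [hpot ζ hζ] at h1
    exact h1⟩
  refine ⟨D, ρ, ?_, hρ⟩
  intro ζ hζ ν hν δ hδ e he
  let t₀ : dexT M ζ := (⟨ν, hν⟩, ⟨⟨δ, hδ⟩, ⟨e, he⟩⟩)
  refine ⟨num ζ t₀, ?_⟩
  intro l i hl
  have hQ : ∃ k, Q ζ (Nat.pair l i) k := by
    have h1 : (pot δ (r ν (Nat.pair l i))).2.1 ≤ δ := by
      have h2 : pot δ (r ν (Nat.pair l i)) ∈ range (pot δ) := ⟨_, rfl⟩
      rw [← hpot δ (hδ.trans hζ)] at h2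
      exact h2
    have h3 : ap e (pot δ (r ν (Nat.pair l i))) ∈ {a : Nd M ζ | a.2.1 ≤ ζ} := h1.trans hδ.le
    rw [hpot ζ hζ] at h3
    obtain ⟨k, hk⟩ := h3
    exact ⟨k, t₀, by rw [Nat.unpair_pair]; exact hl.symm, hk⟩
  obtain ⟨t, ht, hk⟩ := hgs ζ _ hQ
  rw [Nat.unpair_pair] at ht
  have h4 : t = t₀ := hnum ζ hζ (ht.trans hl)
  subst h4
  exact hk

end Pool.Agent.Work.MP_6cc3c8_lc
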