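import Mathlib

/-!
# Non-meagre sets.  Size: S-M.  Pure Mathlib.

`hit`: otherwise `S ⊆ ⋃ l, A l`, `A l = {s | ∀ i, s (pair l i) ≠ y (pair l i)}`.  `A l` is closed (intersection of the preimages of `{y (pair l i)}ᶜ` under the continuous evaluations; `ℕ` is discrete), and its interior is
empty: a nonempty open set contains, with some `s`, all `s'` which agree with `s` on a finite set `I` of coordinates (`isOpen_pi_iff`); choose `i` with `pair l i ∉ I` (`i ↦ pair l i` is injective) and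
`s' = Function.update s (pair l i) (y (pair l i))`.  So `A l` is nowhere dense, hence meagre; `S` is meagre (`isMeagre_iUnion`, `IsMeagre.mono`).
`enum`: `S` is nonempty (the empty set is meagre: `IsMeagre.empty`), `#S ≤ ℵ₁ = #(Iio ω₁)` (`Cardinal.mk_Iio_ordinal`, `lift`), so there is `r : Ordinal → ℕ → ℕ` with `S ⊆ {r ν | ν < ω₁}` (a surjection from `Iio ω₁` onto `S`, extended by
a constant); apply `hit`.
-/

namespace Pool.Agent.Work.MP_6cc3c8_lc

open Cardinal Ordinal Set

theorem hit {S : Set (ℕ → ℕ)} (hS : ¬ IsMeagre S) (y : ℕ → ℕ) :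
    ∃ s ∈ S, ∀ l, ∃ i, s (Nat.pair l i) = y (Nat.pair l i) := by
  by_contra hcon
  push Not at hcon
  apply hS
  have hnd : ∀ l : ℕ, IsMeagre {s : ℕ → ℕ | ∀ i, s (Nat.pair l i) ≠ y (Nat.pair l i)} := by
    intro l
    have hcl : IsClosed {s : ℕ → ℕ | ∀ i, s (Nat.pair l i) ≠ y (Nat.pair l i)} := by
      rw [ofPred_forall]
      apply isClosed_iInter
      intro i
      have : {s : ℕ → ℕ | s (Nat.pair l i) ≠ y (Nat.pair l i)}
          = (fun s : ℕ → ℕ => s (Nat.pair l i)) ⁻¹' {y (Nat.pair l i)}ᶜ := by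
        ext s; simp
      rw [this]
      exact (isClosed_discrete _).preimage (continuous_apply _)
    apply IsNowhereDense.isMeagre
    rw [hcl.isNowhereDense_iff]
    rw [Set.eq_empty_iff_forall_notMem]
    intro s hs
    rw [mem_interior] at hs
    obtain ⟨V, hV, hVo, hsV⟩ := hs
    rw [isOpen_pi_iff] at hVo
    obtain ⟨I, u, hu, hI⟩ := hVo s hsV
    have hinj : Function.Injective (fun i => Nat.pair l i) := by
      intro a b hab
      have := Nat.pair_eq_pair.mp hab
      exact this.2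
    obtain ⟨i, hi⟩ : ∃ i, Nat.pair l i ∉ I := by
      by_contra hc
      push Not at hc
      have : (Set.range (fun i => Nat.pair l i)).Infinite := Set.infinite_range_of_injective hinj
      exact this (I.finite_toSet.subset (by rintro _ ⟨i, rfl⟩; exact hc i))
    have hmem : Function.update s (Nat.pair l i) (y (Nat.pair l i)) ∈ V := by
      apply hI
      intro j hj
      have hne : j ≠ Nat.pair l i := by
        rintro rfl; exact hi hj
      rw [Function.update_of_ne hne]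
      exact (hu j hj).2
    have := hV hmem
    exact this i (by simp)
  refine IsMeagre.mono ?_ (isMeagre_iUnion hnd)
  intro s hs
  obtain ⟨l, hl⟩ := hcon s hs
  exact mem_iUnion.mpr ⟨l, hl⟩

theorem enum {S : Set (ℕ → ℕ)} (hS : ¬ IsMeagre S) (hc : #S ≤ ℵ₁) :
    ∃ r : Ordinal.{0} → ℕ → ℕ, ∀ y : ℕ → ℕ, ∃ ν, ν < ω₁ ∧ ∀ l, ∃ i, r ν (Nat.pair l i) = y (Nat.pair l i) := by
  classical
  have hne : S.Nonempty := by
    by_contra h
    rw [Set.not_nonempty_iff_eq_empty] at h
    apply hS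
    rw [h]
    exact IsMeagre.empty
  obtain ⟨s₀, hs₀⟩ := hne
  have hle : Cardinal.lift.{1} #S ≤ Cardinal.lift.{0} #(Iio ω₁) := by
    rw [Cardinal.mk_Iio_ordinal]
    simp only [Ordinal.card_omega, Cardinal.lift_aleph, Ordinal.lift_one]
    calc Cardinal.lift.{1} #S ≤ Cardinal.lift.{1} (ℵ₁ : Cardinal.{0}) := Cardinal.lift_le.mpr hc
      _ = _ := by simp
  obtain ⟨f⟩ := Cardinal.lift_mk_le'.mp hle
  have hsurj : ∃ g : Iio ω₁ → S, Function.Surjective g := by
    have : Nonempty S := ⟨⟨s₀, hs₀⟩⟩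
    exact ⟨Function.invFun f, Function.invFun_surjective f.injective⟩
  obtain ⟨g, hg⟩ := hsurj
  refine ⟨fun ν => if h : ν < ω₁ then (g ⟨ν, h⟩ : ℕ → ℕ) else s₀, ?_⟩
  intro y
  obtain ⟨s, hs, hsy⟩ := hit hS y
  obtain ⟨⟨ν, hν⟩, hgν⟩ := hg ⟨s, hs⟩
  refine ⟨ν, hν, ?_⟩
  intro l
  obtain ⟨i, hi⟩ := hsy l
  refine ⟨i, ?_⟩
  have hν' : ν < ω₁ := hν
  simp only [hν', dif_pos]
  rw [hgν]
  exact hi

end Pool.Agent.Work.MP_6cc3c8_lc
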