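import Pool.Agent.Work.MP_6cc3c8_lc.Defs

/-!
# Small copies.  Size: S-M.

`#T ≤ ℵ_ 2` and `ℵ_ 2 : Cardinal.{1}` is the lift of `ℵ_ 2 : Cardinal.{0}`, so `Small.{0} T` (`Cardinal.small_iff_lift_mk_lt_univ`, `Cardinal.lt_univ`, or an injection of `T` into `(ℵ_ 2 : Cardinal.{0}).out`).  Let
`e : T ≃ Shrink.{0} T`, with the order `a ≤ b ↔ e.symm a ≤ e.symm b` (`PartialOrder.lift`), so `e` is an order isomorphism.  `tree`, `height`: `Iio (e t) ≃o Iio t`.  Chains and antichains: images and preimages under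
`e`; `Cardinal.mk_image_eq_lift` (the cardinalities agree up to `lift`, and `lift (ℵ_ 2) = ℵ_ 2`, `Cardinal.lift_aleph`, `Cardinal.lift_lt`).
-/

namespace Pool.Agent.Work.MP_6cc3c8_lc

open Cardinal Ordinal Set

private theorem shr_small {T : Type 1} (hc : #T ≤ ℵ_ 2) : Small.{0} T := by
  have h1 : Cardinal.lift.{0, 1} #T ≤ Cardinal.lift.{1, 0} #((ℵ_ 2 : Cardinal.{0}).out) := by
    rw [Cardinal.mk_out, Cardinal.lift_uzero, Cardinal.lift_aleph]
    simpa using hc
  rw [Cardinal.lift_mk_le'] at h1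
  obtain ⟨f⟩ := h1
  exact small_of_injective f.injective

/-- restriction of an order isomorphism to initial segments -/
private def shrIio {T : Type 1} {T' : Type} [PartialOrder T] [PartialOrder T'] (e : T ≃o T') (t : T) :
    Iio t ≃o Iio (e t) where
  toFun x := ⟨e x.1, e.lt_iff_lt.2 x.2⟩
  invFun y := ⟨e.symm y.1, by
    have h := y.2
    rw [mem_Iio] at h ⊢
    rw [← e.lt_iff_lt, e.apply_symm_apply]
    exact h⟩
  left_inv x := by
    apply Subtype.ext
    simp
  right_inv y := by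
    apply Subtype.ext
    simp
  map_rel_iff' := by
    intro a b
    change e a.1 ≤ e b.1 ↔ a.1 ≤ b.1
    exact e.le_iff_le

private theorem shr_card {T : Type 1} {T' : Type} (e : T ≃ T') (C : Set T') (h : #(e ⁻¹' C) < ℵ_ 2) :
    #C < ℵ_ 2 := by
  have h1 : Cardinal.lift.{0, 1} #(e ⁻¹' C) = Cardinal.lift.{1, 0} #C :=
    Cardinal.lift_mk_eq'.2 ⟨(e.subtypeEquiv (fun _ => Iff.rfl))⟩
  rw [Cardinal.lift_uzero] at h1
  rw [h1] at h
  rw [← Cardinal.lift_lt.{0, 1}, Cardinal.lift_aleph]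
  simpa using h

theorem shr {T : Type 1} [PartialOrder T] (hT : IsSuslin T) (hc : #T ≤ ℵ_ 2) :
    ∃ (T' : Type) (_ : PartialOrder T'), IsSuslin T' := by
  have hs : Small.{0} T := shr_small hc
  let e₀ : T ≃ Shrink.{0} T := equivShrink T
  let P : PartialOrder (Shrink.{0} T) := PartialOrder.lift e₀.symm e₀.symm.injective
  let e : T ≃o Shrink.{0} T :=
    { e₀ with
      map_rel_iff' := by
        intro a b
        change e₀.symm (e₀ a) ≤ e₀.symm (e₀ b) ↔ a ≤ b
        rw [e₀.symm_apply_apply, e₀.symm_apply_apply] }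
  refine ⟨Shrink.{0} T, P, ?_, ?_, ?_, ?_⟩
  · intro t
    obtain ⟨α, hα, ⟨g⟩⟩ := hT.tree (e.symm t)
    refine ⟨α, hα, ⟨?_⟩⟩
    have h := shrIio e (e.symm t)
    rw [e.apply_symm_apply] at h
    exact h.symm.trans g
  · intro α hα
    obtain ⟨t, ⟨g⟩⟩ := hT.height α hα
    exact ⟨e t, ⟨(shrIio e t).symm.trans g⟩⟩
  · intro C hC
    apply shr_card e.toEquiv C
    apply hT.chain
    intro a ha b hb hab
    have := hC ha hb (fun h => hab (e.toEquiv.injective h))
    rcases this with h | h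
    · exact Or.inl (e.le_iff_le.1 h)
    · exact Or.inr (e.le_iff_le.1 h)
  · intro A hA
    apply shr_card e.toEquiv A
    apply hT.antichain
    intro a ha b hb hab h
    exact hA ha hb (fun h' => hab (e.toEquiv.injective h')) (e.le_iff_le.2 h)

end Pool.Agent.Work.MP_6cc3c8_lc
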