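import Pool.Agent.Work.MP_6cc3c8_lc.Tn

/-!
# The predecessors of a node.  Size: M.

The map `Iio t → Iio t.lev`, `a ↦ a.lev`: if `a < t` then `R D ω₁ a t`, so `a.lev ≤ t.lev` (`Inv.lev`), and `a.lev ≠ t.lev` as otherwise `a = t` (`Inv.uniq` with `t.2.1`).  It is onto: for `y < t.lev`
(so `y < M.θ ω₁`) `Inv.ex` gives `a` with `R D ω₁ a t`, `a.1 = y`; `a` is a node (`Inv.refl`) of the cone `n` (`cone_up`).  For `a, b` below `t`: `a ≤ b ↔ a.lev ≤ b.lev`: (→) `Inv.lev`, (←) `down`.  So it is an order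
isomorphism (injective by `Inv.uniq`, or from the last equivalence and antisymmetry).
-/

namespace Pool.Agent.Work.MP_6cc3c8_lc

open Cardinal Ordinal Set

variable {M : Morass} {D : Dat M} {n : ℕ}

private theorem trA_lev_lt (t : Tn D n) (a : Tn D n) (h : a < t) : a.lev < t.lev := by
  have hI : Inv D ω₁ := inv le_rfl
  have hle : R D ω₁ a.1 t.1 := h.le
  have h1 : a.1.1 ≤ t.1.1 := hI.lev _ _ hle
  rcases lt_or_eq_of_le h1 with h2 | h2
  · exact h2
  · exact absurd (Subtype.ext (hI.uniq a.1 t.1 t.1 hle t.2.1 h2)) h.ne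

private theorem trA_le_iff (t : Tn D n) (a b : Tn D n) (ha : a ≤ t) (hb : b ≤ t) : a ≤ b ↔ a.lev ≤ b.lev := by
  have hI : Inv D ω₁ := inv le_rfl
  constructor
  · intro h
    exact hI.lev _ _ h
  · intro h
    exact down le_rfl ha hb h

theorem trA (t : Tn D n) : Nonempty (Iio t ≃o Iio t.lev) := by
  have hI : Inv D ω₁ := inv le_rfl
  let φ : Iio t → Iio t.lev := fun a => ⟨a.1.lev, trA_lev_lt t a.1 a.2⟩
  have hφ : ∀ a b : Iio t, φ a ≤ φ b ↔ a ≤ b := by
    intro a b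
    exact (trA_le_iff t a.1 b.1 (le_of_lt a.2) (le_of_lt b.2)).symm
  have hinj : Function.Injective φ := by
    intro a b h
    exact le_antisymm ((hφ a b).1 h.le) ((hφ b a).1 h.ge)
  have hsurj : Function.Surjective φ := by
    intro y
    have hy : (y : Ordinal.{0}) < t.lev := y.2
    have hyθ : (y : Ordinal.{0}) < M.θ ω₁ := lt_trans hy (t.1.1 : Iio (M.θ ω₁)).2
    obtain ⟨a, ha, ha1⟩ := hI.ex t.1 t.2.1 ⟨y, hyθ⟩ (le_of_lt hy)
    have hnode : R D ω₁ a a := (hI.refl _ _ ha).1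
    have hcone : Cone (R D ω₁) n a := (cone_up le_rfl ha).2 t.2.2
    let a' : Tn D n := ⟨a, hnode, hcone⟩
    have hale : a' ≤ t := ha
    have hlev : a'.lev = y := by
      change ((a.1 : Iio (M.θ ω₁)) : Ordinal.{0}) = y
      rw [ha1]
    have halt : a' < t := by
      refine lt_of_le_of_ne hale ?_
      intro h
      have h2 : a'.lev = t.lev := congrArg Tn.lev h
      exact absurd hy (not_lt.mpr (le_of_eq (h2.symm.trans hlev)))
    exact ⟨⟨a', halt⟩, Subtype.ext hlev⟩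
  exact ⟨{ toEquiv := Equiv.ofBijective φ ⟨hinj, hsurj⟩, map_rel_iff' := fun {a b} => hφ a b }⟩

end Pool.Agent.Work.MP_6cc3c8_lc
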