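import Pool.Agent.Work.MP_6cc3c8_lc.Tn

/-!
# All levels are nonempty.  Size: S-M.

`α < ω_ 2 = M.θ ω₁` (`M.top`).  `M.cover` at `ω₁`: `α = f z`, `f ∈ F ζ ω₁`, `ζ < ω₁`; `factor` (`ζ < ζ + 1 < ω₁`): `α = k y`, `k ∈ F (ζ + 1) ω₁`, `y : Iio (M.θ (ζ + 1))`.
If `y = 0` let `c = rt M (ζ + 1) n`: a node (`root`) of the cone `n` (`cone_iff`).
If `0 < y`: `rt M ζ n` has birth `0 ≤ ζ`, so `D.pot ζ k₀ = rt M ζ n` for some `k₀` (`D.hpot`); let `c = (y, (ζ + 1, k₀))`; by `sc_new` it is a node (second alternative, `0 < y`) and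
`R D (ζ + 1) (rt M (ζ + 1) n) c` (first alternative with `a' = rt M ζ n`, `root`), so `c` is in the cone `n` (`cone_iff`).
`ap k c` is a node (`lift`) of the cone `n` (`cone_ap`) of level `k y = α`.
-/

namespace Pool.Agent.Work.MP_6cc3c8_lc

open Cardinal Ordinal Set

variable {M : Morass}

theorem trB (D : Dat M) (n : ℕ) (α : Ordinal.{0}) (hα : α < ω_ 2) : ∃ t : Tn D n, t.lev = α := by
  have hα' : α < M.θ ω₁ := by rw [M.top]; exact hα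
  obtain ⟨ζ, hζ, f, hf, z, hz⟩ := M.cover ω₁ (Ordinal.omega_pos 1) le_rfl ⟨α, hα'⟩
  have hζ1 : ζ < ζ + 1 := Order.lt_add_one_iff.mpr le_rfl
  have hlim : Order.IsSuccLimit (ω₁ : Ordinal.{0}) := Cardinal.isSuccLimit_omega 1
  have hζ2 : ζ + 1 < ω₁ := hlim.add_one_lt hζ
  obtain ⟨g, hg, k, hk, rfl⟩ := factor hζ1 hζ2 le_rfl hf
  -- it is enough to find a node c of the cone n with level g z
  suffices h : ∃ c : Nd M (ζ + 1), R D (ζ + 1) c c ∧ Cone (R D (ζ + 1)) n c ∧ c.1 = g z by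
    obtain ⟨c, hc, hcn, hcl⟩ := h
    refine ⟨⟨ap k c, lift hζ2 hk hc, (cone_ap hζ2 le_rfl hk hc).mpr hcn⟩, ?_⟩
    change ((k c.1 : Iio (M.θ ω₁)) : Ordinal.{0}) = α
    rw [hcl]
    have := congrArg Subtype.val hz
    exact this
  have hI : Inv D ζ := inv hζ.le
  by_cases hy : ((g z : Iio (M.θ (ζ + 1))) : Ordinal.{0}) = 0
  · refine ⟨rt M (ζ + 1) n, root hζ2.le n, cone_iff.mpr (root hζ2.le n), ?_⟩
    exact Subtype.ext hy.symm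
  · have hpos : (0 : Ordinal.{0}) < ((g z : Iio (M.θ (ζ + 1))) : Ordinal.{0}) := pos_iff_ne_zero.mpr hy
    obtain ⟨k₀, hk₀⟩ := D.hpot ζ hζ (rt M ζ n) (by simp [rt])
    have hr : R D ζ (D.pot ζ k₀) (D.pot ζ k₀) := by rw [hk₀]; exact root hζ.le n
    have hl : ((D.pot ζ k₀).1 : Ordinal.{0}) < g z := by rw [hk₀]; exact hpos
    refine ⟨(g z, (ζ + 1, k₀)), ?_, ?_, rfl⟩
    · rw [sc_new hζ hI _ k₀ rfl]
      exact ⟨hr, hl, Or.inr ⟨rfl, hl, le_rfl⟩⟩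
    · rw [cone_iff, sc_new hζ hI _ k₀ rfl]
      refine ⟨hr, hl, Or.inl ⟨rt M ζ n, ?_, rfl, rfl⟩⟩
      rw [hk₀]
      exact root hζ.le n

end Pool.Agent.Work.MP_6cc3c8_lc
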