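import Pool.Agent.Work.MP_6cc3c8_lc.IA

/-!
# A node has successors off a given copy.  Size: M.

Let `η` be the least ordinal with `ζ₀ ≤ η < ω₁` such that `f x, f' x ∈ range h` for some `h ∈ F η ω₁` (there is one: `M.limit` at `ω₁` for `f, f'` gives a `γ > ζ₀`).
`η ≠ ζ₀`: `f x = h y`, `f' x = h y'`, `h ∈ F ζ₀ ω₁`, give `y = x`, `y' = x` (`agree`), so `f x = f' x`, contradiction.  `η` is not a limit: by `M.cover` (and `factor`, to have stages `≥ ζ₀`) and `M.limit` the two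
elements `y, y'` with `h y = f x`, `h y' = f' x` are in the range of one `g ∈ F γ η`, `ζ₀ ≤ γ < η`, and `h ∘ g ∈ F γ ω₁` (`compose`) contradicts the minimality.  So `η = ζ + 1`, `ζ₀ ≤ ζ < ω₁`; let `h y = f x`, `h y' = f' x`; `y < y'`.
`F ζ (ζ + 1)`: by `M.cover` at `ζ + 1` and `factor` `y = c z`, `y' = c' z'` with `c, c' ∈ F ζ (ζ + 1)`; for no `c ∈ F ζ (ζ + 1)` both `y, y'` are in the range of `c` (else `h ∘ c ∈ F ζ ω₁` contradicts minimality).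
Let `i` be the inclusion (`succ_form`).  So `y'` is `≥ M.θ ζ`: otherwise `y, y'` are in the range of `i` (`y < y'`).  So `y' = b z'` for a split map `b` (`succ_form`: `c'` is not `i`), and `y < M.θ ζ` since otherwise `y` is in the range
of `b` too (`split_surj`).  So `y = i z`, `z = y` as ordinals.
Write `f = g ∘ e`, `g ∈ F ζ ω₁`, `e ∈ F ζ₀ ζ` (`factor`) if `ζ₀ < ζ`, `e = id` if `ζ₀ = ζ`.  `h (i z) = f x = g (e x)` gives `z = e x` (`agree`).  Let `a₁ = ap e a` (`= a` if `ζ₀ = ζ`), a node of the stage `ζ` (`lift`) of level `z`, name `a.2`, birth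
`≤ ζ₀ ≤ ζ` (`Inv.birth`), so `a₁ = D.pot ζ k` for some `k` (`D.hpot`).  Let `s₁ = (y', (ζ + 1, k))`.  `sc_new`: `R D (ζ + 1) (ap i a₁) s₁` (first alternative with `a' = a₁`; `(D.pot ζ k).1 = z < y'`).
`s = ap h s₁`: `R D ω₁ (ap h (ap i a₁)) s` by `lift`, and `ap h (ap i a₁) = ap f a` (level `h y = f x`, same name).  `s.1 = h y' = f' x`, and the birth of `s` is `ζ + 1 > ζ₀`, that of `ap f' a` is `≤ ζ₀`.
-/

namespace Pool.Agent.Work.MP_6cc3c8_lc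

open Cardinal Ordinal Set

variable {M : Morass} {D : Dat M}

private theorem trS_lim : Order.IsSuccLimit (ω₁ : Ordinal.{0}) := Cardinal.isSuccLimit_omega 1

theorem trS {ζ₀ : Ordinal.{0}} (hζ₀ : ζ₀ < ω₁) {f f' : Iio (M.θ ζ₀) → Iio (M.θ ω₁)} (hf : f ∈ M.F ζ₀ ω₁)
    (hf' : f' ∈ M.F ζ₀ ω₁) {a : Nd M ζ₀} (ha : R D ζ₀ a a) (hlt : f a.1 < f' a.1) :
    ∃ s : Nd M ω₁, R D ω₁ (ap f a) s ∧ s.1 = f' a.1 ∧ s ≠ ap f' a := by
  classical
  let P : Ordinal.{0} → Prop := fun η => ζ₀ ≤ η ∧ η < ω₁ ∧ ∃ h ∈ M.F η ω₁, f a.1 ∈ range h ∧ f' a.1 ∈ range h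
  have hex : ∃ η, P η := by
    obtain ⟨γ, h1, -, h2, h, hh, g, -, g', -, e1, e2⟩ := M.limit ω₁ le_rfl trS_lim ζ₀ hζ₀ ζ₀ hζ₀ f hf f' hf'
    exact ⟨γ, h1.le, h2, h, hh, ⟨g a.1, by rw [e1]; rfl⟩, ⟨g' a.1, by rw [e2]; rfl⟩⟩
  obtain ⟨η, ⟨hη0, hη1, h, hh, ⟨y, hy⟩, ⟨y', hy'⟩⟩, hmin⟩ := WellFounded.has_min (Ordinal.lt_wf) {η | P η} hex
  have hmin' : ∀ ξ, ζ₀ ≤ ξ → ξ < η → ∀ k ∈ M.F ξ η, y ∈ range k → y' ∈ range k → False := by
    intro ξ h1 h2 k hk ⟨u, hu⟩ ⟨u', hu'⟩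
    refine hmin ξ ⟨h1, h2.trans hη1, h ∘ k, compose h2 hη1 le_rfl hk hh, ⟨u, ?_⟩, ⟨u', ?_⟩⟩ h2
    · rw [Function.comp_apply, hu, hy]
    · rw [Function.comp_apply, hu', hy']
  have hne : ζ₀ ≠ η := by
    rintro rfl
    have h1 := agree hζ₀ le_rfl hf hh hy.symm
    have h2 := agree hζ₀ le_rfl hf' hh hy'.symm
    have h3 := h1.2 a.1 le_rfl
    have h4 := h2.2 a.1 le_rfl
    rw [h3, h4] at hlt
    exact lt_irrefl _ hlt
  have hlt0 : ζ₀ < η := lt_of_le_of_ne hη0 hne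
  have hmin'' : ∀ ξ, ξ < η → ∀ k ∈ M.F ξ η, y ∈ range k → y' ∈ range k → False := by
    intro ξ h2 k hk hu hu'
    rcases le_or_gt ζ₀ ξ with h1 | h1
    · exact hmin' ξ h1 h2 k hk hu hu'
    · obtain ⟨g, hg, k', hk', e⟩ := factor h1 hlt0 hη1.le hk
      refine hmin' ζ₀ le_rfl hlt0 k' hk' ?_ ?_
      · obtain ⟨u, rfl⟩ := hu
        exact ⟨g u, by rw [e]; rfl⟩
      · obtain ⟨u, rfl⟩ := hu'
        exact ⟨g u, by rw [e]; rfl⟩
  rcases Ordinal.zero_or_succ_or_isSuccLimit η with h0 | ⟨ζ, hs⟩ | hl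
  · rw [h0] at hlt0
    exact absurd hlt0 (not_lt.mpr (zero_le))
  · have hs' : η = ζ + 1 := by rw [← hs]; simp
    subst hs'
    clear hs
    have hζη : ζ < ζ + 1 := by
      exact Order.lt_add_one_iff.mpr le_rfl
    have hζ : ζ < ω₁ := hζη.trans hη1
    have hζ0 : ζ₀ ≤ ζ := Order.lt_add_one_iff.mp hlt0
    have hyy : y < y' := by
      have hm := M.mono _ _ hη1 le_rfl h hh
      rw [← hy, ← hy'] at hlt
      exact hm.lt_iff_lt.mp hlt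
    obtain ⟨i, hi, hinc, hform⟩ := succ_form (M := M) hζ
    have hiy : ∀ z : Iio (M.θ (ζ + 1)), (z : Ordinal.{0}) < M.θ ζ → z ∈ range i := by
      intro z hz
      exact ⟨⟨z, hz⟩, Subtype.ext (hinc _)⟩
    have hy'ge : M.θ ζ ≤ (y' : Ordinal.{0}) := by
      by_contra hcon
      push Not at hcon
      exact hmin'' ζ hζη i hi (hiy y (lt_trans hyy hcon)) (hiy y' hcon)
    obtain ⟨c, hc, hyc⟩ : ∃ c ∈ M.F ζ (ζ + 1), y' ∈ range c := by
      obtain ⟨ξ, hξ, c, hc, hyc⟩ := M.cover (ζ + 1) (lt_of_le_of_lt zero_le hζη) hη1.le y'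
      rcases (Order.lt_add_one_iff.mp hξ).eq_or_lt with h1 | h1
      · subst h1
        exact ⟨c, hc, hyc⟩
      · obtain ⟨g, hg, k', hk', e⟩ := factor h1 hζη hη1.le hc
        obtain ⟨u, rfl⟩ := hyc
        exact ⟨k', hk', ⟨g u, by rw [e]; rfl⟩⟩
    have hylt : (y : Ordinal.{0}) < M.θ ζ := by
      by_contra hcon
      push Not at hcon
      rcases hform c hc with h1 | ⟨s, hs⟩
      · subst h1
        obtain ⟨u, rfl⟩ := hyc
        rw [hinc] at hy'ge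
        exact absurd u.2 (not_lt.mpr hy'ge)
      · obtain ⟨w, hw⟩ := split_surj hζ hc hs y hcon
        exact hmin'' ζ hζη c hc ⟨w, hw⟩ hyc
    have hiz : i ⟨y, hylt⟩ = y := Subtype.ext (hinc _)
    obtain ⟨g, hg, a₁, ha₁, ha₂, hga⟩ : ∃ g ∈ M.F ζ ω₁, ∃ a₁ : Nd M ζ, R D ζ a₁ a₁ ∧ a₁.2 = a.2 ∧ f a.1 = g a₁.1 := by
      rcases hζ0.eq_or_lt with h1 | h1
      · subst h1
        exact ⟨f, hf, a, ha, rfl, rfl⟩
      · obtain ⟨e, he, g, hg, e1⟩ := factor h1 hζ le_rfl hf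
        exact ⟨g, hg, ap e a, lift h1 he ha, rfl, by rw [e1]; rfl⟩
    have hb := (inv (D := D) hζ₀.le).birth a a ha
    have hag := agree hζ le_rfl (compose hζη hη1 le_rfl hi hh) hg
      (x := ⟨y, hylt⟩) (y := a₁.1) (by rw [Function.comp_apply, hiz, hy, hga])
    have hz : a₁.1 = ⟨y, hylt⟩ := hag.1.symm
    have hia : i a₁.1 = y := by rw [hz, hiz]
    obtain ⟨k, hk⟩ := D.hpot ζ hζ a₁ (by rw [ha₂]; exact hb.1.trans hζ0)
    have hR1 : R D (ζ + 1) (ap i a₁) ((y', (ζ + 1, k)) : Nd M (ζ + 1)) := by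
      rw [sc_new hζ (inv (D := D) hζ.le) _ k rfl]
      refine ⟨by rw [hk]; exact ha₁, ?_, Or.inl ⟨a₁, by rw [hk]; exact ha₁, hinc _, rfl⟩⟩
      rw [hk, hz]
      exact hyy
    refine ⟨ap h (y', (ζ + 1, k)), ?_, hy', ?_⟩
    · have h1 := lift hη1 hh hR1
      have h2 : ap h (ap i a₁) = ap f a := by
        simp only [ap, hia, hy, ha₂]
      rw [h2] at h1
      exact h1
    · intro hcon
      have h1 : (ζ + 1 : Ordinal.{0}) = a.2.1 := by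
        have := congrArg (fun q : Nd M ω₁ => q.2.1) hcon
        exact this
      have h2 := hb.1.trans hζ0
      rw [← h1] at h2
      exact absurd hζη (not_lt.mpr h2)
  · exfalso
    obtain ⟨ξ, hξ, f1, hf1, hy1⟩ := M.cover η (lt_of_le_of_lt zero_le hlt0) hη1.le y
    obtain ⟨ξ', hξ', f2, hf2, hy2⟩ := M.cover η (lt_of_le_of_lt zero_le hlt0) hη1.le y'
    obtain ⟨γ, -, -, h2, k, hk, g, -, g', -, e1, e2⟩ := M.limit η hη1.le hl ξ hξ ξ' hξ' f1 hf1 f2 hf2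
    refine hmin'' γ h2 k hk ?_ ?_
    · obtain ⟨u, rfl⟩ := hy1
      exact ⟨g u, by rw [e1]; rfl⟩
    · obtain ⟨u, rfl⟩ := hy2
      exact ⟨g' u, by rw [e2]; rfl⟩

end Pool.Agent.Work.MP_6cc3c8_lc
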