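import Pool.Agent.Work.MP_6cc3c8_lc.Tn
import Pool.Agent.Work.MP_6cc3c8_lc.TrS
import Pool.Agent.Work.MP_6cc3c8_lc.Nod

/-!
# A large chain gives a large antichain.  Size: M-L.

By `node` every `c ∈ C` is `ap f a` with `ζ < ω₁`, `f ∈ F ζ ω₁`, `R D ζ a a`; the type `(ζ, a)` (e.g. as `(ζ, (a.1 : Ordinal), a.2)` with `a.1 < θ ζ < ω₁`, `a.2.1 ≤ ζ` by `Inv.birth`) takes at most `ℵ₁` values.  So (pigeonhole, `ℵ_ 2` is
regular: `Cardinal.infinite_pigeonhole_card` or `ℵ₁ * ℵ₁ < ℵ_ 2`) there is `C' ⊆ C`, `ℵ_ 2 ≤ #C'`, with one type `(ζ₀, a)` for all `c ∈ C'`.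
Two elements of `C'` of the same level are equal (chain and `Inv.uniq`), and for `c, d ∈ C'`: `c ≤ d ↔ c.lev ≤ d.lev` (chain, `Inv.lev`).  For `c ∈ C'` there is `d ∈ C'` with `c.lev < d.lev`: otherwise `C'` injects by `lev` into
`Iio (c.lev + 1)`, `c.lev < ω_ 2`, of cardinality `≤ ℵ₁`.  Let `c⁺` be the one of least level.  By `trS` (`c = ap f a`, `c⁺ = ap f' a`, `f a.1 = c.1 < c⁺.1 = f' a.1`) there is `s c` with `R D ω₁ c (s c)`, `(s c).1 = c⁺.1`, `s c ≠ c⁺`;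
`s c` is a node (`Inv.refl`) of the cone `n` (`cone_up`).
Let `c, d ∈ C'`, `c.lev < d.lev`.  Then `c⁺.lev ≤ d.lev < d⁺.lev`, so `(s c).1 < (s d).1`; in particular `s` is injective.  `s d ≤ s c` is impossible by `Inv.lev`.  If `s c ≤ s d`: `c⁺ ≤ d` (levels, chain) and `d ≤ s d`, so
`c⁺ ≤ s d`; `s c` and `c⁺` have the same level, so `s c = c⁺` (`Inv.uniq`), contradiction.  So `{s c | c ∈ C'}` is an antichain of cardinality `#C' ≥ ℵ_ 2` (`Cardinal.mk_range_eq`, `mk_image_eq`).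
-/

namespace Pool.Agent.Work.MP_6cc3c8_lc

open Cardinal Ordinal Set

variable {M : Morass} {D : Dat M} {n : ℕ}

private theorem tdCardIio (o : Ordinal.{0}) (ho : o < ω_ 2) : #(Iio o) ≤ (ℵ₁ : Cardinal.{1}) := by
  rw [Cardinal.mk_Iio_ordinal]
  have h1 : o.card < ℵ_ 2 := lt_omega_iff_card_lt.1 ho
  have h2 : (ℵ_ 2 : Cardinal.{0}) = Order.succ ℵ₁ := by
    rw [succ_aleph]
    norm_num
  rw [h2] at h1
  have h3 : o.card ≤ ℵ₁ := Order.lt_succ_iff.1 h1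
  calc Cardinal.lift.{1} o.card ≤ Cardinal.lift.{1} (ℵ₁ : Cardinal.{0}) := Cardinal.lift_le.2 h3
    _ = ℵ₁ := by rw [lift_aleph, Ordinal.lift_one]

private theorem tdIio1 : #(Iio (ω₁ : Ordinal.{0})) ≤ (ℵ₁ : Cardinal.{1}) :=
  tdCardIio _ (omega_lt_omega.2 (by norm_num))

private theorem tdReg : (ℵ_ 2 : Cardinal.{1}).IsRegular := by
  have h := isRegular_aleph_add_one (1 : Ordinal.{1})
  rwa [one_add_one_eq_two] at h

/-- The type of a node. -/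
private def TdP (D : Dat M) (t : Iio (ω₁ : Ordinal.{0}) × (Iio (ω₁ : Ordinal.{0}) × (Iio (ω₁ : Ordinal.{0}) × ℕ)))
    (c : Nd M ω₁) : Prop :=
  ∃ hx : (t.2.1 : Ordinal.{0}) < M.θ t.1, ∃ f ∈ M.F t.1 ω₁,
    R D (t.1 : Ordinal.{0}) (⟨t.2.1, hx⟩, ((t.2.2.1 : Ordinal.{0}), t.2.2.2))
      (⟨t.2.1, hx⟩, ((t.2.2.1 : Ordinal.{0}), t.2.2.2)) ∧
      c = ap f (⟨t.2.1, hx⟩, ((t.2.2.1 : Ordinal.{0}), t.2.2.2))

private theorem td_ex {c : Nd M ω₁} (hc : R D ω₁ c c) : ∃ t, TdP D t c := by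
  obtain ⟨ζ, hζ, f, hf, a', ha', hca⟩ := node hc
  have h1 : (a'.1 : Ordinal.{0}) < ω₁ := lt_trans (show (a'.1 : Ordinal.{0}) < M.θ ζ from a'.1.2) (M.small ζ hζ)
  have h2 : a'.2.1 < ω₁ := ((inv hζ.le).birth _ _ ha').1.trans_lt hζ
  exact ⟨(⟨ζ, hζ⟩, (⟨a'.1, h1⟩, (⟨a'.2.1, h2⟩, a'.2.2))), a'.1.2, f, hf, ha', hca⟩

private theorem td_succ {t : Iio (ω₁ : Ordinal.{0}) × (Iio (ω₁ : Ordinal.{0}) × (Iio (ω₁ : Ordinal.{0}) × ℕ))}
    {c d : Tn D n} (hc : TdP D t c.1) (hd : TdP D t d.1) (hlt : c.lev < d.lev) :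
    ∃ s : Tn D n, c ≤ s ∧ s.lev = d.lev ∧ s ≠ d := by
  obtain ⟨hx, f, hf, hr, hcf⟩ := hc
  obtain ⟨hx', f', hf', hr', hdf⟩ := hd
  have h1 : c.1.1 < d.1.1 := hlt
  rw [hcf, hdf] at h1
  obtain ⟨s, hs1, hs2, hs3⟩ := trS t.1.2 hf hf' hr h1
  rw [← hcf] at hs1
  rw [← hdf] at hs3
  have hs2' : s.1 = d.1.1 := by rw [hs2, hdf]; rfl
  refine ⟨⟨s, ((inv le_rfl).refl _ _ hs1).2, (cone_up le_rfl hs1).1 c.2.2⟩, hs1, ?_, ?_⟩
  · exact congrArg Subtype.val hs2'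
  · intro h
    exact hs3 (congrArg Subtype.val h)

private theorem td_lev {c d : Tn D n} (h : c ≤ d) : c.lev ≤ d.lev := (inv le_rfl).lev _ _ h

private theorem td_eq {c d e : Tn D n} (h : c ≤ e) (h' : d ≤ e) (hl : c.lev = d.lev) : c = d :=
  Subtype.ext ((inv le_rfl).uniq _ _ _ h h' (Subtype.ext hl))

theorem trD (C : Set (Tn D n)) (hC : IsChain (· ≤ ·) C) (h : ℵ_ 2 ≤ #C) :
    ∃ A : Set (Tn D n), IsAntichain (· ≤ ·) A ∧ ℵ_ 2 ≤ #A := by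
  classical
  choose τ hτ using fun c : Tn D n => td_ex c.2.1
  have hsmall : #(Iio (ω₁ : Ordinal.{0}) × (Iio (ω₁ : Ordinal.{0}) × (Iio (ω₁ : Ordinal.{0}) × ℕ))) ≤
      (ℵ₁ : Cardinal.{1}) := by
    have h0 : ℵ₀ ≤ (ℵ₁ : Cardinal.{1}) := aleph0_le_aleph 1
    rw [Cardinal.mk_prod, Cardinal.mk_prod, Cardinal.mk_prod]
    simp only [Cardinal.lift_uzero, Cardinal.lift_id, Cardinal.mk_nat, Cardinal.lift_aleph0]
    exact Cardinal.mul_le_of_le h0 tdIio1 (Cardinal.mul_le_of_le h0 tdIio1 (Cardinal.mul_le_of_le h0 tdIio1 h0))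
  obtain ⟨t, C', hsub, hcard, hC'⟩ := Cardinal.infinite_pigeonhole_set (fun c : C => τ c.1) (ℵ_ 2) h
    (aleph0_le_aleph 2) (by
      rw [tdReg.cof_ord]
      exact hsmall.trans_lt (aleph_lt_aleph.2 (by norm_num)))
  have hT : ∀ c ∈ C', TdP D t c.1 := by
    intro c hc
    have := hτ c
    rw [hC' hc] at this
    exact this
  have htot : ∀ c ∈ C', ∀ d ∈ C', c ≤ d ∨ d ≤ c := fun c hc d hd => hC.total (hsub hc) (hsub hd)
  have hle : ∀ c ∈ C', ∀ d ∈ C', c.lev ≤ d.lev → c ≤ d := by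
    intro c hc d hd hl
    rcases htot c hc d hd with h1 | h1
    · exact h1
    · have h2 := td_lev h1
      rw [td_eq le_rfl h1 (le_antisymm hl h2)]
  have hunb : ∀ c ∈ C', ∃ d ∈ C', c.lev < d.lev := by
    intro c hc
    by_contra hcon
    push Not at hcon
    have hlim : c.lev + 1 < ω_ 2 := by
      have h1 : c.lev < ω_ 2 := lt_of_lt_of_eq c.1.1.2 M.top
      exact (isSuccLimit_omega 2).add_one_lt h1
    have h2 : #C' ≤ #(Iio (c.lev + 1)) := by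
      refine Cardinal.mk_le_of_injective
        (f := fun d : C' => (⟨d.1.lev, Order.lt_add_one_iff.2 (hcon d.1 d.2)⟩ : Iio (c.lev + 1))) ?_
      intro d e hde
      have h3 : d.1.lev = e.1.lev := congrArg (fun z : Iio (c.lev + 1) => (z : Ordinal.{0})) hde
      exact Subtype.ext (td_eq (hle d.1 d.2 e.1 e.2 h3.le) le_rfl h3)
    have h3 := (hcard.trans h2).trans (tdCardIio _ hlim)
    exact absurd h3 (not_le.2 (aleph_lt_aleph.2 (by norm_num)))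
  have hstep : ∀ c : C', ∃ p s : Tn D n, p ∈ C' ∧ c.1.lev < p.lev ∧
      (∀ d ∈ C', c.1.lev < d.lev → p.lev ≤ d.lev) ∧ c.1 ≤ s ∧ s.lev = p.lev ∧ s ≠ p := by
    intro c
    have hne : {o : Ordinal.{0} | ∃ d ∈ C', c.1.lev < d.lev ∧ d.lev = o}.Nonempty := by
      obtain ⟨d, hd, hd2⟩ := hunb c.1 c.2
      exact ⟨_, d, hd, hd2, rfl⟩
    obtain ⟨p, hp, hp2, hp3⟩ := csInf_mem hne
    obtain ⟨s, hs1, hs2, hs3⟩ := td_succ (hT c.1 c.2) (hT p hp) hp2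
    refine ⟨p, s, hp, hp2, ?_, hs1, hs2, hs3⟩
    intro d hd hd2
    rw [hp3]
    exact csInf_le' ⟨d, hd, hd2, rfl⟩
  choose p s hp1 hp2 hp3 hs1 hs2 hs3 using hstep
  have key : ∀ c d : C', c.1.lev < d.1.lev → ¬ s c ≤ s d ∧ ¬ s d ≤ s c := by
    intro c d hcd
    have h1 : (p c).lev ≤ d.1.lev := hp3 c d.1 d.2 hcd
    constructor
    · intro h2
      have h3 : p c ≤ s d := (hle _ (hp1 c) _ d.2 h1).trans (hs1 d)
      exact hs3 c (td_eq h2 h3 (hs2 c))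
    · intro h2
      have h3 := td_lev h2
      rw [hs2, hs2] at h3
      exact absurd (h1.trans_lt (hp2 d)) (not_lt.2 h3)
  have hlev : ∀ c d : C', c ≠ d → c.1.lev < d.1.lev ∨ d.1.lev < c.1.lev := by
    intro c d hcd
    refine lt_or_gt_of_ne ?_
    intro h3
    exact hcd (Subtype.ext (td_eq (hle c.1 c.2 d.1 d.2 h3.le) le_rfl h3))
  have hinj : Function.Injective s := by
    intro c d hcd
    by_contra hne
    rcases hlev c d hne with h1 | h1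
    · exact (key c d h1).1 hcd.le
    · exact (key d c h1).1 hcd.ge
  refine ⟨range s, ?_, ?_⟩
  · rintro _ ⟨c, rfl⟩ _ ⟨d, rfl⟩ hne
    have hcd : c ≠ d := fun e => hne (by rw [e])
    rcases hlev c d hcd with h1 | h1
    · exact (key c d h1).1
    · exact (key d c h1).2
  · rw [Cardinal.mk_range_eq s hinj]
    exact hcard

end Pool.Agent.Work.MP_6cc3c8_lc
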