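import Pool.Agent.Work.MP_6cc3c8_lc.Key
import Pool.Agent.Work.MP_6cc3c8_lc.Dex
import Pool.Agent.Work.MP_6cc3c8_lc.Hit
import Pool.Agent.Work.MP_6cc3c8_lc.TrA
import Pool.Agent.Work.MP_6cc3c8_lc.TrB
import Pool.Agent.Work.MP_6cc3c8_lc.TrD
import Pool.Agent.Work.MP_6cc3c8_lc.AdvE
import Pool.Agent.Work.MP_6cc3c8_lc.Shr

/-!
# Assembly.  Size: S.

`enum` gives `r`, `dex` gives `D, ρ`.  If for every `n` there is an antichain of `Tn D n` of cardinality `≥ ℵ_ 2`, `advE` and `key` give `False`.  So for some `n` all antichains have cardinality `< ℵ_ 2`, and by `trD` all chains too;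
`trA` (`t.lev < M.θ ω₁ = ω_ 2`) and `trB`: `IsSuslin (Tn D n)`; `#(Tn D n) ≤ ℵ_ 2` by `all` (subset); `shr`.
-/

namespace Pool.Agent.Work.MP_6cc3c8_lc

open Cardinal Ordinal Set

theorem fin (M : Morass) (S : Set (ℕ → ℕ)) (hS : #S ≤ ℵ₁) (hm : ¬ IsMeagre S) :
    ∃ (T : Type) (_ : PartialOrder T), IsSuslin T := by
  obtain ⟨r, hr⟩ := enum hm hS
  obtain ⟨D, ρ, hG, hI⟩ := dex M r
  have h1 : ∃ n, ∀ A : Set (Tn D n), IsAntichain (· ≤ ·) A → #A < ℵ_ 2 := by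
    by_contra hcon
    push Not at hcon
    obtain ⟨B, hB⟩ := advE D hcon
    exact key hB hG hI hr
  obtain ⟨n, hn⟩ := h1
  have hSus : IsSuslin (Tn D n) := by
    refine ⟨fun t => ⟨t.lev, ?_, trA t⟩, fun α hα => ?_, fun C hC => ?_, hn⟩
    · have h2 : t.lev < M.θ ω₁ := (t.1.1 : Iio (M.θ ω₁)).2
      rwa [M.top] at h2
    · obtain ⟨t, ht⟩ := trB D n α hα
      exact ⟨t, ht ▸ trA t⟩
    · by_contra h3
      obtain ⟨A, hA, hA'⟩ := trD C hC (not_lt.1 h3)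
      exact absurd (hn A hA) (not_lt.2 hA')
  refine shr hSus ?_
  refine le_trans ?_ (all (D := D))
  exact Cardinal.mk_subtype_mono (fun a ha => ha.1)

end Pool.Agent.Work.MP_6cc3c8_lc
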