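import Mathlib

/-!
# A Fodor type argument below `ω₂`.  Size: M.  Pure Mathlib.

Suppose that there is no such pair.  For `β < ω_ 2` let `G β = {γ | γ < ω_ 2 ∧ γ.cof = ℵ₁ ∧ lam γ ≤ β}`.  For every value `κ ∈ K '' G β` choose `γ κ ∈ G β` with `K (γ κ) = κ`.  If `γ' ∈ G β` and `K γ' = κ`, then
`γ' < τ (γ κ)` (otherwise `γ κ, γ'` is a pair).  Let `g β` be the supremum of the ordinals `τ (γ κ)`, `κ ∈ K '' G β` (at most `ℵ₁` of them, all `< ω_ 2`); `g β < ω_ 2` since `ω_ 2` is regular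
(`Cardinal.isRegular_succ`, `ℵ_ 2 = succ ℵ₁`, `Ordinal.iSup_lt_ord` or similar).  So `γ' < g β` for all `γ' ∈ G β`.
Define by recursion `b ξ`, `ξ < ω₁`: `b ξ` = the supremum of `max (g (b ξ')) (b ξ') + 1` over `ξ' < ξ` (countably many ordinals `< ω_ 2`, so `b ξ < ω_ 2`); `b` is strictly increasing and `g (b ξ) ≤ b (ξ + 1)`.
Let `γ = sup_{ξ < ω₁} b ξ`.  Then `γ < ω_ 2` (regularity), and `γ.cof = ℵ₁`, since `γ` is the supremum of a strictly increasing sequence of length `ω₁` (`cof ω₁ = ℵ₁`; a cofinal subset of `γ` which is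
countable would be bounded by some `b ξ`, because the cofinality of `ω₁` is not countable; and `cof γ ≤ ℵ₁` since the `ℵ₁` ordinals `b ξ` are cofinal; see also `Ordinal.cof_eq_of_isNormal`, `exists_fundamentalSequence`).
By `hlam` `lam γ < γ`, so `lam γ ≤ b ξ` for some `ξ < ω₁`, i.e. `γ ∈ G (b ξ)`, so `γ < g (b ξ) ≤ b (ξ + 1) ≤ γ`, a contradiction.
-/

namespace Pool.Agent.Work.MP_6cc3c8_lc

open Cardinal Ordinal Set

private theorem om2 : (ω_ 2 : Ordinal.{0}).cof = ℵ_ 2 := by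
  have h := cof_omega_add_one (1 : Ordinal.{0})
  rwa [one_add_one_eq_two] at h

private theorem om2' : (Ordinal.lift.{1} (ω_ 2 : Ordinal.{0})).cof = ℵ_ 2 := by
  rw [← lift_cof, om2]
  simp

private theorem al12 : (ℵ₁ : Cardinal.{1}) < ℵ_ 2 := aleph_lt_aleph.mpr one_lt_two

private noncomputable def bb (g : Ordinal.{0} → Ordinal.{0}) (ξ : Ordinal.{0}) : Ordinal.{0} :=
  ⨆ x : Iio ξ, (max (g (bb g x)) (bb g x) + 1)
termination_by ξ
decreasing_by all_goals exact x.2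

private theorem bb_le (g : Ordinal.{0} → Ordinal.{0}) {x ξ : Ordinal.{0}} (h : x < ξ) :
    max (g (bb g x)) (bb g x) + 1 ≤ bb g ξ := by
  conv_rhs => rw [bb]
  exact Ordinal.le_iSup (fun x : Iio ξ => (max (g (bb g x)) (bb g x) + 1)) ⟨x, h⟩

private theorem bb_lt (g : Ordinal.{0} → Ordinal.{0}) (hg : ∀ β, β < ω_ 2 → g β < ω_ 2) (ξ : Ordinal.{0})
    (hξ : ξ < ω_ 2) : bb g ξ < ω_ 2 := by
  induction ξ using WellFoundedLT.induction with
  | ind ξ ih =>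
    rw [bb]
    apply lift_iSup_lt_of_lt_cof
    · rw [om2', Cardinal.mk_Iio_ordinal]
      simp only [Cardinal.lift_lift]
      have h1 : ξ.card < ℵ_ 2 := by
        rw [← lt_ord, ord_aleph]
        exact hξ
      have h2 := Cardinal.lift_lt.{0, 1}.mpr h1
      simpa using h2
    · intro i
      have h1 := ih i i.2 (lt_trans i.2 hξ)
      have h2 : max (g (bb g i)) (bb g i) < ω_ 2 := max_lt (hg _ h1) h1
      exact (isSuccLimit_omega 2).add_one_lt h2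

theorem fod {X : Type 1} (K : Ordinal.{0} → X) (lam τ : Ordinal.{0} → Ordinal.{0})
    (hlam : ∀ γ, γ < ω_ 2 → γ.cof = ℵ₁ → lam γ < γ) (hτ : ∀ γ, γ < ω_ 2 → τ γ < ω_ 2)
    (hK : ∀ β, β < ω_ 2 → #(K '' {γ | γ < ω_ 2 ∧ γ.cof = ℵ₁ ∧ lam γ ≤ β}) ≤ ℵ₁) :
    ∃ γ γ', γ < ω_ 2 ∧ γ' < ω_ 2 ∧ γ.cof = ℵ₁ ∧ γ'.cof = ℵ₁ ∧ τ γ ≤ γ' ∧ K γ = K γ' := by
  by_contra hcon
  push Not at hcon
  have hcon' : ∀ γ γ', γ < ω_ 2 → γ' < ω_ 2 → γ.cof = ℵ₁ → γ'.cof = ℵ₁ → K γ = K γ' → γ' < τ γ := by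
    intro γ γ' h1 h2 h3 h4 h5
    by_contra h6
    exact hcon γ γ' h1 h2 h3 h4 (not_lt.mp h6) h5
  have hg : ∀ β, β < ω_ 2 → ∃ g, g < ω_ 2 ∧
      ∀ γ, γ < ω_ 2 → γ.cof = ℵ₁ → lam γ ≤ β → γ < g := by
    intro β hβ
    set G : Set Ordinal.{0} := {γ | γ < ω_ 2 ∧ γ.cof = ℵ₁ ∧ lam γ ≤ β} with hG
    have hch : ∀ κ : (K '' G : Set X), ∃ γ, γ ∈ G ∧ K γ = κ := fun κ => κ.2
    choose ch hch1 hch2 using hch
    have hS : ∀ i ∈ range (fun κ : (K '' G : Set X) => τ (ch κ)), i < ω_ 2 := by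
      rintro _ ⟨κ, rfl⟩
      exact hτ _ (hch1 κ).1
    refine ⟨sSup (range (fun κ : (K '' G : Set X) => τ (ch κ))), ?_, ?_⟩
    · apply sSup_lt_of_lt_cof _ hS
      rw [om2']
      exact (mk_range_le.trans (hK β hβ)).trans_lt al12
    · intro γ h1 h2 h3
      have hm : γ ∈ G := ⟨h1, h2, h3⟩
      have h4 : γ < τ (ch ⟨K γ, mem_image_of_mem K hm⟩) :=
        hcon' _ γ (hch1 _).1 h1 (hch1 _).2.1 h2 (hch2 _)
      refine h4.trans_le (le_csSup ⟨ω_ 2, fun i hi => (hS i hi).le⟩ ?_)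
      exact ⟨_, rfl⟩
  choose! g hg1 hg2 using hg
  have h12 : (ω₁ : Ordinal.{0}) < ω_ 2 := omega_lt_omega.mpr one_lt_two
  have hγ : bb g ω₁ < ω_ 2 := bb_lt g hg1 ω₁ h12
  have hmono : StrictMono (fun x : Iio (ω₁ : Ordinal.{0}) => (max (g (bb g x)) (bb g x) + 1)) := by
    intro x y hxy
    have h1 := bb_le g (show (x : Ordinal.{0}) < y from hxy)
    refine h1.trans_lt ?_
    exact Order.lt_add_one_iff.mpr (le_max_right _ _)
  have hcof : (bb g ω₁).cof = ℵ₁ := by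
    rw [bb, cof_iSup_Iio hmono (isSuccLimit_omega 1).isSuccPrelimit]
    exact cof_omega_one
  have h1 := hlam _ hγ hcof
  have h1' : lam (bb g ω₁) < ⨆ x : Iio (ω₁ : Ordinal.{0}), (max (g (bb g x)) (bb g x) + 1) := by
    rw [bb] at h1
    conv_lhs => rw [bb]
    exact h1
  obtain ⟨x, hx⟩ := (Ordinal.lt_iSup_iff).mp h1'
  have hx1 : (x : Ordinal.{0}) + 1 < ω₁ := (isSuccLimit_omega 1).add_one_lt x.2
  have h2 : lam (bb g ω₁) ≤ bb g (x + 1) := hx.le.trans (bb_le g (Order.lt_add_one_iff.mpr le_rfl))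
  have h3 := hg2 (bb g (x + 1)) (bb_lt g hg1 _ (hx1.trans h12)) (bb g ω₁) hγ hcof h2
  have h4 := bb_le g hx1
  have h5 : g (bb g (x + 1)) < bb g ω₁ :=
    lt_of_lt_of_le (Order.lt_add_one_iff.mpr (le_max_left _ _)) h4
  exact lt_asymm h3 h5

end Pool.Agent.Work.MP_6cc3c8_lc
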