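import Pool.Agent.Work.MP_6cc3c8_lc.Sc

/-!
# Successor stage: uniqueness.  Size: M.

Classify `c` by `sc_class`.  First class: both are `ap i` of predecessors of `c'` of the same level (`i` injective): `hI.uniq`.
Second class (`u` = predecessor of `c'` of level `s`, `hI.ex`; `k = spec u`, `P = pot ζ k`; `sc_right`): both lifts: `hI.uniq`.  One lift `a = ap b x`, `R D ζ x c'`, one in `Cr`
(`s ≤ a'.1 < θ ζ`): if `x.1 < s` then `a.1 = x.1 < s`; if `s ≤ x.1` then `a.1 ≥ b s ≥ θ ζ`; both are impossible.  Both in `Cr`: `Same a x`, `Same a' x'` with `x, x'` below `P`: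
`hI.uniq` gives `x = x'`; `Same a x` (so `a.1 = x.1 ≤ P.1`) and `P.1 < a'.1`: impossible; both new: same level and same name.
Third class: the same with `sc_new`.
-/

namespace Pool.Agent.Work.MP_6cc3c8_lc

open Cardinal Ordinal Set

variable {M : Morass} {D : Dat M}

private theorem sb_ext {η : Ordinal.{0}} {a a' : Nd M η} (h1 : a.1 = a'.1) (h2 : a.2 = a'.2) :
    a = a' := Prod.ext h1 h2

private theorem sb_cr {ζ : Ordinal.{0}} (hI : Inv D ζ) {P : Nd M ζ} {N : Ordinal.{0} × ℕ}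
    {a a' : Nd M (ζ + 1)} (hl : a.1 = a'.1)
    (h : (∃ x, R D ζ x P ∧ Same a x) ∨ ((P.1 : Ordinal.{0}) < a.1 ∧ a.2 = N))
    (h' : (∃ x, R D ζ x P ∧ Same a' x) ∨ ((P.1 : Ordinal.{0}) < a'.1 ∧ a'.2 = N)) : a = a' := by
  have hlo : ((a.1 : Iio (M.θ (ζ + 1))) : Ordinal.{0}) = a'.1 := congrArg _ hl
  rcases h with ⟨x, hx, h1, h2⟩ | ⟨h1, h2⟩
  · have hxP : (x.1 : Ordinal.{0}) ≤ P.1 := hI.lev _ _ hx
    rcases h' with ⟨x', hx', h1', h2'⟩ | ⟨h1', h2'⟩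
    · have e : x.1 = x'.1 := Subtype.ext (h1.symm.trans (hlo.trans h1'))
      have e2 : x = x' := hI.uniq _ _ _ hx hx' e
      exact sb_ext hl (by rw [h2, h2', e2])
    · exfalso
      rw [← hlo, h1] at h1'
      exact absurd h1' (not_lt.2 hxP)
  · rcases h' with ⟨x', hx', h1', h2'⟩ | ⟨h1', h2'⟩
    · exfalso
      have hxP : (x'.1 : Ordinal.{0}) ≤ P.1 := hI.lev _ _ hx'
      rw [hlo, h1'] at h1
      exact absurd h1 (not_lt.2 hxP)
    · exact sb_ext hl (h2.trans h2'.symm)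

private theorem sb_mix {ζ : Ordinal.{0}} {b : Iio (M.θ ζ) → Iio (M.θ (ζ + 1))}
    (hmono : StrictMono b) {s : Iio (M.θ ζ)} (hs : IsSplit b s) {u x : Nd M ζ} (hus : u.1 = s)
    {a' : Nd M (ζ + 1)} (hl : (ap b x).1 = a'.1) (h1 : (u.1 : Ordinal.{0}) ≤ a'.1)
    (h2 : (a'.1 : Ordinal.{0}) < M.θ ζ) : False := by
  have hlo : ((b x.1 : Iio (M.θ (ζ + 1))) : Ordinal.{0}) = a'.1 := congrArg Subtype.val hl
  rcases lt_or_ge x.1 s with hx | hx
  · have h3 := hs.1 x.1 hx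
    rw [← hlo, h3, hus] at h1
    have h4 : (x.1 : Ordinal.{0}) < s := hx
    exact absurd h4 (not_lt.2 h1)
  · have h3 : b s ≤ b x.1 := hmono.monotone hx
    have h4 : ((b s : Iio (M.θ (ζ + 1))) : Ordinal.{0}) ≤ b x.1 := h3
    rw [hlo] at h4
    exact absurd h2 (not_lt.2 (hs.2.trans h4))

theorem sUniq {ζ : Ordinal.{0}} (hζ : ζ < ω₁) (hI : Inv D ζ) (a a' c : Nd M (ζ + 1)) (h : R D (ζ + 1) a c)
    (h' : R D (ζ + 1) a' c) (hl : a.1 = a'.1) : a = a' := by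
  have hle : ζ + 1 ≤ ω₁ := Order.add_one_le_of_lt hζ
  have hlt : ζ < ζ + 1 := Order.lt_add_one_iff.2 le_rfl
  rcases sc_class hζ hI h with ⟨i, hi, hinc, c', hc', rfl⟩ | ⟨b, hb, s, hs, c', hc', hsc, rfl⟩ |
    ⟨k, hk, hkk, hkc⟩
  · have hbc := (hI.birth _ _ hc').1
    obtain ⟨x, hx, rfl⟩ := (sc_left hζ hI hi hinc c' hbc a).1 h
    obtain ⟨x', hx', rfl⟩ := (sc_left hζ hI hi hinc c' hbc a').1 h'
    have hinj := (M.mono _ _ hlt hle i hi).injective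
    have e : x.1 = x'.1 := hinj hl
    rw [hI.uniq _ _ _ hx hx' e]
  · have hbc := (hI.birth _ _ hc').1
    have hmono := M.mono _ _ hlt hle b hb
    obtain ⟨u, hu, hus⟩ := hI.ex c' hc' s hsc
    rcases (sc_right hζ hI hb hs c' hbc u hu hus a).1 h with ⟨x, hx, rfl⟩ | hcr
    · rcases (sc_right hζ hI hb hs c' hbc u hu hus a').1 h' with ⟨x', hx', rfl⟩ | hcr'
      · have e : x.1 = x'.1 := hmono.injective hl
        rw [hI.uniq _ _ _ hx hx' e]
      · exact (sb_mix hmono hs hus hl hcr'.1 hcr'.2.1).elim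
    · rcases (sc_right hζ hI hb hs c' hbc u hu hus a').1 h' with ⟨x', hx', rfl⟩ | hcr'
      · exact (sb_mix hmono hs hus hl.symm hcr.1 hcr.2.1).elim
      · exact sb_cr hI hl hcr.2.2 hcr'.2.2
  · obtain ⟨-, -, h1⟩ := (sc_new hζ hI c k hk a).1 h
    obtain ⟨-, -, h2⟩ := (sc_new hζ hI c k hk a').1 h'
    refine sb_cr hI (P := D.pot ζ k) (N := (ζ + 1, k)) hl ?_ ?_
    · rcases h1 with h1 | ⟨e1, e2, -⟩
      · exact Or.inl h1
      · exact Or.inr ⟨e2, e1⟩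
    · rcases h2 with h2 | ⟨e1, e2, -⟩
      · exact Or.inl h2
      · exact Or.inr ⟨e2, e1⟩

end Pool.Agent.Work.MP_6cc3c8_lc
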