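import Pool.Agent.Work.MP_6cc3c8_lc.Sc

/-!
# Successor stage: existence of the predecessors.  Size: M.

Classify `c` by `sc_class`.  First class `c = ap i c'`: `y ≤ c.1 = c'.1 < θ ζ`, take the predecessor of `c'` of level `y`.
Second class `c = ap b c'`, `s ≤ c'.1`, `u` the predecessor of `c'` of level `s`, `k = spec u`, `P = pot ζ k`, `R D ζ u P` (`spec_ge`):
`y < s`: the predecessor `a'` of `c'` of level `y`, `ap b a'` has level `b y = y`.  `s ≤ y < θ ζ`, `y ≤ P.1`: the predecessor `a'` of `P` of level `y`, the node `(y, a'.2)` is in `Cr`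
(first alternative).  `s ≤ y < θ ζ`, `P.1 < y`: the node `(y, (ζ + 1, k))`.  `θ ζ ≤ y`: `y = b y'` by `split_surj`, `y' ≤ c'.1` by strict monotonicity, the predecessor `a'` of `c'` of
level `y'`, `ap b a'`.
Third class: `y ≤ P.1`: the predecessor of `P = pot ζ k` of level `y`; `P.1 < y`: `(y, (ζ + 1, k))`.
-/

namespace Pool.Agent.Work.MP_6cc3c8_lc

open Cardinal Ordinal Set

variable {M : Morass} {D : Dat M}

theorem sEx {ζ : Ordinal.{0}} (hζ : ζ < ω₁) (hI : Inv D ζ) (c : Nd M (ζ + 1)) (h : R D (ζ + 1) c c)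
    (y : Iio (M.θ (ζ + 1))) (hy : y ≤ c.1) : ∃ a, R D (ζ + 1) a c ∧ a.1 = y := by
  have hlt1 : ζ < ζ + 1 := Order.lt_add_one_iff.2 le_rfl
  have hy' : (y : Ordinal.{0}) ≤ (c.1 : Ordinal.{0}) := hy
  obtain ⟨i, hi, hinc, -⟩ := succ_form (M := M) hζ
  rcases sc_class hζ hI h with ⟨j, hj, hjinc, c', hc', rfl⟩ | ⟨b, hb, s, hs, c', hc', hsc, rfl⟩ |
    ⟨k, hk, hP, hlt⟩
  · have h1 : (y : Ordinal.{0}) ≤ c'.1 := by
      have h2 := hjinc c'.1
      have h3 : (y : Ordinal.{0}) ≤ ((j c'.1 : Iio (M.θ (ζ + 1))) : Ordinal.{0}) := hy'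
      rwa [h2] at h3
    have h2 : (y : Ordinal.{0}) < M.θ ζ := lt_of_le_of_lt h1 c'.1.2
    obtain ⟨a', ha', hay⟩ := hI.ex c' hc' ⟨y, h2⟩ h1
    refine ⟨ap j a', lift hlt1 hj ha', Subtype.ext ?_⟩
    show ((j a'.1 : Iio (M.θ (ζ + 1))) : Ordinal.{0}) = y
    rw [hjinc, hay]
  · have hbc : c'.2.1 ≤ ζ := (hI.birth _ _ hc').1
    obtain ⟨u, hu, hus⟩ := hI.ex c' hc' s hsc
    have huu : R D ζ u u := (hI.refl _ _ hu).1
    have hge := spec_ge hζ hI huu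
    have hPP := (hI.refl _ _ hge).2
    rcases lt_or_ge (y : Ordinal.{0}) (M.θ ζ) with hyθ | hyθ
    · rcases lt_or_ge (y : Ordinal.{0}) (s : Ordinal.{0}) with hys | hys
      · -- `y < s`
        have h1 : (⟨y, hyθ⟩ : Iio (M.θ ζ)) ≤ c'.1 := le_of_lt (lt_of_lt_of_le hys hsc)
        obtain ⟨a', ha', hay⟩ := hI.ex c' hc' ⟨y, hyθ⟩ h1
        refine ⟨ap b a', lift hlt1 hb ha', Subtype.ext ?_⟩
        show ((b a'.1 : Iio (M.θ (ζ + 1))) : Ordinal.{0}) = y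
        rw [hay, hs.1 ⟨y, hyθ⟩ hys]
      · rcases le_or_gt (y : Ordinal.{0}) ((D.pot ζ (spec D ζ (R D ζ) u)).1 : Ordinal.{0}) with hyP | hyP
        · obtain ⟨a', ha', hay⟩ := hI.ex _ hPP ⟨y, hyθ⟩ hyP
          refine ⟨(y, a'.2), ?_, rfl⟩
          rw [sc_right hζ hI hb hs c' hbc u hu hus]
          right
          refine ⟨?_, hyθ, Or.inl ⟨a', ha', ?_, rfl⟩⟩
          · rw [hus]; exact hys
          · rw [hay]
        · refine ⟨(y, (ζ + 1, spec D ζ (R D ζ) u)), ?_, rfl⟩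
          rw [sc_right hζ hI hb hs c' hbc u hu hus]
          right
          refine ⟨?_, hyθ, Or.inr ⟨hyP, rfl⟩⟩
          rw [hus]; exact hys
    · obtain ⟨y', hy'y⟩ := split_surj hζ hb hs y hyθ
      have hmono : StrictMono b := M.mono ζ (ζ + 1) hlt1 (Order.add_one_le_of_lt hζ) b hb
      have h1 : y' ≤ c'.1 := by
        have h2 : b y' ≤ b c'.1 := by
          rw [hy'y]; exact hy
        exact hmono.le_iff_le.1 h2
      obtain ⟨a', ha', hay⟩ := hI.ex c' hc' y' h1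
      refine ⟨ap b a', lift hlt1 hb ha', ?_⟩
      show b a'.1 = y
      rw [hay, hy'y]
  · rcases le_or_gt (y : Ordinal.{0}) ((D.pot ζ k).1 : Ordinal.{0}) with hyP | hyP
    · have hyθ : (y : Ordinal.{0}) < M.θ ζ := lt_of_le_of_lt hyP (D.pot ζ k).1.2
      obtain ⟨a', ha', hay⟩ := hI.ex _ hP ⟨y, hyθ⟩ hyP
      refine ⟨(y, a'.2), ?_, rfl⟩
      rw [sc_new hζ hI c k hk]
      refine ⟨hP, hlt, Or.inl ⟨a', ha', ?_, rfl⟩⟩
      rw [hay]
    · refine ⟨(y, (ζ + 1, k)), ?_, rfl⟩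
      rw [sc_new hζ hI c k hk]
      exact ⟨hP, hlt, Or.inr ⟨rfl, hyP, hy⟩⟩

end Pool.Agent.Work.MP_6cc3c8_lc
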