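import Pool.Agent.Work.MP_6cc3c8_lc.Sc

/-!
# Successor stage: transitivity.  Size: M.

`R a b`, `R b c` at the stage `ζ + 1`.  Remark (*): if `R D ζ a' P`, `R D ζ u P` and `a'.1 ≤ u.1` then `R D ζ a' u` (the predecessor of `u` of level `a'.1` is below `P`
by transitivity, so it is `a'` by uniqueness).  A node `x` of the stage `ζ + 1` with `Same x x'` is `ap i x'`, `i` the inclusion (`succ_form`).
Classify `c` by `sc_class`.
1. `c = ap i c'`: `b = ap i b'`, then `a = ap i a'` (`sc_left` for `b'`), `hI.trans`, `lift`.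
2. `c = ap β c'`, `s ≤ c'.1`, `u` the predecessor of `c'` of level `s`, `k = spec u`, `P = pot ζ k`, `R D ζ u P` (`spec_ge`).
 (2a) `b = ap β b'`, `R D ζ b' c'`, `s ≤ b'.1`: the predecessor of `b'` of level `s` is `u` (`hI.trans`, `hI.uniq`), so by `sc_right` for `b'` either `a = ap β a'` with
 `R D ζ a' b'`, hence `R D ζ a' c'`, or `Cr u a`; both are predecessors of `c`.
 (2b) `b = ap β b'`, `b'.1 < s`: `ap β b' = ap i b'`, so `a = ap i a'`, `R D ζ a' b'`, `a'.1 < s`, `a = ap β a'`, `R D ζ a' c'`.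
 (2c) `b` in `Cr u`, `Same b b'`, `R D ζ b' P`: `b = ap i b'`, `a = ap i a'` with `R D ζ a' b'`, so `R D ζ a' P`.  If `s ≤ a'.1`: `Cr u a` (first alternative).  If `a'.1 < s`: (*) gives
 `R D ζ a' u`, so `R D ζ a' c'` and `a = ap i a' = ap β a'`.
 (2d) `b` in `Cr u`, `b.2 = (ζ + 1, k)`: `sc_new` for `b`: `Same a a'`, `R D ζ a' P`: as in (2c); `a.2 = (ζ + 1, k)`, `P.1 < a.1 ≤ b.1 < θ ζ`, and `s = u.1 ≤ P.1`: `Cr u a` (second).
3. `c.2 = (ζ + 1, k)`: `b` with `Same b b'`, `R D ζ b' P`: `b = ap i b'`, `a = ap i a'`, `R D ζ a' P`.  `b.2 = (ζ + 1, k)`, `b.1 ≤ c.1`: `sc_new` for `b` gives the same alternatives for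
`a`, with `a.1 ≤ b.1 ≤ c.1`.
-/

namespace Pool.Agent.Work.MP_6cc3c8_lc

open Cardinal Ordinal Set

variable {M : Morass} {D : Dat M}

private theorem same_form {ζ : Ordinal.{0}} {i : Iio (M.θ ζ) → Iio (M.θ (ζ + 1))} (hi : IsInc i)
    {x : Nd M (ζ + 1)} {x' : Nd M ζ} (h : Same x x') : x = ap i x' := by
  refine Prod.ext (Subtype.ext ?_) h.2
  show (x.1 : Ordinal.{0}) = ((i x'.1 : Iio (M.θ (ζ + 1))) : Ordinal.{0})
  rw [hi, h.1]

private theorem form_same {ζ : Ordinal.{0}} {i : Iio (M.θ ζ) → Iio (M.θ (ζ + 1))} (hi : IsInc i)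
    (x' : Nd M ζ) : Same (ap i x') x' := ⟨hi x'.1, rfl⟩

private theorem inc_eq_split {ζ : Ordinal.{0}} {i β : Iio (M.θ ζ) → Iio (M.θ (ζ + 1))} (hi : IsInc i)
    {s : Iio (M.θ ζ)} (hs : IsSplit β s) {x : Nd M ζ} (h : x.1 < s) : ap i x = ap β x := by
  refine Prod.ext (Subtype.ext ?_) rfl
  show ((i x.1 : Iio (M.θ (ζ + 1))) : Ordinal.{0}) = ((β x.1 : Iio (M.θ (ζ + 1))) : Ordinal.{0})
  rw [hi, hs.1 _ h]

private theorem star {ζ : Ordinal.{0}} (hI : Inv D ζ) {a u P : Nd M ζ} (ha : R D ζ a P) (hu : R D ζ u P)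
    (h : a.1 ≤ u.1) : R D ζ a u := by
  obtain ⟨w, hw, hw1⟩ := hI.ex u (hI.refl _ _ hu).1 a.1 h
  have := hI.uniq w a P (hI.trans _ _ _ hw hu) ha hw1
  rwa [this] at hw

theorem sTrans {ζ : Ordinal.{0}} (hζ : ζ < ω₁) (hI : Inv D ζ) (a b c : Nd M (ζ + 1)) (h : R D (ζ + 1) a b)
    (h' : R D (ζ + 1) b c) : R D (ζ + 1) a c := by
  have hlt1 : ζ < ζ + 1 := Order.lt_add_one_iff.2 le_rfl
  obtain ⟨i, hi, hinc, -⟩ := succ_form (M := M) hζ
  rcases sc_class hζ hI h' with ⟨j, hj, hjinc, c', hc', rfl⟩ | ⟨β, hβ, s, hs, c', hc', hsc, rfl⟩ |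
    ⟨k, hk, hP, hlt⟩
  · rw [sc_left hζ hI hj hjinc c' (hI.birth _ _ hc').1] at h'
    obtain ⟨b', hb', rfl⟩ := h'
    rw [sc_left hζ hI hj hjinc b' (hI.birth _ _ hb').1] at h
    obtain ⟨a', ha', rfl⟩ := h
    exact lift hlt1 hj (hI.trans _ _ _ ha' hb')
  · have hbc : c'.2.1 ≤ ζ := (hI.birth _ _ hc').1
    obtain ⟨u, hu, hus⟩ := hI.ex c' hc' s hsc
    have huu : R D ζ u u := (hI.refl _ _ hu).1
    have hge := spec_ge hζ hI huu
    -- the predecessors of the node `P` are predecessors of `c`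
    have key : ∀ a' : Nd M ζ, R D ζ a' (D.pot ζ (spec D ζ (R D ζ) u)) → R D (ζ + 1) (ap i a') (ap β c') := by
      intro a' ha'
      rcases le_or_gt s a'.1 with hsa | hsa
      · rw [sc_right hζ hI hβ hs c' hbc u hu hus]
        right
        refine ⟨?_, ?_, Or.inl ⟨a', ha', form_same hinc a'⟩⟩
        · show (u.1 : Ordinal.{0}) ≤ ((i a'.1 : Iio (M.θ (ζ + 1))) : Ordinal.{0})
          rw [hinc, hus]; exact hsa
        · show ((i a'.1 : Iio (M.θ (ζ + 1))) : Ordinal.{0}) < M.θ ζ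
          rw [hinc]; exact a'.1.2
      · have h1 : R D ζ a' u := star hI ha' hge (by rw [hus]; exact hsa.le)
        rw [inc_eq_split hinc hs hsa]
        exact lift hlt1 hβ (hI.trans _ _ _ h1 hu)
    rw [sc_right hζ hI hβ hs c' hbc u hu hus] at h'
    rcases h' with ⟨b', hb', rfl⟩ | ⟨hb1, hb2, ⟨b', hb', hsame⟩ | ⟨hb3, hb4⟩⟩
    · have hbb' : R D ζ b' b' := (hI.refl _ _ hb').1
      rcases le_or_gt s b'.1 with hsb | hsb
      · obtain ⟨u', hu', hus'⟩ := hI.ex b' hbb' s hsb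
        have huu' : u' = u := hI.uniq u' u c' (hI.trans _ _ _ hu' hb') hu (by rw [hus', hus])
        subst huu'
        rw [sc_right hζ hI hβ hs b' (hI.birth _ _ hb').1 u' hu' hus] at h
        rw [sc_right hζ hI hβ hs c' hbc u' hu hus]
        rcases h with ⟨a', ha', rfl⟩ | h
        · exact Or.inl ⟨a', hI.trans _ _ _ ha' hb', rfl⟩
        · exact Or.inr h
      · rw [← inc_eq_split hinc hs hsb, sc_left hζ hI hi hinc b' (hI.birth _ _ hb').1] at h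
        obtain ⟨a', ha', rfl⟩ := h
        rw [inc_eq_split hinc hs (lt_of_le_of_lt (hI.lev _ _ ha') hsb)]
        exact lift hlt1 hβ (hI.trans _ _ _ ha' hb')
    · rw [same_form hinc hsame, sc_left hζ hI hi hinc b' (hI.birth _ _ hb').1] at h
      obtain ⟨a', ha', rfl⟩ := h
      exact key a' (hI.trans _ _ _ ha' hb')
    · rw [sc_new hζ hI b _ hb4] at h
      obtain ⟨hPP, hPb, ⟨a', ha', hsame⟩ | ⟨ha1, ha2, ha3⟩⟩ := h
      · rw [same_form hinc hsame]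
        exact key a' ha'
      · rw [sc_right hζ hI hβ hs c' hbc u hu hus]
        right
        have h5 : (u.1 : Ordinal.{0}) ≤ ((D.pot ζ (spec D ζ (R D ζ) u)).1 : Ordinal.{0}) := hI.lev _ _ hge
        have h6 : (a.1 : Ordinal.{0}) ≤ (b.1 : Ordinal.{0}) := ha3
        exact ⟨h5.trans ha2.le, lt_of_le_of_lt h6 hb2, Or.inr ⟨ha2, ha1⟩⟩
  · rw [sc_new hζ hI c k hk] at h'
    obtain ⟨-, -, ⟨b', hb', hsame⟩ | ⟨hb1, hb2, hb3⟩⟩ := h'
    · rw [same_form hinc hsame, sc_left hζ hI hi hinc b' (hI.birth _ _ hb').1] at h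
      obtain ⟨a', ha', rfl⟩ := h
      rw [sc_new hζ hI c k hk]
      exact ⟨hP, hlt, Or.inl ⟨a', hI.trans _ _ _ ha' hb', form_same hinc a'⟩⟩
    · rw [sc_new hζ hI b k hb1] at h
      rw [sc_new hζ hI c k hk]
      obtain ⟨-, -, h | ⟨ha1, ha2, ha3⟩⟩ := h
      · exact ⟨hP, hlt, Or.inl h⟩
      · exact ⟨hP, hlt, Or.inr ⟨ha1, ha2, le_trans ha3 hb3⟩⟩

end Pool.Agent.Work.MP_6cc3c8_lc
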