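import Pool.Agent.Work.MP_6cc3c8_lc.Defs

/-!
# Elementary facts on simplified morasses.  Size: M.

`factor`, `compose` are `M.comp`.  `succ_form` is `M.succ` (if `F = {i}` every `f` is `i`).  `inc_split`: if `b` is an inclusion then `b s = s < θ ζ`,
contradiction.  `split_unique`: `b = b'` by `M.succ` and `inc_split`; if `s < s'` then `b s = s < θ ζ`, contradiction.
`split_surj`: `M.cover` at `ζ + 1` gives `ζ' < ζ + 1` and `f ∈ F ζ' (ζ + 1)` with `y ∈ range f`; if `ζ' < ζ` use `factor`, so `y ∈ range k`, `k ∈ F ζ (ζ + 1)`;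
`k` is not the inclusion since `θ ζ ≤ y`, so `k` is a split map (`succ_form`), `k = b` by `split_unique`.
`le_map`: a strictly monotone map between initial segments of the ordinals is `≥ id` (well-founded induction on `x`: if `f x < x` as ordinals, then
`x' = f x` is in the domain, `f x' < f x = x'`, against the induction hypothesis).
`inj` : `StrictMono.injective`.
`agree`: induction on `η`, for all `ζ < η` (`Ordinal.limitRecOn` or strong induction with the cases `η = 0`, `η = ξ + 1`, `η` limit; use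
`Ordinal.zero_or_succ_or_isSuccLimit` or similar).
`η = ξ + 1`.  First `ζ = ξ`: by `M.succ` each of `f, g` is the inclusion `i` or the split map `b`.  If `f = g` use injectivity.  If `f = i`, `g = b`:
`x = b y` as ordinals, so `b y < θ ζ ≤ b s`, `y < s`, `b y = y`, hence `x = y`, and for `z ≤ x` also `z < s`, `b z = z = i z`.  Symmetric.
Now `ζ < ξ`: `f = c ∘ f'`, `g = c' ∘ g'` with `c, c' ∈ F ξ (ξ + 1)` (`factor`), `c (f' x) = c' (g' y)`, so by the first case `f' x = g' y` and `c = c'` on the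
ordinals `≤ f' x`; by induction `x = y` and `f' = g'` on `≤ x`; for `z ≤ x` we have `f' z ≤ f' x`, so `f z = c (f' z) = c' (f' z) = c' (g' z) = g z`.
`η` limit: `M.limit` with `ξ = ζ` gives `γ < η`, `f = h ∘ f'`, `g = h ∘ g'`; `h` is injective, so `f' x = g' y`; induction for `γ`.
`nonempty`: induction on `η`: `η = ξ + 1`: `F ξ (ξ + 1)` is nonempty (`M.succ`), compose.  `η` limit: `M.cover` for `y = ⟨0, M.pos⟩` gives `ζ' < η` and an
element of `F ζ' η`; if `ζ = ζ'` done; if `ζ < ζ'` compose with an element of `F ζ ζ'` (induction); if `ζ' < ζ` use `factor`.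
-/

namespace Pool.Agent.Work.MP_6cc3c8_lc

open Cardinal Ordinal Set

variable {M : Morass}

theorem inj {ζ η : Ordinal.{0}} (h : ζ < η) (hη : η ≤ ω₁) {f : Iio (M.θ ζ) → Iio (M.θ η)} (hf : f ∈ M.F ζ η) :
    Function.Injective f :=
  (M.mono ζ η h hη f hf).injective

theorem factor {ζ ξ η : Ordinal.{0}} (h : ζ < ξ) (h' : ξ < η) (hη : η ≤ ω₁) {f : Iio (M.θ ζ) → Iio (M.θ η)}
    (hf : f ∈ M.F ζ η) : ∃ g ∈ M.F ζ ξ, ∃ k ∈ M.F ξ η, f = k ∘ g :=
  (M.comp ζ ξ η h h' hη f).1 hf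

theorem compose {ζ ξ η : Ordinal.{0}} (h : ζ < ξ) (h' : ξ < η) (hη : η ≤ ω₁) {g : Iio (M.θ ζ) → Iio (M.θ ξ)}
    {k : Iio (M.θ ξ) → Iio (M.θ η)} (hg : g ∈ M.F ζ ξ) (hk : k ∈ M.F ξ η) : k ∘ g ∈ M.F ζ η :=
  (M.comp ζ ξ η h h' hη _).2 ⟨g, hg, k, hk, rfl⟩

theorem succ_form {ζ : Ordinal.{0}} (h : ζ < ω₁) :
    ∃ i ∈ M.F ζ (ζ + 1), IsInc i ∧ ∀ f ∈ M.F ζ (ζ + 1), f = i ∨ ∃ s, IsSplit f s := by
  rcases M.succ ζ h with ⟨i, hF, hi⟩ | ⟨i, b, hF, hi, s, hs1, hs2⟩
  · refine ⟨i, ?_, hi, fun f hf => Or.inl ?_⟩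
    · rw [hF]
      exact Set.mem_singleton i
    · rw [hF] at hf
      exact hf
  · refine ⟨i, ?_, hi, fun f hf => ?_⟩
    · rw [hF]
      exact Set.mem_insert i _
    · rw [hF] at hf
      rcases hf with rfl | rfl
      · exact Or.inl rfl
      · exact Or.inr ⟨s, hs1, hs2⟩

theorem inc_split {ζ η : Ordinal.{0}} {b : Iio (M.θ ζ) → Iio (M.θ η)} {s : Iio (M.θ ζ)} (hi : IsInc b)
    (hs : IsSplit b s) : False := by
  have h1 := hs.2
  rw [hi s] at h1
  exact absurd s.2 (not_lt.mpr h1)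

theorem inc_unique {ζ η : Ordinal.{0}} {i i' : Iio (M.θ ζ) → Iio (M.θ η)} (hi : IsInc i) (hi' : IsInc i') :
    i = i' := by
  funext x
  exact Subtype.ext ((hi x).trans (hi' x).symm)

private theorem split_lt {ζ η : Ordinal.{0}} {b : Iio (M.θ ζ) → Iio (M.θ η)} {s s' : Iio (M.θ ζ)}
    (hs : IsSplit b s) (hs' : IsSplit b s') : ¬ s < s' := by
  intro h
  have h1 := hs'.1 s h
  have h2 := hs.2
  rw [h1] at h2
  exact absurd s.2 (not_lt.mpr h2)

theorem split_unique {ζ : Ordinal.{0}} (h : ζ < ω₁) {b b' : Iio (M.θ ζ) → Iio (M.θ (ζ + 1))} {s s' : Iio (M.θ ζ)}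
    (hb : b ∈ M.F ζ (ζ + 1)) (hb' : b' ∈ M.F ζ (ζ + 1)) (hs : IsSplit b s) (hs' : IsSplit b' s') :
    b = b' ∧ s = s' := by
  have key : b = b' := by
    rcases M.succ ζ h with ⟨i, hF, hi⟩ | ⟨i, c, hF, hi, _, _, _⟩
    · rw [hF] at hb
      have hb2 : b = i := hb
      rw [hb2] at hs
      exact (inc_split hi hs).elim
    · rw [hF] at hb hb'
      rcases hb with h1 | h1
      · rw [h1] at hs
        exact (inc_split hi hs).elim
      · rcases hb' with h2 | h2
        · rw [h2] at hs'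
          exact (inc_split hi hs').elim
        · have h1' : b = c := h1
          have h2' : b' = c := h2
          rw [h1', h2']
  subst key
  refine ⟨rfl, ?_⟩
  rcases lt_trichotomy s s' with h1 | h1 | h1
  · exact (split_lt hs hs' h1).elim
  · exact h1
  · exact (split_lt hs' hs h1).elim

theorem split_surj {ζ : Ordinal.{0}} (h : ζ < ω₁) {b : Iio (M.θ ζ) → Iio (M.θ (ζ + 1))} {s : Iio (M.θ ζ)}
    (hb : b ∈ M.F ζ (ζ + 1)) (hs : IsSplit b s) (y : Iio (M.θ (ζ + 1))) (hy : M.θ ζ ≤ y) : ∃ y', b y' = y := by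
  have hle : ζ + 1 ≤ ω₁ := Order.add_one_le_of_lt h
  have hlt : ζ < ζ + 1 := Order.lt_add_one_iff.2 le_rfl
  obtain ⟨ζ', hζ', f, hf, y0, hy0⟩ := M.cover (ζ + 1) (Order.lt_add_one_iff.2 zero_le) hle y
  obtain ⟨k, hk, z, hz⟩ : ∃ k ∈ M.F ζ (ζ + 1), ∃ z, k z = y := by
    rcases lt_or_eq_of_le (Order.lt_add_one_iff.1 hζ') with h1 | h1
    · obtain ⟨g, _, k, hk, hfk⟩ := factor h1 hlt hle hf
      refine ⟨k, hk, g y0, ?_⟩
      rw [hfk] at hy0
      exact hy0
    · subst h1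
      exact ⟨f, hf, y0, hy0⟩
  obtain ⟨i, _, hi, hall⟩ := succ_form (M := M) h
  rcases hall k hk with h1 | ⟨s', hs'⟩
  · exfalso
    rw [h1] at hz
    have h2 := hi z
    rw [hz] at h2
    rw [h2] at hy
    exact absurd z.2 (not_lt.mpr hy)
  · obtain ⟨h2, _⟩ := split_unique h hb hk hs hs'
    exact ⟨z, by rw [h2, hz]⟩

theorem le_map {ζ η : Ordinal.{0}} (h : ζ < η) (hη : η ≤ ω₁) {f : Iio (M.θ ζ) → Iio (M.θ η)} (hf : f ∈ M.F ζ η)
    (x : Iio (M.θ ζ)) : (x : Ordinal.{0}) ≤ f x := by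
  have hm := M.mono ζ η h hη f hf
  induction x using WellFoundedLT.induction with
  | ind x ih =>
    by_contra hc
    have hc' : (f x : Ordinal.{0}) < x := not_le.mp hc
    have h1 : (⟨(f x : Ordinal.{0}), lt_trans hc' x.2⟩ : Iio (M.θ ζ)) < x := hc'
    have h2 := ih _ h1
    have h3 : (f ⟨(f x : Ordinal.{0}), lt_trans hc' x.2⟩ : Ordinal.{0}) < f x := hm h1
    exact absurd h3 (not_lt.mpr h2)

private theorem agree_succ {ζ : Ordinal.{0}} (h : ζ < ω₁) {f g : Iio (M.θ ζ) → Iio (M.θ (ζ + 1))}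
    (hf : f ∈ M.F ζ (ζ + 1)) (hg : g ∈ M.F ζ (ζ + 1)) {x y : Iio (M.θ ζ)} (hxy : f x = g y) :
    x = y ∧ ∀ z ≤ x, f z = g z := by
  have hle : ζ + 1 ≤ ω₁ := Order.add_one_le_of_lt h
  have hlt : ζ < ζ + 1 := Order.lt_add_one_iff.2 le_rfl
  have hfi := inj hlt hle hf
  have hfm := M.mono _ _ hlt hle f hf
  have hgm := M.mono _ _ hlt hle g hg
  obtain ⟨i, _, hi, hall⟩ := succ_form (M := M) h
  rcases hall f hf with h1 | ⟨s, hs⟩
  · rcases hall g hg with h2 | ⟨s, hs⟩
    · have hfg : f = g := h1.trans h2.symm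
      rw [← hfg] at hxy
      exact ⟨hfi hxy, fun z _ => by rw [hfg]⟩
    · have e1 : (g y : Ordinal.{0}) = x := by
        rw [← hxy, h1]
        exact hi x
      have h3 : g y < g s := by
        have h4 : (g y : Ordinal.{0}) < g s := by
          rw [e1]
          exact lt_of_lt_of_le x.2 hs.2
        exact h4
      have h5 : y < s := hgm.lt_iff_lt.1 h3
      have h6 := hs.1 y h5
      have h7 : x = y := Subtype.ext (e1.symm.trans h6)
      refine ⟨h7, fun z hz => ?_⟩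
      have h8 : z < s := lt_of_le_of_lt hz (h7 ▸ h5)
      rw [h1]
      exact Subtype.ext ((hi z).trans (hs.1 z h8).symm)
  · rcases hall g hg with h2 | ⟨s', hs'⟩
    · have e1 : (f x : Ordinal.{0}) = y := by
        rw [hxy, h2]
        exact hi y
      have h3 : f x < f s := by
        have h4 : (f x : Ordinal.{0}) < f s := by
          rw [e1]
          exact lt_of_lt_of_le y.2 hs.2
        exact h4
      have h5 : x < s := hfm.lt_iff_lt.1 h3
      have h6 := hs.1 x h5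
      have h7 : x = y := Subtype.ext (h6.symm.trans e1)
      refine ⟨h7, fun z hz => ?_⟩
      have h8 : z < s := lt_of_le_of_lt hz h5
      rw [h2]
      exact Subtype.ext ((hs.1 z h8).trans (hi z).symm)
    · have hfg : f = g := (split_unique h hf hg hs hs').1
      rw [← hfg] at hxy
      exact ⟨hfi hxy, fun z _ => by rw [hfg]⟩

theorem agree {ζ η : Ordinal.{0}} (h : ζ < η) (hη : η ≤ ω₁) {f g : Iio (M.θ ζ) → Iio (M.θ η)} (hf : f ∈ M.F ζ η)
    (hg : g ∈ M.F ζ η) {x y : Iio (M.θ ζ)} (hxy : f x = g y) : x = y ∧ ∀ z ≤ x, f z = g z := by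
  induction η using WellFoundedLT.induction generalizing ζ with
  | ind η ih =>
    rcases Ordinal.zero_or_succ_or_isSuccLimit η with h0 | ⟨ξ, hξ⟩ | hl
    · rw [h0] at h
      exact absurd h (not_lt.mpr zero_le)
    · have hξ' : ξ + 1 = η := hξ
      subst hξ'
      have hξlt : ξ < ξ + 1 := Order.lt_add_one_iff.2 le_rfl
      have hξω : ξ < ω₁ := lt_of_lt_of_le hξlt hη
      rcases lt_or_eq_of_le (Order.lt_add_one_iff.1 h) with h1 | h1
      · obtain ⟨f', hf', c, hc, hfc⟩ := factor h1 hξlt hη hf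
        obtain ⟨g', hg', c', hc', hgc⟩ := factor h1 hξlt hη hg
        have h2 : c (f' x) = c' (g' y) := by
          have h3 := hxy
          rw [hfc, hgc] at h3
          exact h3
        obtain ⟨h4, h5⟩ := agree_succ hξω hc hc' h2
        obtain ⟨h6, h7⟩ := ih ξ hξlt h1 hξω.le hf' hg' h4
        refine ⟨h6, fun z hz => ?_⟩
        have h8 : f' z ≤ f' x := (M.mono ζ ξ h1 hξω.le f' hf').monotone hz
        rw [hfc, hgc, Function.comp_apply, Function.comp_apply, h5 _ h8, h7 z hz]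
      · subst h1
        exact agree_succ hξω hf hg hxy
    · obtain ⟨γ, h1, _, h2, k, hk, f', hf', g', hg', hfk, hgk⟩ := M.limit η hη hl ζ h ζ h f hf g hg
      have h3 : k (f' x) = k (g' y) := by
        have h4 := hxy
        rw [hfk, hgk] at h4
        exact h4
      have h4 := inj h2 hη hk h3
      obtain ⟨h6, h7⟩ := ih γ h2 h1 (h2.le.trans hη) hf' hg' h4
      refine ⟨h6, fun z hz => ?_⟩
      rw [hfk, hgk, Function.comp_apply, Function.comp_apply, h7 z hz]

theorem nonempty {ζ η : Ordinal.{0}} (h : ζ < η) (hη : η ≤ ω₁) : (M.F ζ η).Nonempty := by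
  induction η using WellFoundedLT.induction generalizing ζ with
  | ind η ih =>
    rcases Ordinal.zero_or_succ_or_isSuccLimit η with h0 | ⟨ξ, hξ⟩ | hl
    · rw [h0] at h
      exact absurd h (not_lt.mpr zero_le)
    · have hξ' : ξ + 1 = η := hξ
      subst hξ'
      have hξlt : ξ < ξ + 1 := Order.lt_add_one_iff.2 le_rfl
      have hξω : ξ < ω₁ := lt_of_lt_of_le hξlt hη
      obtain ⟨i, hi, _, _⟩ := succ_form (M := M) hξω
      rcases lt_or_eq_of_le (Order.lt_add_one_iff.1 h) with h1 | h1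
      · obtain ⟨g, hg⟩ := ih ξ hξlt h1 hξω.le
        exact ⟨_, compose h1 hξlt hη hg hi⟩
      · subst h1
        exact ⟨i, hi⟩
    · have hpos : 0 < η := lt_of_le_of_lt zero_le h
      obtain ⟨ζ', hζ', f, hf, _⟩ := M.cover η hpos hη ⟨0, M.pos η⟩
      rcases lt_trichotomy ζ ζ' with h1 | h1 | h1
      · obtain ⟨g, hg⟩ := ih ζ' hζ' h1 (hζ'.le.trans hη)
        exact ⟨_, compose h1 hζ' hη hg hf⟩
      · subst h1
        exact ⟨f, hf⟩
      · obtain ⟨_, _, k, hk, _⟩ := factor h1 h hη hf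
        exact ⟨k, hk⟩

end Pool.Agent.Work.MP_6cc3c8_lc
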