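import Pool.Agent.Work.MP_6cc3c8_lc.Rc
import Pool.Agent.Work.MP_6cc3c8_lc.Mor

/-!
# Stage `0` and limit stages.  Size: M.

`invZero`: `r_zero`; for `ex` take `(y, c.2)`.
`invLim`: by `r_lim` every relation `R D η a c` comes from `ζ < η`, `f ∈ F ζ η`; two relations (given by `f, g`) come from a common stage `γ < η` and a common
`h ∈ F γ η` (`M.limit`, `lift`; `ap h (ap f' a) = ap (h ∘ f') a`); `h` is injective (`inj`), so `ap h x = ap h y` gives `x = y`; `h` is strictly monotone.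
`uniq`: `a = ap h x`, `c = ap h z = ap h z'`, `a' = ap h x'`, `z = z'`, `x.1 = x'.1`, so `x = x'` by `Inv.uniq` at `γ`.
`ex`: `c = ap f c'`, `R D ζ c' c'` (from `R D ζ a' c''` with `ap f a' = ap f c''`), `y ∈ range g`, `g ∈ F ξ η` (`M.cover`, `0 < η`); with a common `h`: `y = h y'`, `c = ap h z`,
`y' ≤ z.1`, use `ex` at `γ`.  `trans`: `R a b`, `R b c` from a common `h`.  `lev`, `birth`, `refl`: immediate (`birth`: `ζ ≤ η`).
-/

namespace Pool.Agent.Work.MP_6cc3c8_lc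

open Cardinal Ordinal Set

variable {M : Morass} {D : Dat M}

private theorem ap_inj {ζ η : Ordinal.{0}} (h : ζ < η) (hη : η ≤ ω₁) {f : Iio (M.θ ζ) → Iio (M.θ η)}
    (hf : f ∈ M.F ζ η) {a b : Nd M ζ} (he : ap f a = ap f b) : a = b := by
  have h1 : f a.1 = f b.1 := congrArg Prod.fst he
  have h2 : (ap f a).2 = (ap f b).2 := by rw [he]
  exact Prod.ext (inj h hη hf h1) h2

private theorem ap_comp {ζ ξ η : Ordinal.{0}} (g : Iio (M.θ ζ) → Iio (M.θ ξ)) (k : Iio (M.θ ξ) → Iio (M.θ η))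
    (a : Nd M ζ) : ap (k ∘ g) a = ap k (ap g a) := rfl

private theorem common {η : Ordinal.{0}} (hη : η ≤ ω₁) (hl : Order.IsSuccLimit η) {a c b d : Nd M η}
    (h1 : R D η a c) (h2 : R D η b d) :
    ∃ γ, γ < η ∧ ∃ h ∈ M.F γ η, ∃ a' c' b' d', R D γ a' c' ∧ R D γ b' d' ∧
      a = ap h a' ∧ c = ap h c' ∧ b = ap h b' ∧ d = ap h d' := by
  obtain ⟨ζ, hζ, f, hf, a1, c1, hr1, rfl, rfl⟩ := (r_lim hl _ _).mp h1
  obtain ⟨ξ, hξ, g, hg, b1, d1, hr2, rfl, rfl⟩ := (r_lim hl _ _).mp h2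
  obtain ⟨γ, hγ1, hγ2, hγ, h, hh, f', hf', g', hg', rfl, rfl⟩ := M.limit η hη hl ζ hζ ξ hξ f hf g hg
  exact ⟨γ, hγ, h, hh, ap f' a1, ap f' c1, ap g' b1, ap g' d1, lift hγ1 hf' hr1, lift hγ2 hg' hr2,
    rfl, rfl, rfl, rfl⟩

private theorem common2 {η : Ordinal.{0}} (hη : η ≤ ω₁) (hl : Order.IsSuccLimit η) {a c : Nd M η}
    (h1 : R D η a c) (y : Iio (M.θ η)) :
    ∃ γ, γ < η ∧ ∃ h ∈ M.F γ η, ∃ a' c' y', R D γ a' c' ∧
      a = ap h a' ∧ c = ap h c' ∧ y = h y' := by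
  obtain ⟨ζ, hζ, f, hf, a1, c1, hr1, rfl, rfl⟩ := (r_lim hl _ _).mp h1
  have hpos : 0 < η := lt_of_le_of_lt (zero_le) hζ
  obtain ⟨ξ, hξ, g, hg, y1, rfl⟩ := M.cover η hpos hη y
  obtain ⟨γ, hγ1, hγ2, hγ, h, hh, f', hf', g', hg', rfl, rfl⟩ := M.limit η hη hl ζ hζ ξ hξ f hf g hg
  exact ⟨γ, hγ, h, hh, ap f' a1, ap f' c1, g' y1, lift hγ1 hf' hr1, rfl, rfl, rfl⟩

theorem invZero : Inv D 0 where
  lev a c h := ((r_zero a c).mp h).1
  birth a c h := by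
    obtain ⟨_, h2, h3⟩ := (r_zero a c).mp h
    rw [h2, h3]
    exact ⟨le_rfl, le_rfl⟩
  refl a c h := by
    obtain ⟨_, h2, h3⟩ := (r_zero a c).mp h
    exact ⟨(r_zero a a).mpr ⟨le_rfl, rfl, by rw [h2, h3]⟩, (r_zero c c).mpr ⟨le_rfl, rfl, h3⟩⟩
  uniq a a' c h h' he := by
    obtain ⟨_, h2, _⟩ := (r_zero a c).mp h
    obtain ⟨_, h2', _⟩ := (r_zero a' c).mp h'
    exact Prod.ext he (h2.trans h2'.symm)
  ex c h y hy := by
    obtain ⟨_, _, h3⟩ := (r_zero c c).mp h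
    exact ⟨(y, c.2), (r_zero _ _).mpr ⟨hy, rfl, h3⟩, rfl⟩
  trans a b c h h' := by
    obtain ⟨h1, h2, h3⟩ := (r_zero a b).mp h
    obtain ⟨h1', h2', h3'⟩ := (r_zero b c).mp h'
    exact (r_zero a c).mpr ⟨h1.trans h1', h2.trans h2', h3'⟩

theorem invLim {η : Ordinal.{0}} (hη : η ≤ ω₁) (hl : Order.IsSuccLimit η) (hI : ∀ ζ, ζ < η → Inv D ζ) : Inv D η where
  lev a c h := by
    obtain ⟨ζ, hζ, f, hf, a1, c1, hr1, rfl, rfl⟩ := (r_lim hl _ _).mp h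
    exact (M.mono ζ η hζ hη f hf).monotone ((hI ζ hζ).lev _ _ hr1)
  birth a c h := by
    obtain ⟨ζ, hζ, f, hf, a1, c1, hr1, rfl, rfl⟩ := (r_lim hl _ _).mp h
    obtain ⟨h1, h2⟩ := (hI ζ hζ).birth _ _ hr1
    exact ⟨h1.trans hζ.le, h2.trans hζ.le⟩
  refl a c h := by
    obtain ⟨ζ, hζ, f, hf, a1, c1, hr1, rfl, rfl⟩ := (r_lim hl _ _).mp h
    obtain ⟨h1, h2⟩ := (hI ζ hζ).refl _ _ hr1
    exact ⟨lift hζ hf h1, lift hζ hf h2⟩
  uniq a a' c h h' he := by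
    obtain ⟨γ, hγ, k, hk, x, z, x', z', hr1, hr2, rfl, rfl, rfl, hc⟩ := common hη hl h h'
    have hz := ap_inj hγ hη hk hc
    subst hz
    have hx : x.1 = x'.1 := inj hγ hη hk he
    rw [(hI γ hγ).uniq x x' z hr1 hr2 hx]
  ex c h y hy := by
    obtain ⟨γ, hγ, k, hk, x, z, y', hr, hc1, hc2, rfl⟩ := common2 hη hl h y
    have hxz : x = z := ap_inj hγ hη hk (hc1.symm.trans hc2)
    subst hxz
    subst hc1
    have hy' : y' ≤ x.1 := (M.mono γ η hγ hη k hk).le_iff_le.mp hy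
    obtain ⟨a, ha, ha1⟩ := (hI γ hγ).ex x hr y' hy'
    refine ⟨ap k a, lift hγ hk ha, ?_⟩
    rw [← ha1]
    rfl
  trans a b c h h' := by
    obtain ⟨γ, hγ, k, hk, x, z, x', z', hr1, hr2, rfl, rfl, hb, rfl⟩ := common hη hl h h'
    have hz := ap_inj hγ hη hk hb
    subst hz
    exact lift hγ hk ((hI γ hγ).trans x z z' hr1 hr2)

end Pool.Agent.Work.MP_6cc3c8_lc
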