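import Pool.Agent.Work.MP_6cc3c8_lc.SA
import Pool.Agent.Work.MP_6cc3c8_lc.SB
import Pool.Agent.Work.MP_6cc3c8_lc.SC
import Pool.Agent.Work.MP_6cc3c8_lc.SD
import Pool.Agent.Work.MP_6cc3c8_lc.SL

/-!
# All stages are trees.  Size: S-M.

`inv`: induction on `η` (`0`, successors: `sLev`, `sBirth`, `sRefl`, `sUniq`, `sEx`, `sTrans`; limits: `invLim`).
`down`: the predecessor `x` of `b` of level `a.1` (`ex`; `b` is a node by `refl`) is below `c` by `trans`, so `x = a` by `uniq`.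
`antisymm`: the levels are equal (`lev`), and `R b b`, so `a = b` by `uniq`.
`refle` (reflection): by `lev` `f a.1 ≤ f c.1`, so `a.1 ≤ c.1` (`M.mono`); let `x` be the predecessor of `c` of level `a.1` (`ex`); `R D η (ap f x) (ap f c)` by `lift`, same level as
`ap f a`, so `ap f x = ap f a` (`uniq`), `x = a` (`inj`).
-/

namespace Pool.Agent.Work.MP_6cc3c8_lc

open Cardinal Ordinal Set

variable {M : Morass} {D : Dat M}

theorem inv {η : Ordinal.{0}} (hη : η ≤ ω₁) : Inv D η := by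
  induction η using Ordinal.limitRecOn with
  | zero => exact invZero
  | add_one ζ ih =>
    have hζ : ζ < ω₁ := lt_of_lt_of_le (Order.lt_add_one_iff.mpr le_rfl) hη
    have hI : Inv D ζ := ih hζ.le
    exact ⟨sLev hζ hI, sBirth hζ hI, sRefl hζ hI, sUniq hζ hI, sEx hζ hI, sTrans hζ hI⟩
  | limit η hl ih => exact invLim hη hl (fun ζ hζ => ih ζ hζ (hζ.le.trans hη))

theorem down {η : Ordinal.{0}} (hη : η ≤ ω₁) {a b c : Nd M η} (ha : R D η a c) (hb : R D η b c) (hl : a.1 ≤ b.1) :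
    R D η a b := by
  have hI : Inv D η := inv hη
  obtain ⟨x, hx, hx1⟩ := hI.ex b (hI.refl b c hb).1 a.1 hl
  have := hI.uniq x a c (hI.trans x b c hx hb) ha hx1
  rw [← this]; exact hx

theorem antisymm' {η : Ordinal.{0}} (hη : η ≤ ω₁) {a b : Nd M η} (h : R D η a b) (h' : R D η b a) : a = b := by
  have hI : Inv D η := inv hη
  exact hI.uniq a b b h (hI.refl b a h').1 (le_antisymm (hI.lev a b h) (hI.lev b a h'))

theorem refle {ζ η : Ordinal.{0}} (h : ζ < η) (hη : η ≤ ω₁) {f : Iio (M.θ ζ) → Iio (M.θ η)} (hf : f ∈ M.F ζ η)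
    {a c : Nd M ζ} (ha : R D ζ a a) (hc : R D ζ c c) (hr : R D η (ap f a) (ap f c)) : R D ζ a c := by
  have hI : Inv D η := inv hη
  have hJ : Inv D ζ := inv (h.le.trans hη)
  have hl : f a.1 ≤ f c.1 := hI.lev _ _ hr
  have hl' : a.1 ≤ c.1 := (M.mono ζ η h hη f hf).le_iff_le.mp hl
  obtain ⟨x, hx, hx1⟩ := hJ.ex c hc a.1 hl'
  have h1 : R D η (ap f x) (ap f c) := lift h hf hx
  have h2 : (ap f x).1 = (ap f a).1 := by simp only [ap, hx1]
  have h3 := hI.uniq _ _ _ h1 hr h2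
  have h4 : x = a := Prod.ext hx1 (by simpa [ap] using congrArg Prod.snd h3)
  rw [← h4]; exact hx

end Pool.Agent.Work.MP_6cc3c8_lc
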