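import Pool.Agent.Work.MP_6cc3c8_lc.Defs

/-!
# Independent functions.  Size: S-M.

There are pairwise different `z ζ : ℕ → Bool`, `ζ < ω₁` (`#(Iio ω₁) = ℵ₁ ≤ 2 ^ ℵ₀`, `Cardinal.mk_Iio_ordinal`, lifts; `z : Ordinal → ℕ → Bool` injective on `Iio ω₁`).  Let `w ζ m` be the word
`List.ofFn (fun j : Fin m => z ζ j)` (or the function on `Fin m`, or the finite set `{j < m | z ζ j}`).  The type `ℕ × Finset (List Bool × ℕ)` of the pairs `(m, F)` is countable and nonempty, so there is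
a surjection `e` from `ℕ` onto it (`exists_surjective_nat`).  Put `ρ ζ l = a` for some `a` with `(w ζ m, a) ∈ F`, where `(m, F) = e l`, if there is such an `a`, and `0` otherwise.
Given `q`, let `m` be so large that `w ζ m ≠ w ζ' m` for the first coordinates `ζ ≠ ζ'` of elements of `q`, let `F` be the image of `q` under `p ↦ (w p.1 m, p.2)` and `e l = (m, F)`.  For `p ∈ q`: `(w p.1 m, p.2) ∈ F`,
and if `(w p.1 m, a) ∈ F` then `a = p'.2`, `w p'.1 m = w p.1 m`, so `p'.1 = p.1`, `p' = p`, `a = p.2`.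
-/

namespace Pool.Agent.Work.MP_6cc3c8_lc

open Cardinal Ordinal Set

private theorem exists_z : ∃ z : Ordinal.{0} → ℕ → Bool, ∀ a < ω₁, ∀ b < ω₁, z a = z b → a = b := by
  have h : Cardinal.lift.{0} #(Iio (ω₁ : Ordinal.{0})) ≤ Cardinal.lift.{1} #(ℕ → Bool) := by
    rw [Cardinal.mk_Iio_ordinal]
    simp only [Ordinal.card_omega, Cardinal.lift_aleph, Ordinal.lift_one]
    have h2 : #(ℕ → Bool) = 2 ^ ℵ₀ := by simp
    rw [h2]
    have h3 : ℵ_ 1 ≤ (2 : Cardinal.{0}) ^ ℵ₀ := by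
      rw [← Ordinal.succ_zero, Cardinal.aleph_succ, Cardinal.aleph_zero]
      exact Order.succ_le_of_lt (Cardinal.cantor _)
    have h4 := Cardinal.lift_le.{1}.mpr h3
    simpa using h4
  obtain ⟨f⟩ := Cardinal.lift_mk_le'.mp h
  classical
  refine ⟨fun a => if h : a < ω₁ then f ⟨a, h⟩ else fun _ => false, fun a ha b hb hab => ?_⟩
  simp only [ha, hb, dif_pos] at hab
  have := f.injective hab
  exact congrArg Subtype.val this

theorem ind : ∃ ρ : Ordinal.{0} → ℕ → ℕ, Indep ρ := by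
  classical
  obtain ⟨z, hz⟩ := exists_z
  obtain ⟨e, he⟩ := exists_surjective_nat (ℕ × Finset (List Bool × ℕ))
  let w : Ordinal.{0} → ℕ → List Bool := fun ζ m => List.ofFn (fun j : Fin m => z ζ j)
  have hw : ∀ ζ ζ' m, w ζ m = w ζ' m → ∀ j < m, z ζ j = z ζ' j := by
    intro ζ ζ' m h j hj
    have := List.ofFn_injective h
    exact congrFun this ⟨j, hj⟩
  refine ⟨fun ζ l => if h : ∃ a, (w ζ (e l).1, a) ∈ (e l).2 then h.choose else 0, ?_⟩
  intro q hq hinj
  -- a large m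
  have hm : ∃ m : ℕ, ∀ p ∈ q, ∀ p' ∈ q, w p.1 m = w p'.1 m → p = p' := by
    have h1 : ∀ p ∈ q, ∀ p' ∈ q, ∃ j : ℕ, p ≠ p' → z p.1 j ≠ z p'.1 j := by
      intro p hp p' hp'
      by_cases hpp : p = p'
      · exact ⟨0, fun h => absurd hpp h⟩
      · have : z p.1 ≠ z p'.1 := fun h => hpp (hinj p hp p' hp' (hz _ (hq p hp) _ (hq p' hp') h))
        obtain ⟨j, hj⟩ := Function.ne_iff.mp this
        exact ⟨j, fun _ => hj⟩
    choose! J hJ using h1
    refine ⟨(q.sup fun p => q.sup fun p' => J p p') + 1, fun p hp p' hp' h => ?_⟩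
    by_contra hpp
    refine hJ p hp p' hp' hpp (hw _ _ _ h (J p p') ?_)
    refine Nat.lt_succ_of_le ?_
    exact le_trans (Finset.le_sup (f := fun p' => J p p') hp')
      (Finset.le_sup (f := fun p => q.sup fun p' => J p p') hp)
  obtain ⟨m, hm⟩ := hm
  obtain ⟨l, hl⟩ := he (m, q.image fun p => (w p.1 m, p.2))
  refine ⟨l, fun p hp => ?_⟩
  have hex : ∃ a, (w p.1 (e l).1, a) ∈ (e l).2 := by
    rw [hl]
    exact ⟨p.2, Finset.mem_image_of_mem (fun p => (w p.1 m, p.2)) hp⟩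
  simp only [dif_pos hex]
  have hch := hex.choose_spec
  generalize hex.choose = a at hch
  rw [hl] at hch
  obtain ⟨p', hp', heq⟩ := Finset.mem_image.mp hch
  simp only [Prod.mk.injEq] at heq
  have := hm p' hp' p hp heq.1
  rw [← this]
  exact heq.2.symm

end Pool.Agent.Work.MP_6cc3c8_lc
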