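import Pool.Agent.Work.MP_6cc3c8_lc.Cm

/-!
# The contradiction for two levels of the same type.  Size: M.

Put `ζ0 = max δ ν + 1 < ω₁`.  `comp` (with `h, h'`, `k`, `ζ0`) gives an `l`; `hr l` gives an `i` with `r ν n = y n`, `n = Nat.pair l i`; so `D.pot δ (r ν n) = α n`, a node (`Inv.refl`, `hva`) of the cone `n` (`cone_up`, `hv`).
So `Cmp D ω₁ a a'`, `a = ap h (ap k (α n))`, `a' = ap h' (ap k (α n))`.  Let `w = ap h' (ap k (v n))`; `w.1 = h' (k x)`, `a.1 < τ ≤ w.1`, and `R D ω₁ w a'` (`lift` twice).  So `w.1 ≤ a'.1` (`Inv.lev`), `a.1 < a'.1`, hence `R D ω₁ a a'`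
(`R D ω₁ a' a` contradicts `Inv.lev`) and `R D ω₁ a w` (`down`).  Let `α'` be given by `hB' n`: `R D ω₁ w (ap h' (ap k α'))`, so `R D ω₁ a (ap h' (ap k α'))` (`Inv.trans`); both are in `B n`, so they are equal
(`hA.anti`), but the level of the first is `< τ ≤ w.1 ≤` the level of the second.
-/

namespace Pool.Agent.Work.MP_6cc3c8_lc

open Cardinal Ordinal Set

variable {M : Morass} {D : Dat M}

theorem ke {B : ℕ → Set (Nd M ω₁)} (hA : Adv D B) {r ρ : Ordinal.{0} → ℕ → ℕ} (hG : Good D r ρ) (hI : Indep ρ)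
    {δ ν : Ordinal.{0}} (hδ : δ < ω₁) (hν : ν < ω₁) {k : Iio (M.θ δ) → Iio (M.θ (max δ ν + 1))}
    (hk : k ∈ M.F δ (max δ ν + 1)) {h h' : Iio (M.θ (max δ ν + 1)) → Iio (M.θ ω₁)} (hh : h ∈ M.F (max δ ν + 1) ω₁)
    (hh' : h' ∈ M.F (max δ ν + 1) ω₁) {x : Iio (M.θ δ)} {τ : Iio (M.θ ω₁)} (v α : ℕ → Nd M δ) (y : ℕ → ℕ)
    (hv : ∀ n, Cone (R D δ) n (v n)) (hx : ∀ n, (v n).1 = x) (hva : ∀ n, R D δ (v n) (α n))
    (hB : ∀ n, ap h (ap k (α n)) ∈ B n) (hτ : ∀ n, (ap h (ap k (α n))).1 < τ) (hy : ∀ n, D.pot δ (y n) = α n)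
    (hr : ∀ l, ∃ i, r ν (Nat.pair l i) = y (Nat.pair l i)) (hx' : τ ≤ h' (k x))
    (hB' : ∀ n, ∃ α', R D δ (v n) α' ∧ ap h' (ap k α') ∈ B n) : False := by
  have hδζ : δ < max δ ν + 1 := Order.lt_add_one_iff.mpr (le_max_left _ _)
  have hνζ : ν < max δ ν + 1 := Order.lt_add_one_iff.mpr (le_max_right _ _)
  have hlim : Order.IsSuccLimit (ω₁ : Ordinal.{0}) := by
    rw [← Cardinal.ord_aleph]
    exact isSuccLimit_ord (aleph0_le_aleph 1)
  have hζ0 : max δ ν + 1 < ω₁ := hlim.add_one_lt (max_lt hδ hν)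
  obtain ⟨l, hl⟩ := comp hG hI hδζ hνζ hζ0 hk hh hh'
  obtain ⟨i, hi⟩ := hr l
  have I : Inv D ω₁ := inv le_rfl
  have hpot : D.pot δ (r ν (Nat.pair l i)) = α (Nat.pair l i) := by rw [hi]; exact hy _
  have hα : R D δ (α (Nat.pair l i)) (α (Nat.pair l i)) :=
    ((inv (D := D) hδ.le).refl _ _ (hva _)).2
  have hcone : Cone (R D δ) (Nat.pair l i) (α (Nat.pair l i)) := (cone_up hδ.le (hva _)).mp (hv _)
  have hC := hl i (by rw [hpot]; exact hα) (by rw [hpot]; exact hcone)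
  rw [hpot] at hC
  generalize Nat.pair l i = n at *
  have hw : R D ω₁ (ap h' (ap k (v n))) (ap h' (ap k (α n))) :=
    lift hζ0 hh' (lift hδζ hk (hva n))
  have hlt : (ap h (ap k (α n))).1 < (ap h' (ap k (v n))).1 := by
    refine (hτ n).trans_le ?_
    show τ ≤ h' (k (v n).1)
    rw [hx n]
    exact hx'
  have hlt2 : (ap h (ap k (α n))).1 < (ap h' (ap k (α n))).1 := hlt.trans_le (I.lev _ _ hw)
  have hR : R D ω₁ (ap h (ap k (α n))) (ap h' (ap k (α n))) :=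
    hC.resolve_right (fun h3 => absurd (I.lev _ _ h3) (not_le.mpr hlt2))
  have hRw : R D ω₁ (ap h (ap k (α n))) (ap h' (ap k (v n))) := down le_rfl hR hw hlt.le
  obtain ⟨α', hα', hBα'⟩ := hB' n
  have hw' : R D ω₁ (ap h' (ap k (v n))) (ap h' (ap k α')) :=
    lift hζ0 hh' (lift hδζ hk hα')
  have heq := hA.anti n _ (hB n) _ hBα' (I.trans _ _ _ hRw hw')
  have h4 := I.lev _ _ hw'
  rw [← heq] at h4
  exact absurd h4 (not_le.mpr hlt)

end Pool.Agent.Work.MP_6cc3c8_lc
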