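import Pool.Agent.Work.MP_6cc3c8_lc.Cnt

/-!
# There are at most `ℵ₁` types.  Size: S-M.

The set is contained in the union over `δ < ω₁`, `x < ω₁`, `ν < ω₁` of the products `{(δ, x, ν)} × K × Φ`, `K = {cut k (θ δ) | k ∈ F δ (max δ ν + 1)}`
countable (`M.countable`), `Φ` the set of `cnt`.  `#(Iio ω₁) = ℵ₁`, `ℵ₁ * ℵ₁ = ℵ₁`.
-/

namespace Pool.Agent.Work.MP_6cc3c8_lc

open Cardinal Ordinal Set

variable {M : Morass}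

private theorem typ_biUnion {ι α : Type 1} (s : Set ι) (A : ι → Set α) (hs : #s ≤ ℵ₁)
    (hA : ∀ i ∈ s, #(A i) ≤ ℵ₁) : #(⋃ i ∈ s, A i : Set α) ≤ ℵ₁ := by
  refine (Cardinal.mk_biUnion_le A s).trans ?_
  have h1 : (⨆ x : s, #(A x.1)) ≤ ℵ₁ := ciSup_le' fun x => hA x.1 x.2
  calc #s * (⨆ x : s, #(A x.1)) ≤ ℵ₁ * ℵ₁ := mul_le_mul' hs h1
    _ = ℵ₁ := Cardinal.mul_eq_self (aleph0_le_aleph 1)

private theorem typ_Iio (a : Ordinal.{0}) (ha : a ≤ ω₁) : #(Iio a) ≤ ℵ₁ := by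
  rw [Cardinal.mk_Iio_ordinal]
  have h := Ordinal.card_le_card ha
  rw [card_omega] at h
  have h2 := Cardinal.lift_le.{1}.2 h
  rw [Cardinal.lift_aleph, Ordinal.lift_one] at h2
  exact h2

private theorem typ_prod {α β : Type 1} (s : Set α) (t : Set β) (hs : #s ≤ ℵ₁) (ht : #t ≤ ℵ₁) :
    #(s ×ˢ t : Set (α × β)) ≤ ℵ₁ := by
  rw [Cardinal.mk_setProd]
  calc #s * #t ≤ ℵ₁ * ℵ₁ := mul_le_mul' hs ht
    _ = ℵ₁ := Cardinal.mul_eq_self (aleph0_le_aleph 1)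

theorem typ (β : Ordinal.{0}) (hβ : β < ω_ 2) :
    #{p : Ordinal.{0} × Ordinal.{0} × Ordinal.{0} × (Ordinal.{0} → Ordinal.{0}) × (Ordinal.{0} → Ordinal.{0}) |
      p.1 < ω₁ ∧ p.2.1 < M.θ p.1 ∧ p.2.2.1 < ω₁ ∧
      (∃ k ∈ M.F p.1 (max p.1 p.2.2.1 + 1), p.2.2.2.1 = cut k (M.θ p.1)) ∧
      (∃ f ∈ M.F p.1 ω₁, (∀ z : Iio (M.θ p.1), (z : Ordinal.{0}) < p.2.1 → (f z : Ordinal.{0}) ≤ β) ∧
        p.2.2.2.2 = cut f p.2.1)} ≤ ℵ₁ := by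
  set K : Ordinal.{0} → Ordinal.{0} → Set (Ordinal.{0} → Ordinal.{0}) := fun δ ν =>
    (fun k : Iio (M.θ δ) → Iio (M.θ (max δ ν + 1)) => cut k (M.θ δ)) '' M.F δ (max δ ν + 1) with hK
  set Φ : Ordinal.{0} → Set (Ordinal.{0} → Ordinal.{0}) := fun δ =>
    {φ | ∃ f ∈ M.F δ ω₁, ∃ x : Ordinal.{0}, x < M.θ δ ∧
      (∀ z : Iio (M.θ δ), (z : Ordinal.{0}) < x → (f z : Ordinal.{0}) ≤ β) ∧ φ = cut f x} with hΦ
  set S : Set (Ordinal.{0} × Ordinal.{0} × Ordinal.{0} × (Ordinal.{0} → Ordinal.{0}) ×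
      (Ordinal.{0} → Ordinal.{0})) :=
    ⋃ δ ∈ Iio (ω₁ : Ordinal.{0}), ⋃ x ∈ Iio (M.θ δ), ⋃ ν ∈ Iio (ω₁ : Ordinal.{0}),
      (fun q : (Ordinal.{0} → Ordinal.{0}) × (Ordinal.{0} → Ordinal.{0}) => (δ, x, ν, q)) ''
        (K δ ν ×ˢ Φ δ) with hS
  have hS1 : #S ≤ ℵ₁ := by
    refine typ_biUnion _ _ (typ_Iio _ le_rfl) fun δ hδ => ?_
    refine typ_biUnion _ _ (typ_Iio _ (M.small δ hδ).le) fun x hx => ?_
    refine typ_biUnion _ _ (typ_Iio _ le_rfl) fun ν hν => ?_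
    refine Cardinal.mk_image_le.trans (typ_prod _ _ ?_ ?_)
    · have h1 : max δ ν + 1 < (ω₁ : Ordinal.{0}) :=
        (isSuccLimit_omega 1).add_one_lt (max_lt hδ hν)
      have h2 : δ < max δ ν + 1 := Order.lt_add_one_iff.2 (le_max_left _ _)
      have h3 : (K δ ν).Countable := (M.countable δ (max δ ν + 1) h2 h1).image _
      exact (Set.Countable.le_aleph0 h3).trans (aleph0_le_aleph 1)
    · exact cnt δ hδ β hβ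
  refine (Cardinal.mk_le_mk_of_subset ?_).trans hS1
  rintro ⟨δ, x, ν, κ, φ⟩ ⟨hδ, hx, hν, ⟨k, hk, hκ⟩, f, hf, hfz, hφ⟩
  simp only [hS, mem_iUnion, exists_prop]
  refine ⟨δ, hδ, x, hx, ν, hν, ?_⟩
  refine ⟨(κ, φ), ⟨⟨k, hk, hκ.symm⟩, ⟨f, hf, x, hx, hfz, hφ⟩⟩, rfl⟩

end Pool.Agent.Work.MP_6cc3c8_lc
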