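import Pool.Agent.Work.MP_6cc3c8_lc.Nod
import Pool.Agent.Work.MP_6cc3c8_lc.Cne

/-!
# A closed stage

The stage is the limit of stages which capture, step by step, the chosen elements of the antichains.
-/

namespace Pool.Agent.Work.MP_6cc3c8_lc

open Cardinal Ordinal Set

variable {M : Morass} {D : Dat M}

private theorem stg_cnt_Iio {o : Ordinal.{0}} (h : o < ω₁) : (Iio o).Countable := by
  rw [← Cardinal.le_aleph0_iff_set_countable, Cardinal.mk_Iio_ordinal]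
  have h1 : o.card < ℵ₁ := by
    rw [← Cardinal.lt_ord, Cardinal.ord_aleph]
    exact h
  have h2 : o.card ≤ ℵ₀ := by
    rwa [← Cardinal.succ_aleph0, Order.lt_succ_iff] at h1
  rw [← Cardinal.lift_aleph0.{1, 0}, Cardinal.lift_le]
  exact h2

private theorem stg_add_one {o : Ordinal.{0}} (h : o < ω₁) : o + 1 < ω₁ := by
  have h1 := (Cardinal.isSuccLimit_omega 1).succ_lt h
  rwa [Order.succ_eq_add_one] at h1

private theorem stg_nodes_countable {ζ : Ordinal.{0}} (hζ : ζ < ω₁) :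
    {a : Nd M ζ | a.2.1 ≤ ζ}.Countable := by
  have h1 : (Iio (M.θ ζ) ×ˢ (Iio (ζ + 1) ×ˢ (univ : Set ℕ)) :
      Set (Ordinal.{0} × (Ordinal.{0} × ℕ))).Countable :=
    (stg_cnt_Iio (M.small ζ hζ)).prod ((stg_cnt_Iio (stg_add_one hζ)).prod countable_univ)
  let g : Nd M ζ → Ordinal.{0} × (Ordinal.{0} × ℕ) := fun a => ((a.1 : Ordinal.{0}), a.2)
  have hg : Function.Injective g := by
    intro a b hab
    have h2 := congrArg Prod.fst hab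
    have h3 := congrArg Prod.snd hab
    exact Prod.ext (Subtype.ext h2) h3
  refine (h1.preimage_of_injOn (f := g) hg.injOn).mono ?_
  intro a ha
  exact ⟨a.1.2, show a.2.1 < ζ + 1 from Order.lt_add_one_iff.2 ha, mem_univ _⟩

/-- The nodes below `τ` which come from the stage `ζ`. -/
private def stgA (D : Dat M) (τ : Iio (M.θ ω₁)) (ζ : Ordinal.{0}) : Set (Nd M ω₁) :=
  {c | c.1 < τ ∧ ∃ f ∈ M.F ζ ω₁, τ ∈ range f ∧ ∃ a', R D ζ a' a' ∧ c = ap f a'}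

private theorem stg_countable {τ : Iio (M.θ ω₁)} {ζ : Ordinal.{0}} (hζ : ζ < ω₁) :
    (stgA D τ ζ).Countable := by
  by_cases h : ∃ f ∈ M.F ζ ω₁, τ ∈ range f
  · obtain ⟨f₀, hf₀, xs, hxs⟩ := h
    refine ((stg_nodes_countable (M := M) hζ).image (ap f₀)).mono ?_
    rintro c ⟨hc, f, hf, ⟨y, hy⟩, a', ha', rfl⟩
    obtain ⟨_, hz⟩ := agree hζ le_rfl hf hf₀ (hy.trans hxs.symm)
    have h1 : a'.1 < y := by
      rw [← (M.mono ζ ω₁ hζ le_rfl f hf).lt_iff_lt, hy]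
      exact hc
    refine ⟨a', ((inv hζ.le).birth _ _ ha').1, ?_⟩
    unfold ap
    rw [hz a'.1 h1.le]
  · refine countable_empty.mono ?_
    rintro c ⟨_, f, hf, hτ, _⟩
    exact absurd ⟨f, hf, hτ⟩ h

private theorem stg_mono {τ : Iio (M.θ ω₁)} {ζ ξ : Ordinal.{0}} (h : ζ ≤ ξ) (hξ : ξ < ω₁) :
    stgA D τ ζ ⊆ stgA D τ ξ := by
  rcases eq_or_lt_of_le h with h | h
  · subst h
    exact subset_rfl
  · rintro c ⟨hc, f, hf, ⟨y, hy⟩, a', ha', rfl⟩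
    obtain ⟨g, hg, k, hk, rfl⟩ := factor h hξ le_rfl hf
    exact ⟨hc, k, hk, ⟨g y, hy⟩, ap g a', lift h hg ha', rfl⟩

private theorem stg_next {τ : Iio (M.θ ω₁)} {w : ℕ → Nd M ω₁ → Nd M ω₁}
    (hw : ∀ n a, R D ω₁ a a → Cone (R D ω₁) n a → a.1 < τ → R D ω₁ (w n a) (w n a) ∧ (w n a).1 < τ)
    {ζ : Ordinal.{0}} (hζ : ζ < ω₁) :
    ∃ ζ', ζ' < ω₁ ∧ ζ < ζ' ∧ ∀ ξ, ζ' ≤ ξ → ξ < ω₁ → ∀ f ∈ M.F ξ ω₁, τ ∈ range f →
      ∀ n, ∀ c ∈ stgA D τ ζ, R D ω₁ c c → Cone (R D ω₁) n c → ∃ b', R D ξ b' b' ∧ w n c = ap f b' := by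
  set C : Set (Nd M ω₁) :=
    {b | ∃ n, ∃ c ∈ stgA D τ ζ, R D ω₁ c c ∧ Cone (R D ω₁) n c ∧ b = w n c} with hC
  have hCc : C.Countable := by
    refine (countable_iUnion fun n => (stg_countable (D := D) (τ := τ) hζ).image (w n)).mono ?_
    rintro b ⟨n, c, hc, _, _, rfl⟩
    exact mem_iUnion.2 ⟨n, c, hc, rfl⟩
  obtain ⟨ζ₀, hζ₀, hN⟩ := nodes (D := D) C hCc
    (by
      rintro b ⟨n, c, hc, h1, h2, rfl⟩
      exact (hw n c h1 h2 hc.1).1) τ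
    (by
      rintro b ⟨n, c, hc, h1, h2, rfl⟩
      exact (hw n c h1 h2 hc.1).2.le)
  refine ⟨max ζ₀ (ζ + 1), max_lt hζ₀ (stg_add_one hζ),
    lt_of_lt_of_le (Order.lt_add_one_iff.2 le_rfl) (le_max_right _ _), ?_⟩
  intro ξ hξ hξ1 f hf hτ n c hc h1 h2
  exact (hN ξ ((le_max_left _ _).trans hξ) hξ1).2 f hf hτ _ ⟨n, c, hc, h1, h2, rfl⟩

theorem stg {B : ℕ → Set (Nd M ω₁)} (hA : Adv D B) {γ τ : Iio (M.θ ω₁)} (hγ : γ < τ)
    (h1 : ∀ n, ∃ b ∈ B n, γ ≤ b.1 ∧ b.1 < τ)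
    (h2 : ∀ n a, R D ω₁ a a → Cone (R D ω₁) n a → a.1 < τ → ∃ b ∈ B n, b.1 < τ ∧ Cmp D ω₁ a b) :
    ∃ δ, δ < ω₁ ∧ ∃ f ∈ M.F δ ω₁, ∃ x xs : Iio (M.θ δ), f x = γ ∧ f xs = τ ∧
      (∀ n, ∃ b, R D δ b b ∧ x ≤ b.1 ∧ b.1 < xs ∧ ap f b ∈ B n) ∧
      ∀ n a, R D δ a a → Cone (R D δ) n a → a.1 < xs →
        ∃ b, R D δ b b ∧ b.1 < xs ∧ ap f b ∈ B n ∧ Cmp D δ a b := by
  have : Nonempty (Nd M ω₁) := ⟨rt M ω₁ 0⟩
  choose b hbB hbγ hbτ using h1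
  choose! w hwB hwτ hwC using h2
  have hw : ∀ n a, R D ω₁ a a → Cone (R D ω₁) n a → a.1 < τ →
      R D ω₁ (w n a) (w n a) ∧ (w n a).1 < τ := fun n a ha hc hl =>
    ⟨(hA.mem n _ (hwB n a ha hc hl)).1, hwτ n a ha hc hl⟩
  -- the first stage
  obtain ⟨ζb, hζb, hNb⟩ := nodes (D := D) (range b) (countable_range b)
    (by
      rintro _ ⟨n, rfl⟩
      exact (hA.mem n _ (hbB n)).1) τ
    (by
      rintro _ ⟨n, rfl⟩
      exact (hbτ n).le)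
  obtain ⟨ζg, hζg, hNg⟩ := cap ({γ} : Set (Iio (M.θ ω₁))) (countable_singleton γ) τ
    (by
      rintro c hc
      rw [mem_singleton_iff.1 hc]
      exact hγ.le)
  -- the sequence of stages
  choose nx hnx1 hnx2 hnx3 using
    fun ζ : Iio ω₁ => stg_next (D := D) (τ := τ) hw (ζ := (ζ : Ordinal.{0})) ζ.2
  let d : ℕ → Iio (ω₁ : Ordinal.{0}) := fun k =>
    Nat.rec (motive := fun _ => Iio (ω₁ : Ordinal.{0})) ⟨max ζb ζg, max_lt hζb hζg⟩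
      (fun _ ζ => ⟨nx ζ, hnx1 ζ⟩) k
  have hd0 : (d 0 : Ordinal.{0}) = max ζb ζg := rfl
  have hds : ∀ k, (d (k + 1) : Ordinal.{0}) = nx (d k) := fun k => rfl
  have hdlt : ∀ k, (d k : Ordinal.{0}) < d (k + 1) := fun k => by
    rw [hds]
    exact hnx2 (d k)
  set δ : Ordinal.{0} := ⨆ k, (d k : Ordinal.{0}) with hδ
  have hδ1 : δ < ω₁ := Ordinal.iSup_lt_omega_one fun k => (d k).2
  have hle : ∀ k, (d k : Ordinal.{0}) ≤ δ := fun k => Ordinal.le_iSup _ k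
  have hlt : ∀ {ξ : Ordinal.{0}}, ξ < δ → ∃ k, ξ < (d k : Ordinal.{0}) := fun {ξ} h =>
    Ordinal.lt_iSup_iff.1 h
  have hdpos : 0 < δ := lt_of_le_of_lt zero_le ((hdlt 0).trans_le (hle 1))
  have hl : Order.IsSuccLimit δ := by
    rcases Ordinal.zero_or_succ_or_isSuccLimit δ with h | ⟨ζ, hζ⟩ | h
    · exact absurd h hdpos.ne'
    · exfalso
      rw [Order.succ_eq_add_one] at hζ
      have h3 : ζ < δ := by
        rw [← hζ]
        exact Order.lt_add_one_iff.2 le_rfl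
      obtain ⟨k, hk⟩ := hlt h3
      have h4 : δ ≤ (d k : Ordinal.{0}) := by
        rw [← hζ]
        exact Order.add_one_le_of_lt hk
      exact absurd (hle (k + 1)) (not_le_of_gt (lt_of_le_of_lt h4 (hdlt k)))
    · exact h
  have hb1 : ζb ≤ δ := (le_max_left _ _).trans (hd0.symm.le.trans (hle 0))
  have hg1 : ζg ≤ δ := (le_max_right _ _).trans (hd0.symm.le.trans (hle 0))
  obtain ⟨⟨f, hf, xs, hxs⟩, hNb'⟩ := hNb δ hb1 hδ1
  have hτ : τ ∈ range f := ⟨xs, hxs⟩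
  obtain ⟨x, hx⟩ := (hNg δ hg1 hδ1).2 f hf hτ (mem_singleton γ)
  have hmono := M.mono δ ω₁ hδ1 le_rfl f hf
  refine ⟨δ, hδ1, f, hf, x, xs, hx, hxs, ?_, ?_⟩
  · intro n
    obtain ⟨b', hb', hbb⟩ := hNb' f hf hτ (b n) ⟨n, rfl⟩
    have h3 : (b n).1 = f b'.1 := by rw [hbb]; rfl
    refine ⟨b', hb', ?_, ?_, ?_⟩
    · rw [← hmono.le_iff_le, hx, ← h3]
      exact hbγ n
    · rw [← hmono.lt_iff_lt, hxs, ← h3]
      exact hbτ n
    · rw [← hbb]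
      exact hbB n
  · intro n a ha hc hlx
    have h3 : R D ω₁ (ap f a) (ap f a) := lift hδ1 hf ha
    have h4 : Cone (R D ω₁) n (ap f a) := (cone_ap hδ1 le_rfl hf ha).2 hc
    have h5 : (ap f a).1 < τ := by
      change f a.1 < τ
      rw [← hxs]
      exact hmono hlx
    have h6 : ∃ k, ap f a ∈ stgA D τ (d k : Ordinal.{0}) := by
      obtain ⟨ζ, hζ, e, he, a', c', hr, hae, _⟩ := (r_lim hl a a).1 ha
      obtain ⟨ξ, hξ, g, hg, z, hz⟩ := M.cover δ hdpos hδ1.le xs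
      obtain ⟨γ', hγ1, hγ2, hγ3, h, hh, e', he', g', hg', hee, hgg⟩ :=
        M.limit δ hδ1.le hl ζ hζ ξ hξ e he g hg
      obtain ⟨k, hk⟩ := hlt hγ3
      refine ⟨k, stg_mono hk.le (d k).2 ⟨h5, f ∘ h, compose hγ3 hδ1 le_rfl hh hf, ⟨g' z, ?_⟩,
        ap e' a', lift hγ1 he' ((inv (hζ.le.trans hδ1.le)).refl _ _ hr).1, ?_⟩⟩
      · have h7 : h (g' z) = xs := by
          rw [← hz, hgg]
          rfl
        change f (h (g' z)) = τ
        rw [h7, hxs]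
      · rw [hae, hee]
        rfl
    obtain ⟨k, hk⟩ := h6
    obtain ⟨b', hb', hwb⟩ := hnx3 (d k) δ ((hds k).symm.le.trans (hle (k + 1))) hδ1 f hf hτ n
      (ap f a) hk h3 h4
    refine ⟨b', hb', ?_, ?_, ?_⟩
    · have h7 := hwτ n _ h3 h4 h5
      rw [hwb, ← hxs] at h7
      exact hmono.lt_iff_lt.1 h7
    · rw [← hwb]
      exact hwB n _ h3 h4 h5
    · have h7 := hwC n _ h3 h4 h5
      rw [hwb] at h7
      rcases h7 with h7 | h7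
      · exact Or.inl (refle hδ1 le_rfl hf ha hb' h7)
      · exact Or.inr (refle hδ1 le_rfl hf hb' ha h7)

end Pool.Agent.Work.MP_6cc3c8_lc
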