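import Pool.Agent.Work.MP_6cc3c8_lc.Clo
import Pool.Agent.Work.MP_6cc3c8_lc.Stg

/-!
# The witnesses.  Size: S-M.

`clo` and `stg` give `τ, δ, f, x, xs`.  Nonempty: let `b ∈ V_δ`, `x ≤ b.1`, `ap f b ∈ B n`; `b` is in the cone `n` (`hA.mem`, `cone_ap`); `v` the predecessor of `b` of level `x` (`Inv.ex`), a node (`refl`) of the
cone `n` (`cone_up`).  If `R D δ b' v`, `b'.1 < x` and `ap f b' ∈ B n` then `ap f b' ≤ ap f b` (`trans`, `lift`), so they are equal (`hA.anti`), `b'.1 = b.1` (`inj`), contradiction.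
For `v ∈ U`: `b` with `ap f b ∈ B n`, `Cmp D δ v b`, `b.1 < xs` (closure, `v.1 = x < xs` as `f x = γ < τ = f xs`).  If `R D δ v b`: `a = b`; `(ap f b).1 < τ`.  If `R D δ b v`: `b.1 ≤ x`; `b.1 < x` contradicts `v ∈ U`; `b.1 = x`:
`b = v` (`Inv.uniq`), `a = b`.
`U_congr`: `ap f b = ap f' b` for `b.1 < x`, as `f z = f' z` for `z < x` (evaluate the equality of the functions `cut` at `z`, `Subtype.ext`).
-/

namespace Pool.Agent.Work.MP_6cc3c8_lc

open Cardinal Ordinal Set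

variable {M : Morass} {D : Dat M}

theorem wit {B : ℕ → Set (Nd M ω₁)} (hA : Adv D B) (γ : Iio (M.θ ω₁)) :
    ∃ τ : Iio (M.θ ω₁), ∃ δ, δ < ω₁ ∧ ∃ f ∈ M.F δ ω₁, ∃ x : Iio (M.θ δ), f x = γ ∧
      ∀ n, (U D B f x n).Nonempty ∧ ∀ v ∈ U D B f x n, ∃ a, R D δ v a ∧ ap f a ∈ B n ∧ (ap f a).1 < τ := by
  obtain ⟨τ, hγ, h1, h2⟩ := clo hA γ
  obtain ⟨δ, hδ, f, hf, x, xs, hx, hxs, h3, h4⟩ := stg hA hγ h1 h2
  have hmono : StrictMono f := M.mono δ ω₁ hδ le_rfl f hf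
  have hinv : Inv D δ := inv hδ.le
  refine ⟨τ, δ, hδ, f, hf, x, hx, fun n => ⟨?_, ?_⟩⟩
  · obtain ⟨b, hb, hxb, hbs, hbB⟩ := h3 n
    have hcb : Cone (R D δ) n b := (cone_ap hδ le_rfl hf hb).1 (hA.mem n _ hbB).2
    obtain ⟨v, hv, hvx⟩ := hinv.ex b hb x hxb
    refine ⟨v, (hinv.refl v b hv).1, (cone_up hδ.le hv).2 hcb, hvx, ?_⟩
    intro b' hb' hlt hB'
    have h5 : R D δ b' b := hinv.trans _ _ _ hb' hv
    have h6 : ap f b' = ap f b := hA.anti n _ hB' _ hbB (lift hδ hf h5)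
    have h7 : f b'.1 = f b.1 := congrArg Prod.fst h6
    have h8 : b'.1 = b.1 := hmono.injective h7
    rw [h8] at hlt
    exact absurd hxb (not_le.2 hlt)
  · rintro v ⟨hv, hc, hvx, hno⟩
    have hxxs : x < xs := hmono.lt_iff_lt.1 (by rw [hx, hxs]; exact hγ)
    obtain ⟨b, hb, hbs, hbB, hcmp⟩ := h4 n v hv hc (by rw [hvx]; exact hxxs)
    have hbτ : (ap f b).1 < τ := by
      rw [← hxs]
      exact hmono hbs
    refine ⟨b, ?_, hbB, hbτ⟩
    rcases hcmp with h | h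
    · exact h
    · have hle : b.1 ≤ v.1 := hinv.lev _ _ h
      rcases hle.lt_or_eq with hlt | heq
      · exact absurd hbB (hno b h (by rw [← hvx]; exact hlt))
      · have : b = v := hinv.uniq _ _ _ h hv heq
        rw [this]
        exact hv

theorem U_congr {B : ℕ → Set (Nd M ω₁)} {δ : Ordinal.{0}} {f f' : Iio (M.θ δ) → Iio (M.θ ω₁)} {x : Iio (M.θ δ)}
    (h : cut f x = cut f' x) (n : ℕ) : U D B f x n = U D B f' x n := by
  have key : ∀ b : Nd M δ, b.1 < x → ap f b = ap f' b := by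
    intro b hb
    have h1 := congrFun h (b.1 : Ordinal.{0})
    have hb' : (b.1 : Ordinal.{0}) < (x : Ordinal.{0}) ∧ (b.1 : Ordinal.{0}) < M.θ δ := ⟨hb, b.1.2⟩
    unfold cut at h1
    rw [dif_pos hb', dif_pos hb'] at h1
    have h2 : f b.1 = f' b.1 := Subtype.ext h1
    unfold ap
    rw [h2]
  ext v
  constructor
  · rintro ⟨h1, h2, h3, h4⟩
    refine ⟨h1, h2, h3, fun b hb hlt => ?_⟩
    rw [← key b hlt]
    exact h4 b hb hlt
  · rintro ⟨h1, h2, h3, h4⟩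
    refine ⟨h1, h2, h3, fun b hb hlt => ?_⟩
    rw [key b hlt]
    exact h4 b hb hlt

end Pool.Agent.Work.MP_6cc3c8_lc
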