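import Pool.Agent.Work.MP_6cc3c8_lc.Ke
import Pool.Agent.Work.MP_6cc3c8_lc.Fod
import Pool.Agent.Work.MP_6cc3c8_lc.Typ
import Pool.Agent.Work.MP_6cc3c8_lc.Wit

/-!
# The antichains cannot be large in all cones.  Size: M-L.

For `δ` let `pick δ : Set (Nd M δ) → Nd M δ` be a choice function (`Classical.epsilon`; any `p` with `s.Nonempty → p s ∈ s`).
For every `γ < ω_ 2` (`= M.θ ω₁`, `M.top`) choose by `wit`: `τ, δ, f, x` with `f x = γ`; put `v n = pick δ (U D B f x n)` (an element of `U`), `α n` with `R D δ (v n) (α n)`, `ap f (α n) ∈ B n`, `(ap f (α n)).1 < τ`; `y n` with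
`D.pot δ (y n) = α n` (`D.hpot`, births by `Inv.birth`); `ν < ω₁` from `hr y`; `f = h ∘ k`, `k ∈ F δ (max δ ν + 1)`, `h ∈ F (max δ ν + 1) ω₁` (`factor`; `ω₁` is a limit).
(Best: first prove that for every `γ` there is such a package, as a structure or an existential statement over `τ δ ν : Ordinal`, and all other data depending on `δ`, then `choose`.)
Let `K γ = (δ, x, ν, cut k (M.θ δ), cut f x)` (a type as in `typ`), `lam γ` = the supremum of the ordinals `f z`, `z < x`, `τ γ = τ`.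
`hlam`: the `f z` are `< f x = γ`, there are countably many `z < x < θ δ < ω₁`, and the cofinality of `γ` is uncountable.
`hK`: for `lam γ ≤ β` all `f z`, `z < x`, are `≤ β`; so `K γ` is in the set of `typ β`; `Cardinal.mk_le_mk_of_subset`.
`fod` gives `γ, γ'` with `τ γ ≤ γ'` and `K γ = K γ'`: the same `δ` (substitute; generalize the data first), `x`, `ν`; `k = k'` (evaluate `cut k (M.θ δ)` at all `z < M.θ δ`), and `cut f x = cut f' x`, so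
`U D B f x n = U D B f' x n` (`U_congr`) and `v n = v' n` for all `n`.  `ke` with `hx' : τ ≤ γ' = f' x = h' (k x)`, `hB'`: `α' n`; contradiction.
-/

namespace Pool.Agent.Work.MP_6cc3c8_lc

open Cardinal Ordinal Set

variable {M : Morass} {D : Dat M}

private def Pk (D : Dat M) (B : ℕ → Set (Nd M ω₁)) (r : Ordinal.{0} → ℕ → ℕ)
    (pick : ∀ δ, Set (Nd M δ) → Nd M δ) (γ τ δ x ν : Ordinal.{0}) (κ φ : Ordinal.{0} → Ordinal.{0}) : Prop :=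
  δ < ω₁ ∧ ν < ω₁ ∧ τ < ω_ 2 ∧ ∃ hx : x < M.θ δ, ∃ k ∈ M.F δ (max δ ν + 1), ∃ h ∈ M.F (max δ ν + 1) ω₁,
    κ = cut k (M.θ δ) ∧ φ = cut (h ∘ k) x ∧ ((h (k ⟨x, hx⟩) : Iio (M.θ ω₁)) : Ordinal.{0}) = γ ∧
    (∀ n, pick δ (U D B (h ∘ k) ⟨x, hx⟩ n) ∈ U D B (h ∘ k) ⟨x, hx⟩ n) ∧
    (∀ n, ∀ v ∈ U D B (h ∘ k) ⟨x, hx⟩ n, ∃ a, R D δ v a ∧ ap (h ∘ k) a ∈ B n) ∧
    ∃ α : ℕ → Nd M δ, (∀ n, R D δ (pick δ (U D B (h ∘ k) ⟨x, hx⟩ n)) (α n)) ∧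
      (∀ n, ap (h ∘ k) (α n) ∈ B n) ∧
      (∀ n, (((ap (h ∘ k) (α n)).1 : Iio (M.θ ω₁)) : Ordinal.{0}) < τ) ∧
      ∃ y : ℕ → ℕ, (∀ n, D.pot δ (y n) = α n) ∧ ∀ l, ∃ i, r ν (Nat.pair l i) = y (Nat.pair l i)

private theorem add_one_lt' {a : Ordinal.{0}} (h : a < ω₁) : a + 1 < ω₁ := by
  have h1 : Order.IsSuccLimit (ω₁ : Ordinal.{0}) := by
    exact isSuccLimit_omega 1
  exact h1.add_one_lt h

private theorem pk_ex {B : ℕ → Set (Nd M ω₁)} (hA : Adv D B) {r : Ordinal.{0} → ℕ → ℕ}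
    (hr : ∀ y : ℕ → ℕ, ∃ ν, ν < ω₁ ∧ ∀ l, ∃ i, r ν (Nat.pair l i) = y (Nat.pair l i))
    (pick : ∀ δ, Set (Nd M δ) → Nd M δ) (hpick : ∀ δ (s : Set (Nd M δ)), s.Nonempty → pick δ s ∈ s)
    (γ : Ordinal.{0}) (hγ : γ < ω_ 2) : ∃ τ δ x ν κ φ, Pk D B r pick γ τ δ x ν κ φ := by
  have hγ' : γ ∈ Iio (M.θ ω₁) := by rw [M.top]; exact hγ
  obtain ⟨τ, δ, hδ, f, hf, x, hfx, hU⟩ := wit hA ⟨γ, hγ'⟩
  have h1 : ∀ n, ∃ a, R D δ (pick δ (U D B f x n)) a ∧ ap f a ∈ B n ∧ (ap f a).1 < τ :=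
    fun n => (hU n).2 _ (hpick _ _ (hU n).1)
  choose α hα1 hα2 hα3 using h1
  have h2 : ∀ n, ∃ y, D.pot δ y = α n := fun n => D.hpot δ hδ (α n) ((inv hδ.le).birth _ _ (hα1 n)).2
  choose y hy using h2
  obtain ⟨ν, hν, hrν⟩ := hr y
  have h0 : max δ ν + 1 < ω₁ := add_one_lt' (max_lt hδ hν)
  have h01 : δ < max δ ν + 1 := lt_of_le_of_lt (le_max_left _ _) (Order.lt_add_one_iff.mpr le_rfl)
  obtain ⟨k, hk, h, hh, rfl⟩ := factor h01 h0 le_rfl hf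
  refine ⟨τ, δ, x, ν, _, _, hδ, hν, ?_, x.2, k, hk, h, hh, rfl, rfl, ?_, ?_, ?_, α, hα1, hα2, ?_, y, hy, hrν⟩
  · exact lt_of_lt_of_eq (show (τ : Ordinal.{0}) < M.θ ω₁ from τ.2) M.top
  · have := congrArg (fun w : Iio (M.θ ω₁) => (w : Ordinal.{0})) hfx
    exact this
  · exact fun n => hpick _ _ (hU n).1
  · intro n v hv
    obtain ⟨a, ha1, ha2, _⟩ := (hU n).2 v hv
    exact ⟨a, ha1, ha2⟩
  · intro n
    exact hα3 n

private theorem cut_eq {ζ η : Ordinal.{0}} (f : Iio (M.θ ζ) → Iio (M.θ η)) {x z : Ordinal.{0}} (h : z < x)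
    (h' : z < M.θ ζ) : cut f x z = (f ⟨z, h'⟩ : Ordinal.{0}) := by
  unfold cut
  rw [dif_pos ⟨h, h'⟩]

private theorem fin' {B : ℕ → Set (Nd M ω₁)} (hA : Adv D B) {r ρ : Ordinal.{0} → ℕ → ℕ} (hG : Good D r ρ)
    (hI : Indep ρ) {pick : ∀ δ, Set (Nd M δ) → Nd M δ} {γ γ' τ τ' δ x ν : Ordinal.{0}}
    {κ φ : Ordinal.{0} → Ordinal.{0}} (h1 : Pk D B r pick γ τ δ x ν κ φ) (h2 : Pk D B r pick γ' τ' δ x ν κ φ)
    (hτ : τ ≤ γ') : False := by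
  obtain ⟨hδ, hν, hτ2, hx, k, hk, h, hh, hκ, hφ, hγe, hp, hB', α, hα, hαB, hατ, y, hy, hr⟩ := h1
  obtain ⟨_, _, _, _, k', hk', h', hh', hκ', hφ', hγe', hp', hB'', _⟩ := h2
  have hkk : k' = k := by
    funext z
    apply Subtype.ext
    have e := congrFun (hκ.symm.trans hκ') z
    rw [cut_eq k z.2 z.2, cut_eq k' z.2 z.2] at e
    exact e.symm
  subst hkk
  have hU : ∀ n, U D B (h ∘ k') ⟨x, hx⟩ n = U D B (h' ∘ k') ⟨x, hx⟩ n :=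
    U_congr (x := ⟨x, hx⟩) (hφ.symm.trans hφ')
  refine ke hA hG hI hδ hν hk hh hh' (x := ⟨x, hx⟩) (τ := ⟨τ, ?_⟩)
    (fun n => pick δ (U D B (h ∘ k') ⟨x, hx⟩ n)) α y ?_ ?_ hα hαB ?_ hy hr ?_ ?_
  · rw [mem_Iio, M.top]; exact hτ2
  · exact fun n => (hp n).2.1
  · exact fun n => (hp n).2.2.1
  · intro n
    exact hατ n
  · have : τ ≤ ((h' (k' ⟨x, hx⟩) : Iio (M.θ ω₁)) : Ordinal.{0}) := hτ.trans hγe'.ge
    exact this
  · intro n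
    have hm := hp n
    rw [hU n] at hm
    obtain ⟨a, ha1, ha2⟩ := hB'' n _ hm
    refine ⟨a, ?_, ha2⟩
    rw [← hU n] at ha1
    exact ha1

theorem key {B : ℕ → Set (Nd M ω₁)} (hA : Adv D B) {r ρ : Ordinal.{0} → ℕ → ℕ} (hG : Good D r ρ) (hI : Indep ρ)
    (hr : ∀ y : ℕ → ℕ, ∃ ν, ν < ω₁ ∧ ∀ l, ∃ i, r ν (Nat.pair l i) = y (Nat.pair l i)) : False := by
  classical
  have hp0 : ∀ δ (s : Set (Nd M δ)), ∃ a : Nd M δ, s.Nonempty → a ∈ s := by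
    intro δ s
    by_cases hs : s.Nonempty
    · exact ⟨hs.some, fun _ => hs.some_mem⟩
    · exact ⟨(⟨0, M.pos δ⟩, (0, 0)), fun h => absurd h hs⟩
  choose pick hpick using hp0
  have hex : ∀ γ : Ordinal.{0}, ∃ p : Ordinal.{0} × Ordinal.{0} × Ordinal.{0} × Ordinal.{0} ×
      (Ordinal.{0} → Ordinal.{0}) × (Ordinal.{0} → Ordinal.{0}), γ < ω_ 2 →
      Pk D B r pick γ p.1 p.2.1 p.2.2.1 p.2.2.2.1 p.2.2.2.2.1 p.2.2.2.2.2 := by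
    intro γ
    by_cases hγ : γ < ω_ 2
    · obtain ⟨τ, δ, x, ν, κ, φ, h⟩ := pk_ex hA hr pick hpick γ hγ
      exact ⟨(τ, δ, x, ν, κ, φ), fun _ => h⟩
    · exact ⟨(0, 0, 0, 0, fun _ => 0, fun _ => 0), fun h => absurd h hγ⟩
  choose p hp using hex
  -- values below `x` are below `γ`
  have hval : ∀ γ, γ < ω_ 2 → ∀ z < (p γ).2.2.1, (p γ).2.2.2.2.2 z < γ := by
    intro γ hγ z hz
    obtain ⟨hδ, hν, _, hx, k, hk, h, hh, _, hφ, hγe, _⟩ := hp γ hγ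
    have hz' : z < M.θ (p γ).2.1 := hz.trans hx
    rw [hφ, cut_eq _ hz hz']
    have h0 : max (p γ).2.1 (p γ).2.2.2.1 + 1 < ω₁ := add_one_lt' (max_lt hδ hν)
    have h01 : (p γ).2.1 < max (p γ).2.1 (p γ).2.2.2.1 + 1 :=
      lt_of_le_of_lt (le_max_left _ _) (Order.lt_add_one_iff.mpr le_rfl)
    have hm := (M.mono _ _ h0 le_rfl h hh).comp (M.mono _ _ h01 h0.le k hk)
    have hlt : (⟨z, hz'⟩ : Iio (M.θ (p γ).2.1)) < ⟨(p γ).2.2.1, hx⟩ := hz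
    have h3 := hm hlt
    have h4 : (((h ∘ k) ⟨z, hz'⟩ : Iio (M.θ ω₁)) : Ordinal.{0}) <
      ((h (k ⟨(p γ).2.2.1, hx⟩) : Iio (M.θ ω₁)) : Ordinal.{0}) := h3
    rw [hγe] at h4
    exact h4
  have hlam : ∀ γ, γ < ω_ 2 → γ.cof = ℵ₁ → sInf {b | ∀ z < (p γ).2.2.1, (p γ).2.2.2.2.2 z ≤ b} < γ := by
    intro γ hγ hcof
    have hx1 : (p γ).2.2.1 < ω₁ := by
      obtain ⟨hδ, _, _, hx, _⟩ := hp γ hγ
      exact hx.trans (M.small _ hδ)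
    have hcd : #(Iio (p γ).2.2.1) < ℵ₁ := by
      rw [Cardinal.mk_Iio_ordinal]
      have h5 : (p γ).2.2.1.card < ℵ₁ := lt_omega_iff_card_lt.mp hx1
      have h6 := (Cardinal.lift_lt.{0, 1}).mpr h5
      rwa [lift_aleph, Ordinal.lift_one] at h6
    have hb : (⨆ z : Iio (p γ).2.2.1, (p γ).2.2.2.2.2 z) < γ := by
      apply Ordinal.lift_iSup_lt_of_lt_cof
      · rw [← Ordinal.lift_cof, hcof]
        simpa using hcd
      · rintro ⟨z, hz⟩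
        exact hval γ hγ z hz
    refine lt_of_le_of_lt (csInf_le' ?_) hb
    intro z hz
    exact Ordinal.le_iSup (fun z : Iio (p γ).2.2.1 => (p γ).2.2.2.2.2 z) ⟨z, hz⟩
  have hK : ∀ β, β < ω_ 2 → #((fun γ => (p γ).2) '' {γ | γ < ω_ 2 ∧ γ.cof = ℵ₁ ∧
      sInf {b | ∀ z < (p γ).2.2.1, (p γ).2.2.2.2.2 z ≤ b} ≤ β}) ≤ ℵ₁ := by
    intro β hβ
    refine (Cardinal.mk_le_mk_of_subset ?_).trans (typ (M := M) β hβ)
    rintro _ ⟨γ, ⟨hγ, hc, hlam⟩, rfl⟩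
    have h6 := hp γ hγ
    obtain ⟨hδ, hν, _, hx, k, hk, h, hh, hκ, hφ, hγe, _⟩ := h6
    have h0 : max (p γ).2.1 (p γ).2.2.2.1 + 1 < ω₁ := add_one_lt' (max_lt hδ hν)
    have h01 : (p γ).2.1 < max (p γ).2.1 (p γ).2.2.2.1 + 1 :=
      lt_of_le_of_lt (le_max_left _ _) (Order.lt_add_one_iff.mpr le_rfl)
    refine ⟨hδ, hx, hν, ⟨k, hk, hκ⟩, h ∘ k, compose h01 h0 le_rfl hk hh, ?_, hφ⟩
    intro z hz
    have hmem : sInf {b | ∀ z < (p γ).2.2.1, (p γ).2.2.2.2.2 z ≤ b} ∈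
        {b | ∀ z < (p γ).2.2.1, (p γ).2.2.2.2.2 z ≤ b} :=
      csInf_mem ⟨γ, fun z hz => (hval γ hγ z hz).le⟩
    have h7 := (hmem z hz).trans hlam
    rw [hφ, cut_eq _ hz z.2] at h7
    exact h7
  obtain ⟨γ, γ', hγ, hγ', hc, hc', hττ, hKK⟩ := fod (fun γ => (p γ).2)
    (fun γ => sInf {b | ∀ z < (p γ).2.2.1, (p γ).2.2.2.2.2 z ≤ b}) (fun γ => (p γ).1) hlam
    (fun γ hγ => (hp γ hγ).2.2.1) hK
  have h1 := hp γ hγ
  have h2 := hp γ' hγ'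
  have hKK' : (p γ).2 = (p γ').2 := hKK
  rw [hKK'] at h1
  exact fin' hA hG hI h1 h2 hττ

end Pool.Agent.Work.MP_6cc3c8_lc
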