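import Pool.Agent.Work.MP_6cc3c8_lc.Defs

/-!
# The equations of the relation `R`.  Size: S.

`R.eq_1` unfolds `R D η a c`.  `r_zero`: nothing is `< 0`, and `0 ≠ ζ + 1`.  `r_lim`: a limit is neither `0` nor `ζ + 1`.  `lift`: the second
alternative.  `r_succ`: `ζ + 1 ≠ 0`, `ζ + 1 = ζ' + 1` gives `ζ = ζ'`; in the second alternative `ζ' < ζ + 1`: if `ζ' = ζ` done; if `ζ' < ζ` write
`f = k ∘ g` with `g ∈ F ζ' ζ`, `k ∈ F ζ (ζ + 1)` (`M.comp`), `R D ζ (ap g a') (ap g c')` by `lift`, and `ap k (ap g a') = ap f a'`.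
-/

namespace Pool.Agent.Work.MP_6cc3c8_lc

open Cardinal Ordinal Set

variable {M : Morass} {D : Dat M}

private theorem rc_succ_ne (ζ : Ordinal.{0}) : ζ + 1 ≠ 0 := by
  intro h
  have h1 : ζ < ζ + 1 := Order.lt_add_one_iff.mpr le_rfl
  rw [h] at h1
  exact absurd h1 (not_lt_bot (α := Ordinal.{0}))

private theorem rc_lim_ne {η : Ordinal.{0}} (hl : Order.IsSuccLimit η) (ζ : Ordinal.{0}) :
    η ≠ ζ + 1 := by
  intro h
  have h1 : ζ < η := h ▸ Order.lt_add_one_iff.mpr le_rfl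
  have h2 : ζ + 1 < η := by
    have := hl.succ_lt h1
    rwa [← Order.succ_eq_add_one]
  exact absurd h h2.ne'

theorem lift {ζ η : Ordinal.{0}} (h : ζ < η) {f : Iio (M.θ ζ) → Iio (M.θ η)} (hf : f ∈ M.F ζ η) {a c : Nd M ζ}
    (hr : R D ζ a c) : R D η (ap f a) (ap f c) := by
  rw [R]
  exact Or.inr (Or.inl ⟨ζ, h, f, hf, a, c, hr, rfl, rfl⟩)

theorem r_zero (a c : Nd M 0) : R D 0 a c ↔ a.1 ≤ c.1 ∧ a.2 = c.2 ∧ c.2.1 = 0 := by
  rw [R]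
  constructor
  · rintro (h | ⟨ζ, h, -⟩ | ⟨ζ, h, -⟩ | ⟨ζ, h, -⟩)
    · exact h.2
    · exact absurd h (not_lt_bot (α := Ordinal.{0}))
    · exact absurd h.symm (rc_succ_ne ζ)
    · exact absurd h.symm (rc_succ_ne ζ)
  · intro h
    exact Or.inl ⟨rfl, h⟩

theorem r_lim {η : Ordinal.{0}} (hl : Order.IsSuccLimit η) (a c : Nd M η) :
    R D η a c ↔ ∃ ζ, ζ < η ∧ ∃ f ∈ M.F ζ η, ∃ a' c', R D ζ a' c' ∧ a = ap f a' ∧ c = ap f c' := by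
  rw [R]
  constructor
  · rintro (h | ⟨ζ, h, h2⟩ | ⟨ζ, h, -⟩ | ⟨ζ, h, -⟩)
    · exact absurd (h.1 ▸ isMin_bot : IsMin η) hl.not_isMin
    · exact ⟨ζ, h, h2⟩
    · exact absurd h (rc_lim_ne hl ζ)
    · exact absurd h (rc_lim_ne hl ζ)
  · rintro ⟨ζ, h, h2⟩
    exact Or.inr (Or.inl ⟨ζ, h, h2⟩)

theorem r_succ {ζ : Ordinal.{0}} (h : ζ < ω₁) (a c : Nd M (ζ + 1)) :
    R D (ζ + 1) a c ↔ (∃ f ∈ M.F ζ (ζ + 1), ∃ a' c', R D ζ a' c' ∧ a = ap f a' ∧ c = ap f c') ∨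
      Cross D ζ (ζ + 1) (R D ζ) a c ∨ New D ζ (ζ + 1) (R D ζ) a c := by
  have hlt : ζ < ζ + 1 := Order.lt_add_one_iff.mpr le_rfl
  rw [R]
  constructor
  · rintro (h1 | ⟨ξ, h1, f, hf, a', c', hr, ha, hc⟩ | ⟨ξ, h1, h2⟩ | ⟨ξ, h1, h2⟩)
    · exact absurd h1.1 (rc_succ_ne ζ)
    · left
      rcases (Order.lt_add_one_iff.mp h1).eq_or_lt with e | hl
      · subst e
        exact ⟨f, hf, a', c', hr, ha, hc⟩
      · obtain ⟨g, hg, k, hk, e⟩ := (M.comp ξ ζ (ζ + 1) hl hlt (Order.add_one_le_iff.mpr h) f).mp hf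
        refine ⟨k, hk, ap g a', ap g c', lift hl hg hr, ?_, ?_⟩
        · rw [ha, e]
          rfl
        · rw [hc, e]
          rfl
    · have e : ζ = ξ := by simpa using h1
      subst e
      exact Or.inr (Or.inl h2)
    · have e : ζ = ξ := by simpa using h1
      subst e
      exact Or.inr (Or.inr h2)
  · rintro (⟨f, hf, a', c', hr, ha, hc⟩ | h2 | h2)
    · exact Or.inr (Or.inl ⟨ζ, hlt, f, hf, a', c', hr, ha, hc⟩)
    · exact Or.inr (Or.inr (Or.inl ⟨ζ, rfl, h2⟩))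
    · exact Or.inr (Or.inr (Or.inr ⟨ζ, rfl, h2⟩))

end Pool.Agent.Work.MP_6cc3c8_lc
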