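import Pool.Agent.Work.MP_6cc3c8_lc.Sc

/-!
# Successor stage: levels, births, reflexivity.  Size: M.

Classify `c` by `sc_class` and describe its predecessors by `sc_left`, `sc_right`, `sc_new` (births are `≤ ζ` by `hI.birth`); in the second class the node `u` of level `s` below `c'` is
given by `hI.ex`, and `k = spec u`, `P = pot ζ k`, `R D ζ u P` by `spec_ge` (`u` is a node by `hI.refl`), so `P` is a node.
`lev`: lifts: `M.mono`; in `Cr`: `a.1 < θ ζ ≤ b s ≤ b c'.1`; new chains: `a'.1 ≤ P.1 < c.1`.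
`birth`: immediate (`a.2.1 ≤ ζ` or `a.2 = (ζ + 1, k)`; `hI.birth`).
`refl`: lifts: `lift (hI.refl ..)`.  A node `a` with `Same a a'`, `a'` a node, is `ap i a'` for the inclusion `i` of `succ_form`, hence a node.  A node with `a.2 = (ζ + 1, k)`,
`P.1 < a.1`, `P` a node, is a node by `sc_new` (second alternative, with `a` for both).
-/

namespace Pool.Agent.Work.MP_6cc3c8_lc

open Cardinal Ordinal Set

variable {M : Morass} {D : Dat M}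

private theorem sa_lt (ζ : Ordinal.{0}) : ζ < ζ + 1 := Order.lt_add_one_iff.mpr le_rfl

private theorem sa_le {ζ : Ordinal.{0}} (h : ζ < ω₁) : ζ + 1 ≤ ω₁ := Order.add_one_le_of_lt h

private theorem sa_same {ζ : Ordinal.{0}} (hζ : ζ < ω₁) {a : Nd M (ζ + 1)} {a' : Nd M ζ}
    (ha : R D ζ a' a') (h : Same a a') : R D (ζ + 1) a a := by
  obtain ⟨i, hi, hinc, -⟩ := succ_form (M := M) hζ
  have e : a = ap i a' := by
    refine Prod.ext (Subtype.ext ?_) h.2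
    rw [h.1]
    exact (hinc a'.1).symm
  rw [e]
  exact lift (sa_lt ζ) hi ha

private theorem sa_new {ζ : Ordinal.{0}} (hζ : ζ < ω₁) {a : Nd M (ζ + 1)} {k : ℕ}
    (hP : R D ζ (D.pot ζ k) (D.pot ζ k)) (h : a.2 = (ζ + 1, k))
    (hlt : ((D.pot ζ k).1 : Ordinal.{0}) < a.1) : R D (ζ + 1) a a := by
  rw [r_succ hζ]
  exact Or.inr (Or.inr ⟨k, hP, h, hlt, Or.inr ⟨h, hlt, le_rfl⟩⟩)

theorem sLev {ζ : Ordinal.{0}} (hζ : ζ < ω₁) (hI : Inv D ζ) (a c : Nd M (ζ + 1)) (h : R D (ζ + 1) a c) :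
    a.1 ≤ c.1 := by
  rw [r_succ hζ] at h
  rcases h with ⟨f, hf, a', c', hr, rfl, rfl⟩ | ⟨b, hb, s, hs, u, c', hus, hu, rfl, hcr⟩ |
    ⟨k, h1, h2, h3, h4⟩
  · exact (M.mono ζ (ζ + 1) (sa_lt ζ) (sa_le hζ) f hf).monotone (hI.lev _ _ hr)
  · have h5 : (a.1 : Ordinal.{0}) < M.θ ζ := hcr.2.1
    have h6 : s ≤ c'.1 := by rw [← hus]; exact hI.lev _ _ hu
    have h7 : b s ≤ b c'.1 := (M.mono ζ (ζ + 1) (sa_lt ζ) (sa_le hζ) b hb).monotone h6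
    exact (h5.trans_le (hs.2.trans h7)).le
  · rcases h4 with ⟨a', h5, h6⟩ | ⟨h5, h6, h7⟩
    · have h8 : (a'.1 : Ordinal.{0}) ≤ (D.pot ζ k).1 := hI.lev _ _ h5
      have h9 : (a.1 : Ordinal.{0}) < c.1 := by rw [h6.1]; exact h8.trans_lt h3
      exact h9.le
    · exact h7

theorem sBirth {ζ : Ordinal.{0}} (hζ : ζ < ω₁) (hI : Inv D ζ) (a c : Nd M (ζ + 1)) (h : R D (ζ + 1) a c) :
    a.2.1 ≤ ζ + 1 ∧ c.2.1 ≤ ζ + 1 := by
  have hle := (sa_lt ζ).le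
  rw [r_succ hζ] at h
  rcases h with ⟨f, hf, a', c', hr, rfl, rfl⟩ | ⟨b, hb, s, hs, u, c', hus, hu, rfl, hcr⟩ |
    ⟨k, h1, h2, h3, h4⟩
  · exact ⟨(hI.birth _ _ hr).1.trans hle, (hI.birth _ _ hr).2.trans hle⟩
  · refine ⟨?_, (hI.birth _ _ hu).2.trans hle⟩
    rcases hcr.2.2 with ⟨a', h5, h6⟩ | ⟨h5, h6⟩
    · rw [h6.2]
      exact (hI.birth _ _ h5).1.trans hle
    · rw [h6]
  · refine ⟨?_, by rw [h2]⟩
    rcases h4 with ⟨a', h5, h6⟩ | ⟨h5, h6, h7⟩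
    · rw [h6.2]
      exact (hI.birth _ _ h5).1.trans hle
    · rw [h5]

theorem sRefl {ζ : Ordinal.{0}} (hζ : ζ < ω₁) (hI : Inv D ζ) (a c : Nd M (ζ + 1)) (h : R D (ζ + 1) a c) :
    R D (ζ + 1) a a ∧ R D (ζ + 1) c c := by
  rw [r_succ hζ] at h
  rcases h with ⟨f, hf, a', c', hr, rfl, rfl⟩ | ⟨b, hb, s, hs, u, c', hus, hu, rfl, hcr⟩ |
    ⟨k, h1, h2, h3, h4⟩
  · exact ⟨lift (sa_lt ζ) hf (hI.refl _ _ hr).1, lift (sa_lt ζ) hf (hI.refl _ _ hr).2⟩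
  · refine ⟨?_, lift (sa_lt ζ) hb (hI.refl _ _ hu).2⟩
    rcases hcr.2.2 with ⟨a', h5, h6⟩ | ⟨h5, h6⟩
    · exact sa_same hζ (hI.refl _ _ h5).1 h6
    · exact sa_new hζ (hI.refl _ _ (spec_ge hζ hI (hI.refl _ _ hu).1)).2 h6 h5
  · refine ⟨?_, sa_new hζ h1 h2 h3⟩
    rcases h4 with ⟨a', h5, h6⟩ | ⟨h5, h6, h7⟩
    · exact sa_same hζ (hI.refl _ _ h5).1 h6
    · exact sa_new hζ h1 h5 h6

end Pool.Agent.Work.MP_6cc3c8_lc
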