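import Pool.Agent.Work.MP_6cc3c8_lc.Sp
import Pool.Agent.Work.MP_6cc3c8_lc.Mor

/-!
# The predecessors of the nodes of a successor stage.  Size: M.

All from `r_succ`, `succ_form`, `split_unique`, `inj`, `M.mono`; `I = Inv D ζ`.
`sc_left` (→): lift by `i`: `ap i c'' = ap i c'` gives `c'' = c'`.  Lift by a split map `b`: `ap b c'' = ap i c'`, `b c''.1 = c'.1 < θ ζ ≤ b s`, so
`c''.1 < s`, `b c''.1 = c''.1` (as ordinals), `c'' = c'`, and `a = ap b a''` with `a''.1 ≤ c''.1 < s`, so `ap b a'' = ap i a''`.  `Cross`: `s = u.1 ≤ c''.1`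
(`I.lev`), so `b c''.1 ≥ b s ≥ θ ζ`, against `b c''.1 = c'.1`.  `New`: `c'.2 = (ζ + 1, k)` contradicts `c'.2.1 ≤ ζ`.  (←) `lift`.
`sc_right` (→): lift by the inclusion: `c''.1 = b c'.1 ≥ b s ≥ θ ζ`, impossible.  Lift by a split map: it is `b`, `c'' = c'`.  `Cross`: `b' = b`, `s' = s`, `c'' = c'`,
the `u''` there has level `s`, so `u'' = u` by `I.uniq`.  `New`: birth.  (←) `lift`, and the definition of `Cross`.
`sc_new` (→): in a lift `c = ap f c''`, `R D ζ a'' c''`, so the birth of `c` is `≤ ζ` (`I.birth`), against `c.2 = (ζ + 1, k)`; the same for `Cross`.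
`New` with `k'`: `k' = k`.  (←) `New`.
`sc_class`: lift by `i`: first alternative; lift by a split map `b`, `s ≤ c'.1`: second; `c'.1 < s`: `b c'.1 = c'.1`, so `c = ap i c'`: first (`i` from
`succ_form`).  `Cross`: `s = u.1 ≤ c'.1`: second.  `New`: third.
-/

namespace Pool.Agent.Work.MP_6cc3c8_lc

open Cardinal Ordinal Set

variable {M : Morass} {D : Dat M}

private theorem lt1 (ζ : Ordinal.{0}) : ζ < ζ + 1 := Order.lt_add_one_iff.mpr le_rfl

private theorem ap_inj {ζ η : Ordinal.{0}} {f : Iio (M.θ ζ) → Iio (M.θ η)} (hf : Function.Injective f)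
    {a c : Nd M ζ} (h : ap f a = ap f c) : a = c := by
  have h1 : f a.1 = f c.1 := congrArg Prod.fst h
  have h2 : (ap f a).2 = (ap f c).2 := congrArg Prod.snd h
  exact Prod.ext (hf h1) h2

private theorem birth_ne {ζ : Ordinal.{0}} {k : ℕ} {x : Ordinal.{0} × ℕ} (hx : x.1 ≤ ζ)
    (h : x = (ζ + 1, k)) : False := by
  rw [h] at hx
  exact absurd hx (not_le.2 (lt1 ζ))

private theorem one_le {ζ : Ordinal.{0}} (h : ζ < ω₁) : ζ + 1 ≤ ω₁ := Order.add_one_le_of_lt h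

private theorem split_low {ζ η : Ordinal.{0}} {b i : Iio (M.θ ζ) → Iio (M.θ η)} {s : Iio (M.θ ζ)}
    (hs : IsSplit b s) (hinc : IsInc i) {x : Iio (M.θ ζ)} (hx : x < s) : b x = i x := by
  apply Subtype.ext
  rw [hs.1 x hx, hinc x]

private theorem split_high {ζ η : Ordinal.{0}} {b : Iio (M.θ ζ) → Iio (M.θ η)} {s : Iio (M.θ ζ)}
    (hm : StrictMono b) (hs : IsSplit b s) {x : Iio (M.θ ζ)} (hx : s ≤ x) : M.θ ζ ≤ (b x : Ordinal.{0}) :=
  hs.2.trans (hm.monotone hx)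

theorem sc_left {ζ : Ordinal.{0}} (hζ : ζ < ω₁) (hI : Inv D ζ) {i : Iio (M.θ ζ) → Iio (M.θ (ζ + 1))}
    (hi : i ∈ M.F ζ (ζ + 1)) (hinc : IsInc i) (c' : Nd M ζ) (hc : c'.2.1 ≤ ζ) (a : Nd M (ζ + 1)) :
    R D (ζ + 1) a (ap i c') ↔ ∃ a', R D ζ a' c' ∧ a = ap i a' := by
  have hle := one_le hζ
  constructor
  · intro h
    rw [r_succ hζ] at h
    rcases h with ⟨f, hf, a'', c'', hr, rfl, hc2⟩ | ⟨b, hb, s, hs, u, c'', hus, hu, hc2, -⟩ |
      ⟨k, -, hk, -⟩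
    · obtain ⟨i0, hi0, hinc0, hall⟩ := succ_form (M := M) hζ
      have hii : i0 = i := inc_unique hinc0 hinc
      rcases hall f hf with h1 | ⟨s, hs⟩
      · rw [h1, hii] at hc2
        have := ap_inj (inj (lt1 ζ) hle hi) hc2
        subst this
        exact ⟨a'', hr, by rw [h1, hii]⟩
      · have hm := M.mono ζ (ζ + 1) (lt1 ζ) hle f hf
        have e1 : i c'.1 = f c''.1 := congrArg Prod.fst hc2
        have e2 : (ap i c').2 = (ap f c'').2 := congrArg Prod.snd hc2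
        have hlt : c''.1 < s := by
          by_contra hcon
          have h3 := split_high hm hs (not_lt.1 hcon)
          rw [← e1, hinc c'.1] at h3
          exact absurd c'.1.2 (not_lt.2 h3)
        have e3 : c'.1 = c''.1 := by
          apply Subtype.ext
          have h4 := split_low hs hinc hlt
          rw [h4] at e1
          have h5 := congrArg Subtype.val e1
          rwa [hinc c'.1, hinc c''.1] at h5
        have e4 : c' = c'' := Prod.ext e3 e2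
        subst e4
        refine ⟨a'', hr, ?_⟩
        have h6 : a''.1 < s := lt_of_le_of_lt (hI.lev _ _ hr) hlt
        exact Prod.ext (split_low hs hinc h6) rfl
    · exfalso
      have hm := M.mono ζ (ζ + 1) (lt1 ζ) hle b hb
      have e1 : i c'.1 = b c''.1 := congrArg Prod.fst hc2
      have h3 := split_high hm hs (by rw [← hus]; exact hI.lev _ _ hu : s ≤ c''.1)
      rw [← e1, hinc c'.1] at h3
      exact absurd c'.1.2 (not_lt.2 h3)
    · exact (birth_ne hc hk).elim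
  · rintro ⟨a', hr, rfl⟩
    exact lift (lt1 ζ) hi hr

theorem sc_right {ζ : Ordinal.{0}} (hζ : ζ < ω₁) (hI : Inv D ζ) {b : Iio (M.θ ζ) → Iio (M.θ (ζ + 1))}
    (hb : b ∈ M.F ζ (ζ + 1)) {s : Iio (M.θ ζ)} (hs : IsSplit b s) (c' : Nd M ζ) (hc : c'.2.1 ≤ ζ) (u : Nd M ζ)
    (hu : R D ζ u c') (hus : u.1 = s) (a : Nd M (ζ + 1)) :
    R D (ζ + 1) a (ap b c') ↔ (∃ a', R D ζ a' c' ∧ a = ap b a') ∨ Cr D ζ (ζ + 1) (R D ζ) u a := by
  have hle := one_le hζ
  have hm := M.mono ζ (ζ + 1) (lt1 ζ) hle b hb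
  have hsc : s ≤ c'.1 := by rw [← hus]; exact hI.lev _ _ hu
  constructor
  · intro h
    rw [r_succ hζ] at h
    rcases h with ⟨f, hf, a'', c'', hr, rfl, hc2⟩ | ⟨b', hb', s', hs', u', c'', hus', hu', hc2, hcr⟩ |
      ⟨k, -, hk, -⟩
    · left
      obtain ⟨i0, hi0, hinc0, hall⟩ := succ_form (M := M) hζ
      rcases hall f hf with h1 | ⟨s', hs'⟩
      · exfalso
        have e1 : b c'.1 = f c''.1 := congrArg Prod.fst hc2
        have h3 := split_high hm hs hsc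
        rw [e1, h1, hinc0 c''.1] at h3
        exact absurd c''.1.2 (not_lt.2 h3)
      · obtain ⟨h2, -⟩ := split_unique hζ hf hb hs' hs
        subst h2
        have := ap_inj (inj (lt1 ζ) hle hf) hc2
        subst this
        exact ⟨a'', hr, rfl⟩
    · right
      obtain ⟨h2, h3⟩ := split_unique hζ hb' hb hs' hs
      subst h2
      subst h3
      have := ap_inj (inj (lt1 ζ) hle hb) hc2
      subst this
      have hu2 := hI.uniq _ _ _ hu' hu (hus'.trans hus.symm)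
      subst hu2
      exact hcr
    · exact (birth_ne hc hk).elim
  · rintro (⟨a', hr, rfl⟩ | hcr)
    · exact lift (lt1 ζ) hb hr
    · rw [r_succ hζ]
      exact Or.inr (Or.inl ⟨b, hb, s, hs, u, c', hus, hu, rfl, hcr⟩)

theorem sc_new {ζ : Ordinal.{0}} (hζ : ζ < ω₁) (hI : Inv D ζ) (c : Nd M (ζ + 1)) (k : ℕ) (hc : c.2 = (ζ + 1, k))
    (a : Nd M (ζ + 1)) :
    R D (ζ + 1) a c ↔ R D ζ (D.pot ζ k) (D.pot ζ k) ∧ ((D.pot ζ k).1 : Ordinal.{0}) < c.1 ∧
      ((∃ a', R D ζ a' (D.pot ζ k) ∧ Same a a') ∨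
        (a.2 = (ζ + 1, k) ∧ ((D.pot ζ k).1 : Ordinal.{0}) < a.1 ∧ a.1 ≤ c.1)) := by
  constructor
  · intro h
    rw [r_succ hζ] at h
    rcases h with ⟨f, hf, a'', c'', hr, -, rfl⟩ | ⟨b, hb, s, hs, u, c'', hus, hu, rfl, -⟩ |
      ⟨k', h1, h2, h3, h4⟩
    · exact (birth_ne (hI.birth _ _ hr).2 hc).elim
    · exact (birth_ne (hI.birth _ _ hu).2 hc).elim
    · have hk : k' = k := congrArg Prod.snd (h2.symm.trans hc)
      subst hk
      exact ⟨h1, h3, h4⟩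
  · rintro ⟨h1, h3, h4⟩
    rw [r_succ hζ]
    exact Or.inr (Or.inr ⟨k, h1, hc, h3, h4⟩)

theorem sc_class {ζ : Ordinal.{0}} (hζ : ζ < ω₁) (hI : Inv D ζ) {a c : Nd M (ζ + 1)} (h : R D (ζ + 1) a c) :
    (∃ i ∈ M.F ζ (ζ + 1), IsInc i ∧ ∃ c', R D ζ c' c' ∧ c = ap i c') ∨
    (∃ b ∈ M.F ζ (ζ + 1), ∃ s, IsSplit b s ∧ ∃ c', R D ζ c' c' ∧ s ≤ c'.1 ∧ c = ap b c') ∨
    (∃ k, c.2 = (ζ + 1, k) ∧ R D ζ (D.pot ζ k) (D.pot ζ k) ∧ ((D.pot ζ k).1 : Ordinal.{0}) < c.1) := by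
  obtain ⟨i0, hi0, hinc0, hall⟩ := succ_form (M := M) hζ
  rw [r_succ hζ] at h
  rcases h with ⟨f, hf, a'', c'', hr, -, rfl⟩ | ⟨b, hb, s, hs, u, c'', hus, hu, rfl, -⟩ |
      ⟨k, h1, h2, h3, h4⟩
  · rcases hall f hf with h1 | ⟨s, hs⟩
    · left
      exact ⟨i0, hi0, hinc0, c'', (hI.refl _ _ hr).2, by rw [h1]⟩
    · rcases lt_or_ge c''.1 s with hlt | hge
      · left
        exact ⟨i0, hi0, hinc0, c'', (hI.refl _ _ hr).2, Prod.ext (split_low hs hinc0 hlt) rfl⟩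
      · right
        left
        exact ⟨f, hf, s, hs, c'', (hI.refl _ _ hr).2, hge, rfl⟩
  · right
    left
    exact ⟨b, hb, s, hs, c'', (hI.refl _ _ hu).2, by rw [← hus]; exact hI.lev _ _ hu, rfl⟩
  · right
    right
    exact ⟨k, h2, h1, h3⟩

end Pool.Agent.Work.MP_6cc3c8_lc
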