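import Pool.Agent.Work.MP_6cc3c8_lc.Rc

/-!
# The guess above a node.  Size: S.

`cone_unique`: the two nodes of level `0` below `u` are equal by `Inv.uniq`, so their names `(0, n)`, `(0, m)` are equal.
`spec_eq`: the first `if` holds; `h.choose = n` by `cone_unique`.
`spec_ge`: in the first case of `spec` this is `h.choose_spec.2`; otherwise there is `k` with `pot ζ k = u` (`D.hpot`, the birth of `u` is `≤ ζ` by `Inv.birth`), so
`pot ζ (spec u) = u` and `R D ζ u u`.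
-/

namespace Pool.Agent.Work.MP_6cc3c8_lc

open Cardinal Ordinal Set

variable {M : Morass} {D : Dat M}

theorem cone_unique {η : Ordinal.{0}} (hI : Inv D η) {n m : ℕ} {u : Nd M η} (hn : Cone (R D η) n u)
    (hm : Cone (R D η) m u) : n = m := by
  obtain ⟨a, h1, h2, h3⟩ := hn
  obtain ⟨a', h1', h2', h3'⟩ := hm
  have h4 : a.1 = a'.1 := Subtype.ext (h1.trans h1'.symm)
  have h5 := hI.uniq a a' u h3 h3' h4
  rw [h5, h2'] at h2
  exact (congrArg Prod.snd h2).symm

theorem spec_eq {ζ : Ordinal.{0}} (hI : Inv D ζ) {n : ℕ} {u : Nd M ζ} (hn : Cone (R D ζ) n u)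
    (hu : R D ζ u (D.pot ζ (D.gs ζ n))) : spec D ζ (R D ζ) u = D.gs ζ n := by
  have h : ∃ n, Cone (R D ζ) n u ∧ R D ζ u (D.pot ζ (D.gs ζ n)) := ⟨n, hn, hu⟩
  unfold spec
  rw [dif_pos h, cone_unique hI h.choose_spec.1 hn]

theorem spec_ge {ζ : Ordinal.{0}} (hζ : ζ < ω₁) (hI : Inv D ζ) {u : Nd M ζ} (hu : R D ζ u u) :
    R D ζ u (D.pot ζ (spec D ζ (R D ζ) u)) := by
  unfold spec
  split_ifs with h h'
  · exact h.choose_spec.2
  · rw [h'.choose_spec]
    exact hu
  · exact absurd (D.hpot ζ hζ u (hI.birth u u hu).1) h'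

end Pool.Agent.Work.MP_6cc3c8_lc
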