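import Pool.Agent.Work.MP_6cc3c8_lc.Cne

/-!
# The trees of the cones (definitions, FIXED)
-/

namespace Pool.Agent.Work.MP_6cc3c8_lc

open Cardinal Ordinal Set

variable {M : Morass}

/-- The nodes of the cone `n` of the last stage. -/
def Tn (D : Dat M) (n : ℕ) : Type 1 := {a : Nd M ω₁ // R D ω₁ a a ∧ Cone (R D ω₁) n a}

instance (D : Dat M) (n : ℕ) : PartialOrder (Tn D n) where
  le a b := R D ω₁ a.1 b.1
  le_refl a := a.2.1
  le_trans a b c h h' := (inv le_rfl).trans _ _ _ h h'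
  le_antisymm _ _ h h' := Subtype.ext (antisymm' le_rfl h h')

theorem Tn.le_def {D : Dat M} {n : ℕ} {a b : Tn D n} : a ≤ b ↔ R D ω₁ a.1 b.1 := Iff.rfl

/-- The level, as an ordinal. -/
def Tn.lev {D : Dat M} {n : ℕ} (a : Tn D n) : Ordinal.{0} := (a.1.1 : Iio (M.θ ω₁))

end Pool.Agent.Work.MP_6cc3c8_lc
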